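import Mathlib

/-!
Planar three-body problem: basic quantities.
-/

open Filter Topology Set
open scoped InnerProductSpace

namespace Pool.Agent.H310.Three

/-- Data of a collision-free planar three-body motion with positive energy whose pairs do not
collapse relative to the size of the configuration as `t → ∞`. -/
structure Data where
  (m₁ m₂ m₃ E : ℝ)
  (q₁ q₂ q₃ p₁ p₂ p₃ : ℝ → ℂ)
  h1 : 0 < m₁
  h2 : 0 < m₂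
  h3 : 0 < m₃
  hE : 0 < E
  d1 : ∀ t, HasDerivAt q₁ (p₁ t) t
  d2 : ∀ t, HasDerivAt q₂ (p₂ t) t
  d3 : ∀ t, HasDerivAt q₃ (p₃ t) t
  a1 : ∀ t, HasDerivAt p₁ ((m₂ / ‖q₂ t - q₁ t‖ ^ 3) • (q₂ t - q₁ t) +
    (m₃ / ‖q₃ t - q₁ t‖ ^ 3) • (q₃ t - q₁ t)) t
  a2 : ∀ t, HasDerivAt p₂ ((m₁ / ‖q₂ t - q₁ t‖ ^ 3) • (q₁ t - q₂ t) +
    (m₃ / ‖q₃ t - q₂ t‖ ^ 3) • (q₃ t - q₂ t)) t
  a3 : ∀ t, HasDerivAt p₃ ((m₁ / ‖q₃ t - q₁ t‖ ^ 3) • (q₁ t - q₃ t) +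
    (m₂ / ‖q₃ t - q₂ t‖ ^ 3) • (q₂ t - q₃ t)) t
  n21 : ∀ t, q₂ t ≠ q₁ t
  n31 : ∀ t, q₃ t ≠ q₁ t
  n32 : ∀ t, q₃ t ≠ q₂ t
  cm : ∀ t, m₁ • q₁ t + m₂ • q₂ t + m₃ • q₃ t = 0
  mo : ∀ t, m₁ • p₁ t + m₂ • p₂ t + m₃ • p₃ t = 0
  en : ∀ t, (m₁ * ‖p₁ t‖ ^ 2 + m₂ * ‖p₂ t‖ ^ 2 + m₃ * ‖p₃ t‖ ^ 2) / 2 -
    (m₁ * m₂ / ‖q₂ t - q₁ t‖ + m₁ * m₃ / ‖q₃ t - q₁ t‖ + m₂ * m₃ / ‖q₃ t - q₂ t‖) = E
  nc : ¬ Tendsto (fun t => ‖q₂ t - q₁ t‖ /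
    √(m₁ * ‖q₁ t‖ ^ 2 + m₂ * ‖q₂ t‖ ^ 2 + m₃ * ‖q₃ t‖ ^ 2)) atTop (𝓝 0)

namespace Data

variable (D : Data)

/-- moment of inertia -/
noncomputable def I (t : ℝ) : ℝ := D.m₁ * ‖D.q₁ t‖ ^ 2 + D.m₂ * ‖D.q₂ t‖ ^ 2 + D.m₃ * ‖D.q₃ t‖ ^ 2

/-- size -/
noncomputable def R (t : ℝ) : ℝ := √(D.I t)

/-- square root of the size -/
noncomputable def w (t : ℝ) : ℝ := √(D.R t)

/-- twice the kinetic energy -/
noncomputable def K (t : ℝ) : ℝ := D.m₁ * ‖D.p₁ t‖ ^ 2 + D.m₂ * ‖D.p₂ t‖ ^ 2 + D.m₃ * ‖D.p₃ t‖ ^ 2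

/-- half the derivative of the moment of inertia -/
noncomputable def G (t : ℝ) : ℝ :=
  D.m₁ * ⟪D.q₁ t, D.p₁ t⟫_ℝ + D.m₂ * ⟪D.q₂ t, D.p₂ t⟫_ℝ + D.m₃ * ⟪D.q₃ t, D.p₃ t⟫_ℝ

/-- Newtonian potential (positive) -/
noncomputable def U (t : ℝ) : ℝ := D.m₁ * D.m₂ / ‖D.q₂ t - D.q₁ t‖ +
  D.m₁ * D.m₃ / ‖D.q₃ t - D.q₁ t‖ + D.m₂ * D.m₃ / ‖D.q₃ t - D.q₂ t‖

/-- the first distance -/
noncomputable def r (t : ℝ) : ℝ := ‖D.q₂ t - D.q₁ t‖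

/-- relative vector of the first pair -/
noncomputable def x (t : ℝ) : ℂ := D.q₂ t - D.q₁ t

/-- relative velocity of the first pair -/
noncomputable def v (t : ℝ) : ℂ := D.p₂ t - D.p₁ t

/-- tidal acceleration on the first pair -/
noncomputable def P (t : ℝ) : ℂ :=
  D.m₃ • ((1 / ‖D.q₃ t - D.q₂ t‖ ^ 3) • (D.q₃ t - D.q₂ t) -
    (1 / ‖D.q₃ t - D.q₁ t‖ ^ 3) • (D.q₃ t - D.q₁ t))

/-- total mass of the first pair -/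
noncomputable def S : ℝ := D.m₁ + D.m₂

/-- total mass -/
noncomputable def M : ℝ := D.m₁ + D.m₂ + D.m₃

/-- specific energy of the first pair -/
noncomputable def e (t : ℝ) : ℝ := ‖D.v t‖ ^ 2 / 2 - D.S / D.r t

/-- squared generalised angular momentum -/
noncomputable def J2 (t : ℝ) : ℝ := D.I t * D.K t - D.G t ^ 2

lemma r_pos (t : ℝ) : 0 < D.r t := norm_pos_iff.2 (sub_ne_zero.2 (D.n21 t))

lemma r31_pos (t : ℝ) : 0 < ‖D.q₃ t - D.q₁ t‖ := norm_pos_iff.2 (sub_ne_zero.2 (D.n31 t))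

lemma r32_pos (t : ℝ) : 0 < ‖D.q₃ t - D.q₂ t‖ := norm_pos_iff.2 (sub_ne_zero.2 (D.n32 t))

lemma S_pos : 0 < D.S := add_pos D.h1 D.h2

lemma M_pos : 0 < D.M := add_pos (add_pos D.h1 D.h2) D.h3

lemma I_pos (t : ℝ) : 0 < D.I t := by
  have h := D.r_pos t
  have h1 := D.h1
  have h2 := D.h2
  have h3 := D.h3
  by_contra hc
  have hI : D.I t = 0 := le_antisymm (not_lt.1 hc) (by unfold I; positivity)
  unfold I at hI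
  have a1 : 0 ≤ D.m₁ * ‖D.q₁ t‖ ^ 2 := by positivity
  have a2 : 0 ≤ D.m₂ * ‖D.q₂ t‖ ^ 2 := by positivity
  have a3 : 0 ≤ D.m₃ * ‖D.q₃ t‖ ^ 2 := by positivity
  have b1 : D.m₁ * ‖D.q₁ t‖ ^ 2 = 0 := by linarith
  have b2 : D.m₂ * ‖D.q₂ t‖ ^ 2 = 0 := by linarith
  have c1 : D.q₁ t = 0 := by
    rcases mul_eq_zero.1 b1 with h' | h'
    · linarith
    · simpa using h'
  have c2 : D.q₂ t = 0 := by
    rcases mul_eq_zero.1 b2 with h' | h'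
    · linarith
    · simpa using h'
  exact D.n21 t (by rw [c1, c2])

lemma R_pos (t : ℝ) : 0 < D.R t := Real.sqrt_pos.2 (D.I_pos t)

lemma R_sq (t : ℝ) : D.R t ^ 2 = D.I t := Real.sq_sqrt (D.I_pos t).le

lemma w_pos (t : ℝ) : 0 < D.w t := Real.sqrt_pos.2 (D.R_pos t)

lemma w_sq (t : ℝ) : D.w t ^ 2 = D.R t := Real.sq_sqrt (D.R_pos t).le

lemma U_pos (t : ℝ) : 0 < D.U t := by
  have h := D.r_pos t
  have h' := D.r31_pos t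
  have h'' := D.r32_pos t
  have h1 := D.h1
  have h2 := D.h2
  have h3 := D.h3
  unfold r at h
  unfold U
  positivity

lemma U_ge (t : ℝ) : D.m₁ * D.m₂ / D.r t ≤ D.U t := by
  have h' := D.r31_pos t
  have h'' := D.r32_pos t
  have h1 := D.h1
  have h2 := D.h2
  have h3 := D.h3
  unfold U r
  have a : 0 < D.m₁ * D.m₃ / ‖D.q₃ t - D.q₁ t‖ := by positivity
  have b : 0 < D.m₂ * D.m₃ / ‖D.q₃ t - D.q₂ t‖ := by positivity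
  linarith

lemma K_eq (t : ℝ) : D.K t = 2 * (D.E + D.U t) := by
  have := D.en t
  unfold K U
  linarith

/-- Cauchy-Schwarz -/
lemma J2_nonneg (t : ℝ) : 0 ≤ D.J2 t := by
  unfold J2 I K G
  have h1 := D.h1
  have h2 := D.h2
  have h3 := D.h3
  have c1 := abs_real_inner_le_norm (D.q₁ t) (D.p₁ t)
  have c2 := abs_real_inner_le_norm (D.q₂ t) (D.p₂ t)
  have c3 := abs_real_inner_le_norm (D.q₃ t) (D.p₃ t)
  set a := ‖D.q₁ t‖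
  set b := ‖D.q₂ t‖
  set c := ‖D.q₃ t‖
  set a' := ‖D.p₁ t‖
  set b' := ‖D.p₂ t‖
  set c' := ‖D.p₃ t‖
  have ha : 0 ≤ a := norm_nonneg _
  have hb : 0 ≤ b := norm_nonneg _
  have hc : 0 ≤ c := norm_nonneg _
  have ha' : 0 ≤ a' := norm_nonneg _
  have hb' : 0 ≤ b' := norm_nonneg _
  have hc' : 0 ≤ c' := norm_nonneg _
  set g := D.m₁ * ⟪D.q₁ t, D.p₁ t⟫_ℝ + D.m₂ * ⟪D.q₂ t, D.p₂ t⟫_ℝ + D.m₃ * ⟪D.q₃ t, D.p₃ t⟫_ℝ
  have hg : |g| ≤ D.m₁ * (a * a') + D.m₂ * (b * b') + D.m₃ * (c * c') := by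
    calc |g| ≤ |D.m₁ * ⟪D.q₁ t, D.p₁ t⟫_ℝ| + |D.m₂ * ⟪D.q₂ t, D.p₂ t⟫_ℝ| +
          |D.m₃ * ⟪D.q₃ t, D.p₃ t⟫_ℝ| := abs_add_three _ _ _
      _ = D.m₁ * |⟪D.q₁ t, D.p₁ t⟫_ℝ| + D.m₂ * |⟪D.q₂ t, D.p₂ t⟫_ℝ| +
          D.m₃ * |⟪D.q₃ t, D.p₃ t⟫_ℝ| := by
        rw [abs_mul, abs_mul, abs_mul, abs_of_pos h1, abs_of_pos h2, abs_of_pos h3]
      _ ≤ _ := by gcongr
  have hsq : g ^ 2 ≤ (D.m₁ * (a * a') + D.m₂ * (b * b') + D.m₃ * (c * c')) ^ 2 := by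
    rw [← sq_abs g]
    exact pow_le_pow_left₀ (abs_nonneg _) hg 2
  have hcs : (D.m₁ * (a * a') + D.m₂ * (b * b') + D.m₃ * (c * c')) ^ 2 ≤
      (D.m₁ * a ^ 2 + D.m₂ * b ^ 2 + D.m₃ * c ^ 2) * (D.m₁ * a' ^ 2 + D.m₂ * b' ^ 2 + D.m₃ * c' ^ 2) := by
    have e1 : 0 ≤ D.m₁ * D.m₂ * (a * b' - b * a') ^ 2 := by positivity
    have e2 : 0 ≤ D.m₁ * D.m₃ * (a * c' - c * a') ^ 2 := by positivity
    have e3 : 0 ≤ D.m₂ * D.m₃ * (b * c' - c * b') ^ 2 := by positivity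
    nlinarith
  linarith

lemma J2_eq (t : ℝ) : D.J2 t = 2 * D.I t * (D.E + D.U t) - D.G t ^ 2 := by
  rw [J2, K_eq]
  ring

end Data

lemma hasDerivAt_norm {f : ℝ → ℂ} {f' : ℂ} {t : ℝ} (hf : HasDerivAt f f' t) (h0 : f t ≠ 0) :
    HasDerivAt (fun t => ‖f t‖) (⟪f t, f'⟫_ℝ / ‖f t‖) t := by
  have h1 := hf.norm_sq
  have hn : 0 < ‖f t‖ := norm_pos_iff.2 h0
  have h2 := h1.sqrt (by positivity)
  have e : (fun t => ‖f t‖) = fun t => √(‖f t‖ ^ 2) := by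
    funext s
    rw [Real.sqrt_sq (norm_nonneg _)]
  rw [e]
  refine h2.congr_deriv ?_
  rw [Real.sqrt_sq (norm_nonneg _)]
  field_simp

namespace Data

variable (D : Data)

lemma hasDerivAt_I (t : ℝ) : HasDerivAt D.I (2 * D.G t) t := by
  have e1 := ((D.d1 t).norm_sq).const_mul D.m₁
  have e2 := ((D.d2 t).norm_sq).const_mul D.m₂
  have e3 := ((D.d3 t).norm_sq).const_mul D.m₃
  refine ((e1.add e2).add e3).congr_deriv ?_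
  unfold G
  ring

lemma hasDerivAt_R (t : ℝ) : HasDerivAt D.R (D.G t / D.R t) t := by
  have h := (D.hasDerivAt_I t).sqrt (D.I_pos t).ne'
  refine h.congr_deriv ?_
  rw [← R]
  have := D.R_pos t
  field_simp

lemma hasDerivAt_w (t : ℝ) : HasDerivAt D.w (D.G t / (2 * D.w t ^ 3)) t := by
  have h := (D.hasDerivAt_R t).sqrt (D.R_pos t).ne'
  refine h.congr_deriv ?_
  rw [← w]
  have h1 := D.w_pos t
  have h2 := D.w_sq t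
  rw [← h2]
  field_simp

lemma inner_acc (t : ℝ) :
    D.m₁ * ⟪D.q₁ t, (D.m₂ / ‖D.q₂ t - D.q₁ t‖ ^ 3) • (D.q₂ t - D.q₁ t) +
      (D.m₃ / ‖D.q₃ t - D.q₁ t‖ ^ 3) • (D.q₃ t - D.q₁ t)⟫_ℝ +
    D.m₂ * ⟪D.q₂ t, (D.m₁ / ‖D.q₂ t - D.q₁ t‖ ^ 3) • (D.q₁ t - D.q₂ t) +
      (D.m₃ / ‖D.q₃ t - D.q₂ t‖ ^ 3) • (D.q₃ t - D.q₂ t)⟫_ℝ +
    D.m₃ * ⟪D.q₃ t, (D.m₁ / ‖D.q₃ t - D.q₁ t‖ ^ 3) • (D.q₁ t - D.q₃ t) +
      (D.m₂ / ‖D.q₃ t - D.q₂ t‖ ^ 3) • (D.q₂ t - D.q₃ t)⟫_ℝ = - D.U t := by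
  have r1 := D.r_pos t
  have r2 := D.r31_pos t
  have r3 := D.r32_pos t
  unfold r at r1
  have s1 : ⟪D.q₂ t - D.q₁ t, D.q₂ t - D.q₁ t⟫_ℝ = ‖D.q₂ t - D.q₁ t‖ ^ 2 :=
    real_inner_self_eq_norm_sq _
  have s2 : ⟪D.q₃ t - D.q₁ t, D.q₃ t - D.q₁ t⟫_ℝ = ‖D.q₃ t - D.q₁ t‖ ^ 2 :=
    real_inner_self_eq_norm_sq _
  have s3 : ⟪D.q₃ t - D.q₂ t, D.q₃ t - D.q₂ t⟫_ℝ = ‖D.q₃ t - D.q₂ t‖ ^ 2 :=
    real_inner_self_eq_norm_sq _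
  simp only [inner_add_right, inner_smul_right]
  have k1 : ⟪D.q₁ t, D.q₂ t - D.q₁ t⟫_ℝ + ⟪D.q₂ t, D.q₁ t - D.q₂ t⟫_ℝ = -‖D.q₂ t - D.q₁ t‖ ^ 2 := by
    rw [← s1]
    simp only [inner_sub_left, inner_sub_right]
    ring
  have k2 : ⟪D.q₁ t, D.q₃ t - D.q₁ t⟫_ℝ + ⟪D.q₃ t, D.q₁ t - D.q₃ t⟫_ℝ = -‖D.q₃ t - D.q₁ t‖ ^ 2 := by
    rw [← s2]
    simp only [inner_sub_left, inner_sub_right]
    ring
  have k3 : ⟪D.q₂ t, D.q₃ t - D.q₂ t⟫_ℝ + ⟪D.q₃ t, D.q₂ t - D.q₃ t⟫_ℝ = -‖D.q₃ t - D.q₂ t‖ ^ 2 := by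
    rw [← s3]
    simp only [inner_sub_left, inner_sub_right]
    ring
  have e : D.m₁ * (D.m₂ / ‖D.q₂ t - D.q₁ t‖ ^ 3 * ⟪D.q₁ t, D.q₂ t - D.q₁ t⟫_ℝ +
        D.m₃ / ‖D.q₃ t - D.q₁ t‖ ^ 3 * ⟪D.q₁ t, D.q₃ t - D.q₁ t⟫_ℝ) +
      D.m₂ * (D.m₁ / ‖D.q₂ t - D.q₁ t‖ ^ 3 * ⟪D.q₂ t, D.q₁ t - D.q₂ t⟫_ℝ +
        D.m₃ / ‖D.q₃ t - D.q₂ t‖ ^ 3 * ⟪D.q₂ t, D.q₃ t - D.q₂ t⟫_ℝ) +
      D.m₃ * (D.m₁ / ‖D.q₃ t - D.q₁ t‖ ^ 3 * ⟪D.q₃ t, D.q₁ t - D.q₃ t⟫_ℝ +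
        D.m₂ / ‖D.q₃ t - D.q₂ t‖ ^ 3 * ⟪D.q₃ t, D.q₂ t - D.q₃ t⟫_ℝ) =
      D.m₁ * D.m₂ / ‖D.q₂ t - D.q₁ t‖ ^ 3 *
        (⟪D.q₁ t, D.q₂ t - D.q₁ t⟫_ℝ + ⟪D.q₂ t, D.q₁ t - D.q₂ t⟫_ℝ) +
      D.m₁ * D.m₃ / ‖D.q₃ t - D.q₁ t‖ ^ 3 *
        (⟪D.q₁ t, D.q₃ t - D.q₁ t⟫_ℝ + ⟪D.q₃ t, D.q₁ t - D.q₃ t⟫_ℝ) +
      D.m₂ * D.m₃ / ‖D.q₃ t - D.q₂ t‖ ^ 3 *
        (⟪D.q₂ t, D.q₃ t - D.q₂ t⟫_ℝ + ⟪D.q₃ t, D.q₂ t - D.q₃ t⟫_ℝ) := by ring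
  rw [e, k1, k2, k3]
  unfold U
  field_simp
  ring

lemma hasDerivAt_G (t : ℝ) : HasDerivAt D.G (2 * D.E + D.U t) t := by
  have e1 := ((D.d1 t).inner ℝ (D.a1 t)).const_mul D.m₁
  have e2 := ((D.d2 t).inner ℝ (D.a2 t)).const_mul D.m₂
  have e3 := ((D.d3 t).inner ℝ (D.a3 t)).const_mul D.m₃
  refine ((e1.add e2).add e3).congr_deriv ?_
  have h := D.inner_acc t
  have hK := D.K_eq t
  unfold K at hK
  simp only [real_inner_self_eq_norm_sq]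
  linarith

lemma continuous_G : Continuous D.G := continuous_iff_continuousAt.2 fun t => (D.hasDerivAt_G t).continuousAt
lemma continuous_I : Continuous D.I := continuous_iff_continuousAt.2 fun t => (D.hasDerivAt_I t).continuousAt
lemma continuous_R : Continuous D.R := continuous_iff_continuousAt.2 fun t => (D.hasDerivAt_R t).continuousAt
lemma continuous_w : Continuous D.w := continuous_iff_continuousAt.2 fun t => (D.hasDerivAt_w t).continuousAt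

/-- comparison: `f' ≤ g'` on `[a, b]` implies `f b - f a ≤ g b - g a` -/
lemma _root_.Pool.Agent.H310.Three.sub_le_sub_of_deriv_le {f g f' g' : ℝ → ℝ} {a b : ℝ}
    (hab : a ≤ b)
    (hf : ∀ t ∈ Icc a b, HasDerivAt f (f' t) t) (hg : ∀ t ∈ Icc a b, HasDerivAt g (g' t) t)
    (h : ∀ t ∈ Icc a b, f' t ≤ g' t) : f b - f a ≤ g b - g a := by
  have hm : MonotoneOn (fun t => g t - f t) (Icc a b) := by
    apply monotoneOn_of_deriv_nonneg (convex_Icc a b)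
    · exact fun t ht => (((hg t ht).sub (hf t ht)).continuousAt).continuousWithinAt
    · intro t ht
      rw [interior_Icc] at ht
      exact ((hg t (Ioo_subset_Icc_self ht)).sub (hf t (Ioo_subset_Icc_self ht))).differentiableAt.differentiableWithinAt
    · intro t ht
      rw [interior_Icc] at ht
      have := ((hg t (Ioo_subset_Icc_self ht)).sub (hf t (Ioo_subset_Icc_self ht))).deriv
      rw [show (fun t => g t - f t) = g - f from rfl, this]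
      linarith [h t (Ioo_subset_Icc_self ht)]
  have := hm (left_mem_Icc.2 hab) (right_mem_Icc.2 hab) hab
  simp only at this
  linarith

/-- comparison for norms of vector functions -/
lemma _root_.Pool.Agent.H310.Three.norm_sub_le_of_deriv_le {V : Type*} [NormedAddCommGroup V]
    [NormedSpace ℝ V] {f f' : ℝ → V} {g g' : ℝ → ℝ} {a b : ℝ}
    (hab : a ≤ b)
    (hf : ∀ t ∈ Icc a b, HasDerivAt f (f' t) t) (hg : ∀ t ∈ Icc a b, HasDerivAt g (g' t) t)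
    (h : ∀ t ∈ Icc a b, ‖f' t‖ ≤ g' t) : ‖f b - f a‖ ≤ g b - g a := by
  have key := image_norm_le_of_norm_deriv_right_le_deriv_boundary' (f := fun t => f t - f a)
    (f' := f') (a := a) (b := b) (B := fun t => g t - g a) (B' := g')
    (fun t ht => ((hf t ht).continuousAt.sub continuousAt_const).continuousWithinAt)
    (fun t ht => ((hf t (Ico_subset_Icc_self ht)).sub_const (f a)).hasDerivWithinAt)
    (by simp)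
    (fun t ht => ((hg t ht).continuousAt.sub continuousAt_const).continuousWithinAt)
    (fun t ht => ((hg t (Ico_subset_Icc_self ht)).sub_const (g a)).hasDerivWithinAt)
    (fun t ht => h t (Ico_subset_Icc_self ht))
  exact key (right_mem_Icc.2 hab)

lemma G_mono {s t : ℝ} (h : s ≤ t) : D.G s ≤ D.G t := by
  have := sub_le_sub_of_deriv_le (f := fun _ => (0:ℝ)) (g := D.G) (f' := fun _ => 0) h
    (fun u _ => hasDerivAt_const u 0) (fun u _ => D.hasDerivAt_G u)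
    (fun u _ => by have := D.U_pos u; have := D.hE; linarith)
  simp at this
  exact this

lemma G_ge {s t : ℝ} (h : s ≤ t) : 2 * D.E * (t - s) + D.G s ≤ D.G t := by
  have := sub_le_sub_of_deriv_le (f := fun u => 2 * D.E * u) (g := D.G) (f' := fun _ => 2 * D.E) h
    (fun u _ => by simpa using (hasDerivAt_id u).const_mul (2 * D.E)) (fun u _ => D.hasDerivAt_G u)
    (fun u _ => by have := D.U_pos u; linarith)
  linarith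

lemma I_mono {s t : ℝ} (hs : 0 ≤ D.G s) (h : s ≤ t) : D.I s ≤ D.I t := by
  have := sub_le_sub_of_deriv_le (f := fun _ => (0:ℝ)) (g := D.I) (f' := fun _ => 0) h
    (fun u _ => hasDerivAt_const u 0) (fun u _ => D.hasDerivAt_I u)
    (fun u hu => by have := D.G_mono hu.1; linarith)
  simp at this
  exact this

lemma R_mono {s t : ℝ} (hs : 0 ≤ D.G s) (h : s ≤ t) : D.R s ≤ D.R t :=
  Real.sqrt_le_sqrt (D.I_mono hs h)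

lemma w_mono {s t : ℝ} (hs : 0 ≤ D.G s) (h : s ≤ t) : D.w s ≤ D.w t :=
  Real.sqrt_le_sqrt (D.R_mono hs h)

lemma I_ge {s t : ℝ} (hs : 0 ≤ D.G s) (h : s ≤ t) : D.I s + 2 * D.E * (t - s) ^ 2 ≤ D.I t := by
  have := sub_le_sub_of_deriv_le (f := fun u => 2 * D.E * (u - s) ^ 2) (g := D.I)
    (f' := fun u => 4 * D.E * (u - s)) (g' := fun u => 2 * D.G u) h
    (fun u _ => by
      have := (((hasDerivAt_id u).sub_const s).pow 2).const_mul (2 * D.E)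
      refine this.congr_deriv ?_
      simp
      ring) (fun u _ => D.hasDerivAt_I u)
    (fun u hu => by have := D.G_ge hu.1; linarith)
  simp at this
  linarith

end Data

end Pool.Agent.H310.Three
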