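import Pool.Agent.H310.Three.NC

open Filter Topology Set
open scoped InnerProductSpace

namespace Pool.Agent.H310.Three

lemma Data.tendsto_R (D : Data) {t : ℝ} (ht : 0 ≤ D.G t) : Tendsto D.R atTop atTop := by
  have hE := D.hE
  have hlin : Tendsto (fun s => √(2 * D.E) * (s - t)) atTop atTop := by
    apply Tendsto.const_mul_atTop (Real.sqrt_pos.2 (by positivity))
    exact tendsto_atTop_add_const_right _ _ tendsto_id
  apply tendsto_atTop_mono' _ _ hlin
  filter_upwards [eventually_ge_atTop t] with s hs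
  have h := D.I_ge ht hs
  have hI := (D.I_pos t).le
  apply le_of_sq_le_sq _ (D.R_pos s).le
  rw [mul_pow, Real.sq_sqrt (by positivity), D.R_sq]
  linarith

/-- derivative of `s / (A √(A + α s²))` -/
lemma hasDerivAt_Q {A α t₀ t : ℝ} (hA : 0 < A) (hα : 0 ≤ α) :
    HasDerivAt (fun s => (s - t₀) / (A * √(A + α * (s - t₀) ^ 2)))
      (1 / √(A + α * (t - t₀) ^ 2) ^ 3) t := by
  have hp : ∀ s : ℝ, 0 < A + α * (s - t₀) ^ 2 := fun s => by positivity
  have h0 : HasDerivAt (fun s : ℝ => A + α * (s - t₀) ^ 2) (2 * α * (t - t₀)) t := by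
    have := ((((hasDerivAt_id t).sub_const t₀).pow 2).const_mul α).const_add A
    refine this.congr_deriv ?_
    simp
    ring
  have h1 := h0.sqrt (hp t).ne'
  have h2 := h1.const_mul A
  have h3 : HasDerivAt (fun s : ℝ => s - t₀) 1 t := (hasDerivAt_id t).sub_const t₀
  have hg : 0 < √(A + α * (t - t₀) ^ 2) := Real.sqrt_pos.2 (hp t)
  have h4 := h3.div h2 (by positivity)
  refine h4.congr_deriv ?_
  have hsq : √(A + α * (t - t₀) ^ 2) ^ 2 = A + α * (t - t₀) ^ 2 := Real.sq_sqrt (hp t).le
  set g := √(A + α * (t - t₀) ^ 2)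
  field_simp
  rw [hsq]
  ring

theorem NC {m₁ m₂ m₃ : ℝ} (h1 : 0 < m₁) (h2 : 0 < m₂) (h3 : 0 < m₃) :
    ∃ C > 0, ∀ D : Data, HasMass D m₁ m₂ m₃ → ∀ t, 0 ≤ D.G t → -C / D.R t ≤ D.e t := by
  obtain ⟨ε, hε, c, hc, hgeom⟩ := geom h1 h2 h3
  set S := m₁ + m₂ with hSdef
  have hS : 0 < S := by positivity
  set Cp := 4 * m₃ / c ^ 3 with hCp
  have hCpp : 0 < Cp := by positivity
  set β := m₁ * m₂ / (2 * S) with hβ
  have hβp : 0 < β := by positivity
  set C₃ := 2 * S * Cp / √β with hC₃
  have hsβ : 0 < √β := Real.sqrt_pos.2 hβp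
  have hC₃p : 0 < C₃ := by positivity
  refine ⟨max (2 * S / ε) (√(2 * C₃)), lt_max_of_lt_left (by positivity), ?_⟩
  rintro D hm t hG
  obtain ⟨e1, e2, e3⟩ := id hm
  set C := max (2 * S / ε) (√(2 * C₃)) with hC
  have hSD : D.S = S := by unfold Data.S; rw [e1, e2]
  have hR := D.R_pos t
  by_contra hcon
  push Not at hcon
  set η := -D.e t with hη
  have hηR : C < η * D.R t := by
    rw [lt_div_iff₀ hR] at hcon
    linarith
  have hCpos : 0 < C := lt_max_of_lt_left (by positivity)
  have hηp : 0 < η := by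
    by_contra hneg
    push Not at hneg
    have : η * D.R t ≤ 0 := mul_nonpos_of_nonpos_of_nonneg hneg hR.le
    linarith
  have hsη : 0 < √η := Real.sqrt_pos.2 hηp
  have hsη2 : √η ^ 2 = η := Real.sq_sqrt hηp.le
  -- bound on r when e ≤ -η/2
  have hrb : ∀ s, D.e s ≤ -η / 2 → D.r s ≤ 2 * S / η := by
    intro s hs
    have hr := D.r_pos s
    unfold Data.e at hs
    rw [hSD] at hs
    have hv : 0 ≤ ‖D.v s‖ ^ 2 / 2 := by positivity
    have : η / 2 ≤ S / D.r s := by linarith
    rw [le_div_iff₀ hr] at this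
    rw [le_div_iff₀ hηp]
    linarith
  have h2Sε : 2 * S / η ≤ ε * D.R t := by
    have h5 : 2 * S / ε ≤ η * D.R t := (le_max_left _ _).trans hηR.le
    rw [div_le_iff₀ hε] at h5
    rw [div_le_iff₀ hηp]
    linarith
  -- claim
  have claim : ∀ b, t ≤ b → D.e b ≤ -η / 2 := by
    intro b hb
    by_contra hbc
    push Not at hbc
    have hcont : Continuous D.e := continuous_iff_continuousAt.2 fun s => (D.hasDerivAt_e s).continuousAt
    obtain ⟨τ, hτ, htτ, heτ, hle⟩ := first_hit (f := D.e) hb hcont.continuousOn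
      (by rw [hη]; linarith : D.e t < -η / 2) hbc.le
    set α := β * η with hα
    have hαp : 0 < α := by positivity
    -- growth of G
    have hGs : ∀ s ∈ Icc t τ, α * (s - t) ≤ D.G s := by
      intro s hs
      have := sub_le_sub_of_deriv_le (f := fun u => α * u) (g := D.G) (f' := fun _ => α) hs.1
        (fun u _ => by simpa using (hasDerivAt_id u).const_mul α) (fun u _ => D.hasDerivAt_G u)
        (fun u hu => by
          have hu' : u ∈ Icc t τ := ⟨hu.1, hu.2.trans hs.2⟩
          have hr := hrb u (hle u hu')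
          have hrp := D.r_pos u
          have hU := D.U_ge u
          rw [e1, e2] at hU
          have : α ≤ m₁ * m₂ / D.r u := by
            rw [le_div_iff₀ hrp]
            calc α * D.r u ≤ α * (2 * S / η) := by gcongr
              _ = m₁ * m₂ := by rw [hα, hβ]; field_simp
          have := D.hE
          linarith)
      linarith
    have hIs : ∀ s ∈ Icc t τ, D.R t ^ 2 + α * (s - t) ^ 2 ≤ D.I s := by
      intro s hs
      have := sub_le_sub_of_deriv_le (f := fun u => α * (u - t) ^ 2) (g := D.I)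
        (f' := fun u => 2 * α * (u - t)) (g' := fun u => 2 * D.G u) hs.1
        (fun u _ => by
          have := (((hasDerivAt_id u).sub_const t).pow 2).const_mul α
          refine this.congr_deriv ?_
          simp
          ring) (fun u _ => D.hasDerivAt_I u)
        (fun u hu => by have := hGs u ⟨hu.1, hu.2.trans hs.2⟩; linarith)
      simp at this
      rw [D.R_sq]
      linarith
    -- main comparison
    have hmain := sub_le_sub_of_deriv_le (f := D.e)
      (g := fun s => (2 * S * Cp / √η) * ((s - t) / (D.R t ^ 2 * √(D.R t ^ 2 + α * (s - t) ^ 2))))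
      (f' := fun s => ⟪D.v s, D.P s⟫_ℝ)
      (g' := fun s => (2 * S * Cp / √η) * (1 / √(D.R t ^ 2 + α * (s - t) ^ 2) ^ 3))
      htτ.le (fun s _ => D.hasDerivAt_e s)
      (fun s _ => (hasDerivAt_Q (by positivity) hαp.le).const_mul _)
      (fun s hs => by
        have hrs := hrb s (hle s hs)
        have hrp := D.r_pos s
        have hRs := D.R_pos s
        have hRm : D.R t ≤ D.R s := D.R_mono hG hs.1
        have hclose : D.r s ≤ ε * D.R s := hrs.trans (h2Sε.trans (by gcongr))
        obtain ⟨g1, g2, g3⟩ := hgeom D hm s hclose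
        have hP := tidal hc g1 g2
        rw [e3] at hP
        have hv2 : ‖D.v s‖ ^ 2 ≤ 2 * S / D.r s := by
          have he := hle s hs
          unfold Data.e at he
          rw [hSD] at he
          have : 2 * S / D.r s = 2 * (S / D.r s) := by ring
          rw [this]
          linarith
        have hvr : ‖D.v s‖ * D.r s ≤ 2 * S / √η := by
          apply le_of_sq_le_sq _ (by positivity)
          rw [mul_pow, div_pow, hsη2]
          calc ‖D.v s‖ ^ 2 * D.r s ^ 2 ≤ 2 * S / D.r s * D.r s ^ 2 := by gcongr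
            _ = 2 * S * D.r s := by field_simp
            _ ≤ 2 * S * (2 * S / η) := by gcongr
            _ = (2 * S) ^ 2 / η := by ring
        have hg : √(D.R t ^ 2 + α * (s - t) ^ 2) ≤ D.R s := by
          rw [Data.R]
          exact Real.sqrt_le_sqrt (hIs s hs)
        have hgp : 0 < √(D.R t ^ 2 + α * (s - t) ^ 2) := Real.sqrt_pos.2 (by positivity)
        calc ⟪D.v s, D.P s⟫_ℝ ≤ ‖D.v s‖ * ‖D.P s‖ := real_inner_le_norm _ _
          _ ≤ ‖D.v s‖ * (Cp * (D.r s / D.R s ^ 3)) := by gcongr
          _ = Cp * (‖D.v s‖ * D.r s) * (1 / D.R s ^ 3) := by ring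
          _ ≤ Cp * (2 * S / √η) * (1 / √(D.R t ^ 2 + α * (s - t) ^ 2) ^ 3) := by gcongr
          _ = (2 * S * Cp / √η) * (1 / √(D.R t ^ 2 + α * (s - t) ^ 2) ^ 3) := by ring)
    simp only [sub_self, zero_div, mul_zero, sub_zero] at hmain
    have het : D.e t = -η := by rw [hη]; ring
    rw [heτ, het] at hmain
    have hsα : √α = √β * √η := Real.sqrt_mul hβp.le η
    have hbound : (τ - t) / (D.R t ^ 2 * √(D.R t ^ 2 + α * (τ - t) ^ 2)) ≤ 1 / (D.R t ^ 2 * √α) := by
      have hsαp : 0 < √α := Real.sqrt_pos.2 hαp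
      have hgp : 0 < √(D.R t ^ 2 + α * (τ - t) ^ 2) := Real.sqrt_pos.2 (by positivity)
      have hge : √α * (τ - t) ≤ √(D.R t ^ 2 + α * (τ - t) ^ 2) := by
        apply Real.le_sqrt_of_sq_le
        rw [mul_pow, Real.sq_sqrt hαp.le]
        have : 0 < D.R t ^ 2 := by positivity
        linarith
      rw [div_le_div_iff₀ (by positivity) (by positivity)]
      have : 0 < D.R t ^ 2 := by positivity
      nlinarith
    have hfin : η / 2 ≤ C₃ / (η * D.R t ^ 2) := by
      have h6 : (2 * S * Cp / √η) * ((τ - t) / (D.R t ^ 2 * √(D.R t ^ 2 + α * (τ - t) ^ 2))) ≤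
          (2 * S * Cp / √η) * (1 / (D.R t ^ 2 * √α)) := by gcongr
      have h7 : (2 * S * Cp / √η) * (1 / (D.R t ^ 2 * √α)) = C₃ / (η * D.R t ^ 2) := by
        rw [hsα, hC₃]
        nth_rewrite 3 [← hsη2]
        field_simp
      linarith
    have h8 : (η * D.R t) ^ 2 ≤ 2 * C₃ := by
      rw [le_div_iff₀ (by positivity)] at hfin
      nlinarith
    have h9 : √(2 * C₃) < η * D.R t := (le_max_right _ _).trans_lt hηR
    have h10 : 2 * C₃ < (η * D.R t) ^ 2 := by
      have := Real.sq_sqrt (by positivity : 0 ≤ 2 * C₃)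
      have h11 : 0 ≤ √(2 * C₃) := Real.sqrt_nonneg _
      nlinarith
    linarith
  -- contradiction with non collapse
  apply D.nc
  have hRt := D.tendsto_R hG
  have hup : Tendsto (fun s => (2 * S / η) / D.R s) atTop (𝓝 0) := hRt.const_div_atTop _
  refine tendsto_of_tendsto_of_tendsto_of_le_of_le' tendsto_const_nhds hup ?_ ?_
  · exact Eventually.of_forall fun s => by positivity
  · filter_upwards [eventually_ge_atTop t] with s hs
    have := hrb s (claim s hs)
    have hRs := D.R_pos s
    show D.r s / D.R s ≤ _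
    gcongr

end Pool.Agent.H310.Three
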