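import Pool.Agent.H310.Three.Capture

/-!
Integrable clocks for the expanding phase.
-/

open Filter Topology Set
open scoped InnerProductSpace

namespace Pool.Agent.H310.Three

/-- lower bound for the size -/
noncomputable def cg (A α a t : ℝ) : ℝ := √(A ^ 2 + α * (t - a) ^ 2)

/-- auxiliary -/
noncomputable def cu (A α a t : ℝ) : ℝ := (cg A α a t + √α * (t - a)) / A

/-- auxiliary -/
noncomputable def cv (A α a t : ℝ) : ℝ := √(cu A α a t)

/-- the clock -/
noncomputable def cX (A α a t : ℝ) : ℝ := -(1 / cv A α a t)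

section
variable {A α a t : ℝ}

lemma cg_pos (hA : 0 < A) (hα : 0 < α) : 0 < cg A α a t := Real.sqrt_pos.2 (by positivity)

lemma cg_sq (hα : 0 < α) : cg A α a t ^ 2 = A ^ 2 + α * (t - a) ^ 2 :=
  Real.sq_sqrt (by positivity)

lemma cu_pos (hA : 0 < A) (hα : 0 < α) : 0 < cu A α a t := by
  unfold cu
  apply div_pos _ hA
  have h := cg_pos (a := a) (t := t) hA hα
  have h2 := cg_sq (A := A) (a := a) (t := t) hα
  have hs := Real.sq_sqrt hα.le
  have : (√α * (t - a)) ^ 2 < cg A α a t ^ 2 := by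
    rw [h2, mul_pow, hs]
    nlinarith [sq_pos_of_pos hA]
  have := abs_lt_of_sq_lt_sq this h.le
  have := (abs_lt.1 this).1
  linarith

lemma cv_pos (hA : 0 < A) (hα : 0 < α) : 0 < cv A α a t := Real.sqrt_pos.2 (cu_pos hA hα)

lemma cv_sq (hA : 0 < A) (hα : 0 < α) : cv A α a t ^ 2 = cu A α a t := Real.sq_sqrt (cu_pos hA hα).le

lemma A_cv_sq (hA : 0 < A) (hα : 0 < α) : A * cv A α a t ^ 2 ≤ 2 * cg A α a t := by
  rw [cv_sq hA hα]
  unfold cu
  rw [mul_div_cancel₀ _ hA.ne']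
  have h := cg_pos (a := a) (t := t) hA hα
  have h2 := cg_sq (A := A) (a := a) (t := t) hα
  have hs := Real.sq_sqrt hα.le
  have : (√α * (t - a)) ^ 2 ≤ cg A α a t ^ 2 := by
    rw [h2, mul_pow, hs]
    nlinarith [sq_pos_of_pos hA]
  have := le_of_sq_le_sq this h.le
  linarith

lemma one_le_cv (hA : 0 < A) (hα : 0 < α) (ht : a ≤ t) : 1 ≤ cv A α a t := by
  unfold cv
  rw [Real.one_le_sqrt]
  unfold cu
  rw [le_div_iff₀ hA, one_mul]
  have h := cg_pos (a := a) (t := t) hA hα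
  have h2 := cg_sq (A := A) (a := a) (t := t) hα
  have h3 : A ≤ cg A α a t := by
    apply le_of_sq_le_sq _ h.le
    rw [h2]
    nlinarith [mul_nonneg hα.le (sq_nonneg (t - a))]
  have : 0 ≤ √α * (t - a) := mul_nonneg (Real.sqrt_nonneg _) (by linarith)
  linarith

lemma hasDerivAt_cg (hA : 0 < A) (hα : 0 < α) :
    HasDerivAt (cg A α a) (α * (t - a) / cg A α a t) t := by
  have h0 : HasDerivAt (fun s : ℝ => A ^ 2 + α * (s - a) ^ 2) (2 * α * (t - a)) t := by
    have := ((((hasDerivAt_id t).sub_const a).pow 2).const_mul α).const_add (A ^ 2)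
    refine this.congr_deriv ?_
    simp
    ring
  have h1 := h0.sqrt (by positivity)
  refine h1.congr_deriv ?_
  have : √(A ^ 2 + α * (t - a) ^ 2) = cg A α a t := rfl
  rw [this]
  have := cg_pos (a := a) (t := t) hA hα
  field_simp

lemma hasDerivAt_cu (hA : 0 < A) (hα : 0 < α) :
    HasDerivAt (cu A α a) (√α * cu A α a t / cg A α a t) t := by
  have h0 := hasDerivAt_cg (a := a) (t := t) hA hα
  have h1 : HasDerivAt (fun s : ℝ => √α * (s - a)) (√α) t := by
    simpa using ((hasDerivAt_id t).sub_const a).const_mul (√α)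
  have h2 := (h0.add h1).div_const A
  refine h2.congr_deriv ?_
  have := cg_pos (a := a) (t := t) hA hα
  have hs := Real.sq_sqrt hα.le
  unfold cu
  field_simp
  linear_combination (-(t - a)) * hs

lemma hasDerivAt_cv (hA : 0 < A) (hα : 0 < α) :
    HasDerivAt (cv A α a) (√α * cv A α a t / (2 * cg A α a t)) t := by
  have h0 := (hasDerivAt_cu (a := a) (t := t) hA hα).sqrt (cu_pos hA hα).ne'
  refine h0.congr_deriv ?_
  have h1 : √(cu A α a t) = cv A α a t := rfl
  have h2 := cv_sq (a := a) (t := t) hA hα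
  have h3 := cg_pos (a := a) (t := t) hA hα
  have h4 := cv_pos (a := a) (t := t) hA hα
  rw [h1, ← h2]
  field_simp

lemma hasDerivAt_cX (hA : 0 < A) (hα : 0 < α) :
    HasDerivAt (cX A α a) (√α / (2 * cg A α a t * cv A α a t)) t := by
  have h3 := cg_pos (a := a) (t := t) hA hα
  have h4 := cv_pos (a := a) (t := t) hA hα
  have h0 := ((hasDerivAt_cv (a := a) (t := t) hA hα).inv h4.ne').neg
  have e : cX A α a = -(cv A α a)⁻¹ := by
    funext s
    simp [cX]
  rw [e]
  refine h0.congr_deriv ?_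
  field_simp

lemma cX_nonpos (hA : 0 < A) (hα : 0 < α) : cX A α a t ≤ 0 := by
  unfold cX
  have h4 := cv_pos (a := a) (t := t) hA hα
  have : 0 < 1 / cv A α a t := by positivity
  linarith

lemma cX_ge (hA : 0 < A) (hα : 0 < α) (ht : a ≤ t) : -1 ≤ cX A α a t := by
  unfold cX
  have h4 := one_le_cv (a := a) (t := t) hA hα ht
  have : 1 / cv A α a t ≤ 1 := by
    rw [div_le_one (by linarith)]
    exact h4
  linarith

end

namespace Data

variable (D : Data)

/-- speed of the clock anchored at `a` -/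
noncomputable def X' (a t : ℝ) : ℝ :=
  √(2 * D.E) / (2 * cg (D.R a) (2 * D.E) a t * cv (D.R a) (2 * D.E) a t)

/-- the clock anchored at `a` -/
noncomputable def X (a t : ℝ) : ℝ := cX (D.R a) (2 * D.E) a t

/-- auxiliary growing function -/
noncomputable def V (a t : ℝ) : ℝ := cv (D.R a) (2 * D.E) a t

/-- its derivative -/
noncomputable def V' (a t : ℝ) : ℝ :=
  √(2 * D.E) * cv (D.R a) (2 * D.E) a t / (2 * cg (D.R a) (2 * D.E) a t)

lemma hasDerivAt_X (a t : ℝ) : HasDerivAt (D.X a) (D.X' a t) t :=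
  hasDerivAt_cX (D.R_pos a) (by have := D.hE; positivity)

lemma hasDerivAt_V (a t : ℝ) : HasDerivAt (D.V a) (D.V' a t) t :=
  hasDerivAt_cv (D.R_pos a) (by have := D.hE; positivity)

lemma X'_pos (a t : ℝ) : 0 < D.X' a t := by
  have hE := D.hE
  have h1 := cg_pos (a := a) (t := t) (D.R_pos a) (by positivity : 0 < 2 * D.E)
  have h2 := cv_pos (a := a) (t := t) (D.R_pos a) (by positivity : 0 < 2 * D.E)
  unfold X'
  positivity

lemma X_nonpos (a t : ℝ) : D.X a t ≤ 0 :=
  cX_nonpos (D.R_pos a) (by have := D.hE; positivity)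

lemma X_ge {a t : ℝ} (h : a ≤ t) : -1 ≤ D.X a t :=
  cX_ge (D.R_pos a) (by have := D.hE; positivity) h

lemma one_le_V {a t : ℝ} (h : a ≤ t) : 1 ≤ D.V a t :=
  one_le_cv (D.R_pos a) (by have := D.hE; positivity) h

lemma cg_le_R {a t : ℝ} (ha : 0 ≤ D.G a) (h : a ≤ t) : cg (D.R a) (2 * D.E) a t ≤ D.R t := by
  have := D.I_ge ha h
  unfold cg
  rw [D.R_sq, R]
  exact Real.sqrt_le_sqrt this

lemma inv_R_le {a t : ℝ} (ha : 0 ≤ D.G a) (h : a ≤ t) : 1 / D.R t ≤ 2 / √(2 * D.E) * D.V' a t := by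
  have hE := D.hE
  have h1 := cg_pos (a := a) (t := t) (D.R_pos a) (by positivity : 0 < 2 * D.E)
  have h2 := one_le_cv (a := a) (t := t) (D.R_pos a) (by positivity : 0 < 2 * D.E) h
  have h3 := D.cg_le_R ha h
  have hs : 0 < √(2 * D.E) := Real.sqrt_pos.2 (by positivity)
  unfold V'
  calc 1 / D.R t ≤ 1 / cg (D.R a) (2 * D.E) a t := by gcongr
    _ ≤ cv (D.R a) (2 * D.E) a t / cg (D.R a) (2 * D.E) a t := by gcongr
    _ = _ := by field_simp

lemma V_div_R2_le {a t : ℝ} (ha : 0 ≤ D.G a) (h : a ≤ t) :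
    D.V a t / D.R t ^ 2 ≤ 4 / (√(2 * D.E) * D.R a) * D.X' a t := by
  have hE := D.hE
  have hA := D.R_pos a
  have h1 := cg_pos (a := a) (t := t) hA (by positivity : 0 < 2 * D.E)
  have h2 := one_le_cv (a := a) (t := t) hA (by positivity : 0 < 2 * D.E) h
  have h3 := D.cg_le_R ha h
  have h4 := A_cv_sq (a := a) (t := t) hA (by positivity : 0 < 2 * D.E)
  have hs : 0 < √(2 * D.E) := Real.sqrt_pos.2 (by positivity)
  unfold V X'
  set v := cv (D.R a) (2 * D.E) a t
  set g := cg (D.R a) (2 * D.E) a t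
  have hv : 0 < v := by linarith
  calc v / D.R t ^ 2 ≤ v / g ^ 2 := by gcongr
    _ ≤ 2 / (D.R a * g * v) := by
      rw [div_le_div_iff₀ (by positivity) (by positivity)]
      calc v * (D.R a * g * v) = (D.R a * v ^ 2) * g := by ring
        _ ≤ 2 * g * g := by gcongr
        _ = 2 * g ^ 2 := by ring
    _ = _ := by field_simp; norm_num

lemma inv_w3_le {a t : ℝ} (ha : 0 ≤ D.G a) (h : a ≤ t) :
    1 / D.w t ^ 3 ≤ 2 * √2 / √(2 * D.E * D.R a) * D.X' a t := by
  have hE := D.hE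
  have hA := D.R_pos a
  have h1 := cg_pos (a := a) (t := t) hA (by positivity : 0 < 2 * D.E)
  have h2 := one_le_cv (a := a) (t := t) hA (by positivity : 0 < 2 * D.E) h
  have h3 := D.cg_le_R ha h
  have h4 := A_cv_sq (a := a) (t := t) hA (by positivity : 0 < 2 * D.E)
  have hs : 0 < √(2 * D.E) := Real.sqrt_pos.2 (by positivity)
  have hsA : 0 < √(D.R a) := Real.sqrt_pos.2 hA
  unfold X'
  rw [Real.sqrt_mul (by positivity : 0 ≤ 2 * D.E)]
  set v := cv (D.R a) (2 * D.E) a t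
  set g := cg (D.R a) (2 * D.E) a t
  have hv : 0 < v := by linarith
  have hy : 0 < √g := Real.sqrt_pos.2 h1
  have hy2 : √g ^ 2 = g := Real.sq_sqrt h1.le
  have hyw : √g ≤ D.w t := Real.sqrt_le_sqrt h3
  have h5 : √(D.R a) * v ≤ √2 * √g := by
    apply le_of_sq_le_sq _ (by positivity)
    rw [mul_pow, mul_pow, hy2, Real.sq_sqrt hA.le, Real.sq_sqrt (by norm_num)]
    exact h4
  calc 1 / D.w t ^ 3 ≤ 1 / √g ^ 3 := by gcongr
    _ ≤ √2 / (√(D.R a) * √g ^ 2 * v) := by
      rw [div_le_div_iff₀ (by positivity) (by positivity)]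
      calc 1 * (√(D.R a) * √g ^ 2 * v) = √(D.R a) * v * √g ^ 2 := by ring
        _ ≤ √2 * √g * √g ^ 2 := by gcongr
        _ = √2 * √g ^ 3 := by ring
    _ = _ := by rw [hy2]; field_simp

end Data

end Pool.Agent.H310.Three
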