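import Pool.Agent.H310.Three.NC

/-!
Turning of the direction of a close pair.
-/

open Filter Topology Set
open scoped InnerProductSpace

namespace Pool.Agent.H310.Three

namespace Data

variable (D : Data)

/-- direction of the first pair -/
noncomputable def ex (t : ℝ) : ℂ := (1 / D.r t) • D.x t

/-- its derivative -/
noncomputable def ex' (t : ℝ) : ℂ :=
  (1 / D.r t) • D.v t - (⟪D.x t, D.v t⟫_ℝ / D.r t ^ 3) • D.x t

/-- cosine of the angle between position and velocity -/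
noncomputable def b (t : ℝ) : ℝ := ⟪D.x t, D.v t⟫_ℝ / (D.r t * ‖D.v t‖)

/-- its derivative -/
noncomputable def b' (t : ℝ) : ℝ :=
  (1 - D.b t ^ 2) * (‖D.v t‖ / D.r t - D.S / (D.r t ^ 2 * ‖D.v t‖)) +
    (1 / ‖D.v t‖) * ⟪(1 / D.r t) • D.x t - (D.b t / ‖D.v t‖) • D.v t, D.P t⟫_ℝ

lemma hasDerivAt_ex (t : ℝ) : HasDerivAt D.ex (D.ex' t) t := by
  have hr := D.r_pos t
  have h1 : HasDerivAt (fun s => 1 / D.r s) (-(⟪D.x t, D.v t⟫_ℝ / D.r t) / D.r t ^ 2) t := by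
    have e : (fun s => 1 / D.r s) = D.r⁻¹ := by
      funext s
      simp [one_div]
    rw [e]
    exact (D.hasDerivAt_r t).inv hr.ne'
  have h2 := h1.smul (D.hasDerivAt_x t)
  refine h2.congr_deriv ?_
  unfold ex'
  have e : -(⟪D.x t, D.v t⟫_ℝ / D.r t) / D.r t ^ 2 = -(⟪D.x t, D.v t⟫_ℝ / D.r t ^ 3) := by
    field_simp
  rw [e]
  module

lemma b_sq_le (t : ℝ) : D.b t ^ 2 ≤ 1 := by
  unfold b
  have hr := D.r_pos t
  have h := abs_real_inner_le_norm (D.x t) (D.v t)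
  rw [D.norm_x] at h
  rcases eq_or_lt_of_le (norm_nonneg (D.v t)) with hv | hv
  · rw [← hv]
    simp
  · rw [sq_le_one_iff_abs_le_one, abs_div, abs_of_pos (by positivity : 0 < D.r t * ‖D.v t‖),
      div_le_one (by positivity)]
    exact h

lemma norm_ex' {t : ℝ} (hv : 0 < ‖D.v t‖) :
    ‖D.ex' t‖ = √(1 - D.b t ^ 2) * (‖D.v t‖ / D.r t) := by
  have hr := D.r_pos t
  have hb := D.b_sq_le t
  have hsq : ‖D.ex' t‖ ^ 2 = (√(1 - D.b t ^ 2) * (‖D.v t‖ / D.r t)) ^ 2 := by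
    rw [mul_pow, Real.sq_sqrt (by linarith)]
    unfold ex'
    rw [norm_sub_sq_real, norm_smul, norm_smul, inner_smul_left, inner_smul_right,
      real_inner_comm (D.x t) (D.v t), D.norm_x]
    simp only [conj_trivial, Real.norm_eq_abs, mul_pow, sq_abs]
    unfold b
    field_simp
    ring
  exact (sq_eq_sq₀ (norm_nonneg _) (by positivity)).1 hsq

lemma hasDerivAt_nv {t : ℝ} (hv : 0 < ‖D.v t‖) :
    HasDerivAt (fun s => ‖D.v s‖) (⟪D.v t, D.acc t⟫_ℝ / ‖D.v t‖) t :=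
  hasDerivAt_norm (D.hasDerivAt_v t) (norm_pos_iff.1 hv)

lemma hasDerivAt_b {t : ℝ} (hv : 0 < ‖D.v t‖) : HasDerivAt D.b (D.b' t) t := by
  have hr := D.r_pos t
  have h1 := (D.hasDerivAt_x t).inner ℝ (D.hasDerivAt_v t)
  have h2 := (D.hasDerivAt_r t).mul (D.hasDerivAt_nv hv)
  have h3 := h1.div h2 (by simp only [Pi.mul_apply]; positivity)
  refine h3.congr_deriv ?_
  unfold b' acc b
  simp only [Pi.mul_apply, inner_add_right, inner_smul_right, inner_sub_left, inner_smul_left,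
    conj_trivial, real_inner_self_eq_norm_sq, D.norm_x]
  rw [real_inner_comm (D.x t) (D.v t)]
  field_simp
  ring

lemma b'_ge {t : ℝ} (hv : 5 / 3 * (D.S / D.r t) ≤ ‖D.v t‖ ^ 2) :
    2 / 5 * (1 - D.b t ^ 2) * (‖D.v t‖ / D.r t) - √(1 - D.b t ^ 2) * (‖D.P t‖ / ‖D.v t‖) ≤ D.b' t := by
  have hr := D.r_pos t
  have hS := D.S_pos
  have hb := D.b_sq_le t
  have hvp : 0 < ‖D.v t‖ := by
    by_contra h
    have : ‖D.v t‖ = 0 := le_antisymm (not_lt.1 h) (norm_nonneg _)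
    rw [this] at hv
    have : 0 < 5 / 3 * (D.S / D.r t) := by positivity
    linarith
  have hy : ‖(1 / D.r t) • D.x t - (D.b t / ‖D.v t‖) • D.v t‖ = √(1 - D.b t ^ 2) := by
    have hsq : ‖(1 / D.r t) • D.x t - (D.b t / ‖D.v t‖) • D.v t‖ ^ 2 = √(1 - D.b t ^ 2) ^ 2 := by
      rw [Real.sq_sqrt (by linarith), norm_sub_sq_real, norm_smul, norm_smul, inner_smul_left,
        inner_smul_right, D.norm_x]
      simp only [conj_trivial, Real.norm_eq_abs, mul_pow, sq_abs]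
      unfold b
      field_simp
      ring
    exact (sq_eq_sq₀ (norm_nonneg _) (Real.sqrt_nonneg _)).1 hsq
  have h1 : 2 / 5 * (1 - D.b t ^ 2) * (‖D.v t‖ / D.r t) ≤
      (1 - D.b t ^ 2) * (‖D.v t‖ / D.r t - D.S / (D.r t ^ 2 * ‖D.v t‖)) := by
    have h2 : D.S / (D.r t ^ 2 * ‖D.v t‖) ≤ 3 / 5 * (‖D.v t‖ / D.r t) := by
      rw [div_le_iff₀ (by positivity)]
      have e : 3 / 5 * (‖D.v t‖ / D.r t) * (D.r t ^ 2 * ‖D.v t‖) = 3 / 5 * (‖D.v t‖ ^ 2 * D.r t) := by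
        field_simp
      rw [e]
      have e2 : D.S = (D.S / D.r t) * D.r t := by field_simp
      calc D.S = 3 / 5 * ((5 / 3 * (D.S / D.r t)) * D.r t) := by field_simp
        _ ≤ _ := by gcongr
    have h3 : 0 ≤ 1 - D.b t ^ 2 := by linarith
    have := mul_le_mul_of_nonneg_left h2 h3
    linarith
  have h4 : -(√(1 - D.b t ^ 2) * (‖D.P t‖ / ‖D.v t‖)) ≤
      (1 / ‖D.v t‖) * ⟪(1 / D.r t) • D.x t - (D.b t / ‖D.v t‖) • D.v t, D.P t⟫_ℝ := by
    have i1 := abs_real_inner_le_norm ((1 / D.r t) • D.x t - (D.b t / ‖D.v t‖) • D.v t) (D.P t)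
    rw [hy] at i1
    have i2 := neg_abs_le ⟪(1 / D.r t) • D.x t - (D.b t / ‖D.v t‖) • D.v t, D.P t⟫_ℝ
    have i3 : -(√(1 - D.b t ^ 2) * ‖D.P t‖) ≤
        ⟪(1 / D.r t) • D.x t - (D.b t / ‖D.v t‖) • D.v t, D.P t⟫_ℝ := by linarith
    have i4 := mul_le_mul_of_nonneg_left i3 (by positivity : 0 ≤ 1 / ‖D.v t‖)
    calc _ = 1 / ‖D.v t‖ * -(√(1 - D.b t ^ 2) * ‖D.P t‖) := by ring
      _ ≤ _ := i4
  unfold b'
  linarith

/-- regularised angle -/
noncomputable def th (κ t : ℝ) : ℝ := Real.arcsin (D.b t / √(1 + κ ^ 2))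

/-- its derivative -/
noncomputable def th' (κ t : ℝ) : ℝ := D.b' t / √(κ ^ 2 + (1 - D.b t ^ 2))

lemma hasDerivAt_th {κ t : ℝ} (hκ : 0 < κ) (hv : 0 < ‖D.v t‖) :
    HasDerivAt (D.th κ) (D.th' κ t) t := by
  have hb := D.b_sq_le t
  have hk : 0 < √(1 + κ ^ 2) := Real.sqrt_pos.2 (by positivity)
  have hk2 : √(1 + κ ^ 2) ^ 2 = 1 + κ ^ 2 := Real.sq_sqrt (by positivity)
  have hlt : (D.b t / √(1 + κ ^ 2)) ^ 2 < 1 := by
    rw [div_pow, hk2, div_lt_one (by positivity)]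
    nlinarith [sq_pos_of_pos hκ]
  have hne1 : D.b t / √(1 + κ ^ 2) ≠ -1 := by
    intro h
    rw [h] at hlt
    norm_num at hlt
  have hne2 : D.b t / √(1 + κ ^ 2) ≠ 1 := by
    intro h
    rw [h] at hlt
    norm_num at hlt
  have h1 := (Real.hasDerivAt_arcsin hne1 hne2).comp t ((D.hasDerivAt_b hv).div_const _)
  refine h1.congr_deriv ?_
  unfold th'
  have e : √(κ ^ 2 + (1 - D.b t ^ 2)) = √(1 - (D.b t / √(1 + κ ^ 2)) ^ 2) * √(1 + κ ^ 2) := by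
    rw [← Real.sqrt_mul (by linarith)]
    congr 1
    rw [div_pow, hk2]
    field_simp
    ring
  have h2 : 0 < √(1 - (D.b t / √(1 + κ ^ 2)) ^ 2) := Real.sqrt_pos.2 (by linarith)
  rw [e]
  field_simp

lemma abs_th_le (κ t : ℝ) : |D.th κ t| ≤ Real.pi / 2 := by
  rw [abs_le]
  exact ⟨Real.neg_pi_div_two_le_arcsin _, Real.arcsin_le_pi_div_two _⟩

lemma turn {κ t : ℝ} (hκ : 0 < κ) (hv : 5 / 3 * (D.S / D.r t) ≤ ‖D.v t‖ ^ 2) :
    ‖D.ex' t‖ ≤ 5 / 2 * D.th' κ t + 5 / 2 * (‖D.P t‖ / ‖D.v t‖) + κ * (‖D.v t‖ / D.r t) := by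
  have hr := D.r_pos t
  have hS := D.S_pos
  have hb := D.b_sq_le t
  have hvp : 0 < ‖D.v t‖ := by
    by_contra h
    have : ‖D.v t‖ = 0 := le_antisymm (not_lt.1 h) (norm_nonneg _)
    rw [this] at hv
    have : 0 < 5 / 3 * (D.S / D.r t) := by positivity
    linarith
  rw [D.norm_ex' hvp]
  have hge := D.b'_ge hv
  set σ := √(1 - D.b t ^ 2) with hσ
  have hσ0 : 0 ≤ σ := Real.sqrt_nonneg _
  have hσ2 : σ ^ 2 = 1 - D.b t ^ 2 := Real.sq_sqrt (by linarith)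
  set q := √(κ ^ 2 + (1 - D.b t ^ 2)) with hq
  have hqp : 0 < q := Real.sqrt_pos.2 (by nlinarith [sq_pos_of_pos hκ])
  have hq2 : q ^ 2 = κ ^ 2 + σ ^ 2 := by rw [hσ2]; exact Real.sq_sqrt (by nlinarith [sq_pos_of_pos hκ])
  have hσq : σ ≤ q := by
    apply le_of_sq_le_sq _ hqp.le
    rw [hq2]; nlinarith [sq_pos_of_pos hκ]
  have hqs : q ≤ σ + κ := by
    apply le_of_sq_le_sq _ (by positivity)
    rw [hq2]; nlinarith [mul_nonneg hσ0 hκ.le]
  have hth : D.th' κ t = D.b' t / q := rfl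
  set A := ‖D.v t‖ / D.r t with hA
  set Pn := ‖D.P t‖ / ‖D.v t‖ with hPn
  have hA0 : 0 < A := by positivity
  have hP0 : 0 ≤ Pn := by positivity
  rw [← hσ2] at hge
  have h1 : (2 / 5 * (σ - κ) * A - Pn) * q ≤ D.b' t := by
    have h2 : (σ - κ) * q ≤ σ ^ 2 := by
      rcases le_total σ κ with h | h
      · have : (σ - κ) * q ≤ 0 := mul_nonpos_of_nonpos_of_nonneg (by linarith) hqp.le
        nlinarith
      · calc (σ - κ) * q ≤ (σ - κ) * (σ + κ) := by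
              apply mul_le_mul_of_nonneg_left hqs; linarith
          _ ≤ σ ^ 2 := by nlinarith [sq_nonneg κ]
    have h3 := mul_le_mul_of_nonneg_right h2 hA0.le
    have h4 := mul_le_mul_of_nonneg_right hσq hP0
    nlinarith
  have h5 : 2 / 5 * (σ - κ) * A - Pn ≤ D.th' κ t := by
    rw [hth, le_div_iff₀ hqp]
    exact h1
  nlinarith

end Data

end Pool.Agent.H310.Three
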