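import Pool.Agent.H310.Three.Est
import Pool.Agent.H310.Three.Turn
import Pool.Agent.H310.Three.Clock

/-!
Bounded number of collinearities with alternating sides while a pair is close.
-/

open Filter Topology Set
open scoped InnerProductSpace

namespace Pool.Agent.H310.Three

/-- cross product in the plane -/
noncomputable def cr (z w : ℂ) : ℝ := z.re * w.im - z.im * w.re

lemma cinner (z w : ℂ) : ⟪z, w⟫_ℝ = z.re * w.re + z.im * w.im := by
  rw [Complex.inner]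
  simp
  ring

lemma cnorm_sq (z : ℂ) : ‖z‖ ^ 2 = z.re ^ 2 + z.im ^ 2 := by
  rw [Complex.sq_norm, Complex.normSq_apply]
  ring

lemma lagrange (z w : ℂ) : cr z w ^ 2 + ⟪z, w⟫_ℝ ^ 2 = ‖z‖ ^ 2 * ‖w‖ ^ 2 := by
  rw [cinner, cnorm_sq, cnorm_sq, cr]
  ring

lemma abs_cr_le (z w : ℂ) : |cr z w| ≤ ‖z‖ * ‖w‖ := by
  apply abs_le_of_sq_le_sq _ (by positivity)
  rw [mul_pow]
  have := lagrange z w
  nlinarith [sq_nonneg ⟪z, w⟫_ℝ]

lemma cr_add_left (x y z : ℂ) : cr (x + y) z = cr x z + cr y z := by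
  simp [cr]; ring

lemma cr_add_right (x y z : ℂ) : cr x (y + z) = cr x y + cr x z := by
  simp [cr]; ring

lemma cr_sub_left (x y z : ℂ) : cr (x - y) z = cr x z - cr y z := by
  simp [cr]; ring

lemma cr_sub_right (x y z : ℂ) : cr x (y - z) = cr x y - cr x z := by
  simp [cr]; ring

lemma cr_smul_left (c : ℝ) (x y : ℂ) : cr (c • x) y = c * cr x y := by
  simp [cr]; ring

lemma cr_smul_right (c : ℝ) (x y : ℂ) : cr x (c • y) = c * cr x y := by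
  simp [cr]; ring

lemma cr_self (x : ℂ) : cr x x = 0 := by
  simp [cr]; ring

lemma cr_swap (x y : ℂ) : cr x y = -cr y x := by
  simp [cr]; ring

lemma hasDerivAt_cr {f g : ℝ → ℂ} {f' g' : ℂ} {t : ℝ} (hf : HasDerivAt f f' t)
    (hg : HasDerivAt g g' t) : HasDerivAt (fun s => cr (f s) (g s)) (cr f' (g t) + cr (f t) g') t := by
  have re : ∀ {h : ℝ → ℂ} {h' : ℂ}, HasDerivAt h h' t → HasDerivAt (fun s => (h s).re) h'.re t := by
    intro h h' hh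
    exact (Complex.reCLM.hasFDerivAt.comp_hasDerivAt t hh)
  have im : ∀ {h : ℝ → ℂ} {h' : ℂ}, HasDerivAt h h' t → HasDerivAt (fun s => (h s).im) h'.im t := by
    intro h h' hh
    exact (Complex.imCLM.hasFDerivAt.comp_hasDerivAt t hh)
  have h1 := ((re hf).mul (im hg)).sub ((im hf).mul (re hg))
  refine h1.congr_deriv ?_
  unfold cr
  ring

namespace Data

variable (D : Data)

/-- direction of the third body -/
noncomputable def ez (t : ℝ) : ℂ := (1 / ‖D.q₃ t‖) • D.q₃ t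

/-- its derivative -/
noncomputable def ez' (t : ℝ) : ℂ :=
  (1 / ‖D.q₃ t‖) • D.p₃ t - (⟪D.q₃ t, D.p₃ t⟫_ℝ / ‖D.q₃ t‖ ^ 3) • D.q₃ t

/-- angular momentum of the third body (per unit mass) -/
noncomputable def cz (t : ℝ) : ℝ := cr (D.q₃ t) (D.p₃ t)

lemma hasDerivAt_ez {t : ℝ} (h : 0 < ‖D.q₃ t‖) : HasDerivAt D.ez (D.ez' t) t := by
  have h1 : HasDerivAt (fun s => 1 / ‖D.q₃ s‖)
      (-(⟪D.q₃ t, D.p₃ t⟫_ℝ / ‖D.q₃ t‖) / ‖D.q₃ t‖ ^ 2) t := by
    have e : (fun s => 1 / ‖D.q₃ s‖) = (fun s => ‖D.q₃ s‖)⁻¹ := by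
      funext s
      simp [one_div]
    rw [e]
    exact (hasDerivAt_norm (D.d3 t) (norm_pos_iff.1 h)).inv h.ne'
  have h2 := h1.smul (D.d3 t)
  refine h2.congr_deriv ?_
  unfold ez'
  have e : -(⟪D.q₃ t, D.p₃ t⟫_ℝ / ‖D.q₃ t‖) / ‖D.q₃ t‖ ^ 2 = -(⟪D.q₃ t, D.p₃ t⟫_ℝ / ‖D.q₃ t‖ ^ 3) := by
    field_simp
  rw [e]
  module

lemma norm_ez' {t : ℝ} (h : 0 < ‖D.q₃ t‖) : ‖D.ez' t‖ = |D.cz t| / ‖D.q₃ t‖ ^ 2 := by
  have hsq : ‖D.ez' t‖ ^ 2 = (|D.cz t| / ‖D.q₃ t‖ ^ 2) ^ 2 := by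
    unfold ez' cz
    rw [norm_sub_sq_real, norm_smul, norm_smul, inner_smul_left, inner_smul_right,
      real_inner_comm (D.q₃ t) (D.p₃ t), div_pow, sq_abs]
    simp only [conj_trivial, Real.norm_eq_abs, mul_pow, sq_abs]
    have hl := lagrange (D.q₃ t) (D.p₃ t)
    have : cr (D.q₃ t) (D.p₃ t) ^ 2 = ‖D.q₃ t‖ ^ 2 * ‖D.p₃ t‖ ^ 2 - ⟪D.q₃ t, D.p₃ t⟫_ℝ ^ 2 := by
      linarith
    rw [this]
    field_simp
    ring
  exact (sq_eq_sq₀ (norm_nonneg _) (by positivity)).1 hsq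

lemma norm_ez'_le {t : ℝ} (h : 0 < ‖D.q₃ t‖) : ‖D.ez' t‖ ≤ ‖D.p₃ t‖ / ‖D.q₃ t‖ := by
  rw [D.norm_ez' h]
  have := abs_cr_le (D.q₃ t) (D.p₃ t)
  rw [div_le_div_iff₀ (by positivity) h]
  unfold cz
  calc |cr (D.q₃ t) (D.p₃ t)| * ‖D.q₃ t‖ ≤ (‖D.q₃ t‖ * ‖D.p₃ t‖) * ‖D.q₃ t‖ := by gcongr
    _ = ‖D.p₃ t‖ * ‖D.q₃ t‖ ^ 2 := by ring

lemma norm_ez {t : ℝ} (h : 0 < ‖D.q₃ t‖) : ‖D.ez t‖ = 1 := by
  unfold ez
  rw [norm_smul, Real.norm_eq_abs, abs_of_pos (by positivity)]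
  field_simp

end Data

variable {C : ℝ} {D : Data} {t : ℝ}

lemma CloseFacts.C_pos (h : CloseFacts C D t) : 0 < C := by
  have h1 := h.f3
  have h2 := D.R_pos t
  have h3 := norm_nonneg (D.q₃ t)
  by_contra hc
  have : C * ‖D.q₃ t‖ ≤ 0 := mul_nonpos_of_nonpos_of_nonneg (not_lt.1 hc) h3
  linarith

lemma CloseFacts.q3_pos (h : CloseFacts C D t) : 0 < ‖D.q₃ t‖ := by
  have h1 := h.f3
  have h2 := D.R_pos t
  have h3 := h.C_pos
  by_contra hc
  have : C * ‖D.q₃ t‖ ≤ 0 := mul_nonpos_of_nonneg_of_nonpos h3.le (not_lt.1 hc)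
  linarith

lemma CloseFacts.v_pos (h : CloseFacts C D t) : 0 < ‖D.v t‖ := by
  have h1 := h.vlow
  have hr := D.r_pos t
  have hS := D.S_pos
  by_contra hc
  have h0 : ‖D.v t‖ = 0 := le_antisymm (not_lt.1 hc) (norm_nonneg _)
  rw [h0] at h1
  have : 0 < 5 / 3 * (D.S / D.r t) := by positivity
  linarith

/-- bound for the perturbing term -/
lemma CloseFacts.P_div_v (h : CloseFacts C D t) :
    ‖D.P t‖ / ‖D.v t‖ ≤ C / √D.S * (1 / D.w t ^ 3) := by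
  have hC := h.C_pos
  have hS := D.S_pos
  have hr := D.r_pos t
  have hv := h.v_pos
  have hw := D.w_pos t
  have hw2 := D.w_sq t
  have hR := D.R_pos t
  have hsS : 0 < √D.S := Real.sqrt_pos.2 hS
  have hsS2 : √D.S ^ 2 = D.S := Real.sq_sqrt hS.le
  have hy : 0 < √(D.r t) := Real.sqrt_pos.2 hr
  have hy2 : √(D.r t) ^ 2 = D.r t := Real.sq_sqrt hr.le
  have hyw : √(D.r t) ≤ D.w t := Real.sqrt_le_sqrt h.close
  have h1 : √D.S ≤ ‖D.v t‖ * √(D.r t) := by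
    apply le_of_sq_le_sq _ (by positivity)
    rw [mul_pow, hsS2, hy2]
    have := h.vlow
    calc D.S = D.S / D.r t * D.r t := by field_simp
      _ ≤ 5 / 3 * (D.S / D.r t) * D.r t := by
        have : 0 < D.S / D.r t * D.r t := by positivity
        linarith
      _ ≤ _ := by gcongr
  have h2 := h.tid
  rw [div_le_iff₀ hv]
  calc ‖D.P t‖ ≤ C * (D.r t / D.R t ^ 3) := h2
    _ = C / √D.S * (1 / D.w t ^ 3) * (√D.S * (√(D.r t) ^ 2 / D.w t ^ 3)) := by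
      rw [hy2, ← hw2]
      field_simp
    _ ≤ C / √D.S * (1 / D.w t ^ 3) * (‖D.v t‖ * √(D.r t) * (√(D.r t) ^ 2 / D.w t ^ 3)) := by
      gcongr
    _ = C / √D.S * (1 / D.w t ^ 3) * ‖D.v t‖ * (√(D.r t) ^ 3 / D.w t ^ 3) := by ring
    _ ≤ C / √D.S * (1 / D.w t ^ 3) * ‖D.v t‖ * 1 := by
      have : √(D.r t) ^ 3 / D.w t ^ 3 ≤ 1 := by
        rw [div_le_one (by positivity)]
        gcongr
      gcongr
    _ = _ := by ring

/-- bounded number of alternations while a pair is close -/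
theorem close_chain {Z Z' : ℝ → ℝ} {n : ℕ} {u : ℕ → ℝ} {CZ : ℝ}
    (hu : ∀ j < n, u j ≤ u (j + 1))
    (hcf : ∀ t ∈ Icc (u 0) (u n), CloseFacts C D t)
    (hZ : ∀ t ∈ Icc (u 0) (u n), HasDerivAt Z (Z' t) t)
    (hZ1 : ∀ t ∈ Icc (u 0) (u n), 1 / D.w t ^ 3 ≤ Z' t)
    (hZ2 : ∀ t ∈ Icc (u 0) (u n), ‖D.ez' t‖ ≤ Z' t)
    (hZC : Z (u n) - Z (u 0) ≤ CZ)
    (hl : ∀ j < n, (D.ex (u j) = D.ez (u j) ∧ D.ex (u (j + 1)) = -D.ez (u (j + 1))) ∨
      (D.ex (u j) = -D.ez (u j) ∧ D.ex (u (j + 1)) = D.ez (u (j + 1)))) :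
    2 * (n : ℝ) ≤ 5 / 2 * Real.pi + (5 / 2 * (C / √D.S) + 1) * CZ + 1 := by
  have hmono : ∀ i j, i ≤ j → j ≤ n → u i ≤ u j := by
    intro i j hij
    induction j, hij using Nat.le_induction with
    | base => intro _; exact le_refl _
    | succ j hij ih =>
      intro hj
      exact (ih (by omega)).trans (hu j (by omega))
  have h0n : u 0 ≤ u n := hmono 0 n (Nat.zero_le _) le_rfl
  have hC : 0 < C := (hcf (u 0) (left_mem_Icc.2 h0n)).C_pos
  have hS := D.S_pos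
  have hsS : 0 < √D.S := Real.sqrt_pos.2 hS
  have hcont : ContinuousOn (fun t => ‖D.v t‖ / D.r t) (Icc (u 0) (u n)) := by
    intro t ht
    have h1 := (D.hasDerivAt_nv (hcf t ht).v_pos).continuousAt
    have h2 := (D.hasDerivAt_r t).continuousAt
    exact (h1.div h2 (D.r_pos t).ne').continuousWithinAt
  obtain ⟨M, hM⟩ := isCompact_Icc.exists_bound_of_continuousOn hcont
  set M' := max M 0 with hM'
  have hM'0 : 0 ≤ M' := le_max_right _ _
  set L := u n - u 0 with hL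
  have hL0 : 0 ≤ L := by linarith
  set κ := 1 / ((M' + 1) * (L + 1)) with hκ
  have hκp : 0 < κ := by positivity
  -- the majorant
  set Q := 5 / 2 * (C / √D.S) + 1 with hQ
  have hQp : 0 < Q := by positivity
  set Xi : ℝ → ℝ := fun t => 5 / 2 * D.th κ t + Q * Z t + 1 / (L + 1) * t with hXi
  have hXid : ∀ t ∈ Icc (u 0) (u n), HasDerivAt Xi (5 / 2 * D.th' κ t + Q * Z' t + 1 / (L + 1)) t := by
    intro t ht
    have h1 := (D.hasDerivAt_th hκp (hcf t ht).v_pos).const_mul (5 / 2)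
    have h2 := (hZ t ht).const_mul Q
    have h3 := (hasDerivAt_id t).const_mul (1 / (L + 1))
    refine ((h1.add h2).add h3).congr_deriv (by simp)
  have hF : ∀ t ∈ Icc (u 0) (u n), HasDerivAt (fun t => D.ex t - D.ez t) (D.ex' t - D.ez' t) t :=
    fun t ht => (D.hasDerivAt_ex t).sub (D.hasDerivAt_ez (hcf t ht).q3_pos)
  have hbd : ∀ t ∈ Icc (u 0) (u n), ‖D.ex' t - D.ez' t‖ ≤
      5 / 2 * D.th' κ t + Q * Z' t + 1 / (L + 1) := by
    intro t ht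
    have h1 := D.turn hκp (hcf t ht).vlow
    have h2 := (hcf t ht).P_div_v
    have h3 := hZ1 t ht
    have h4 := hZ2 t ht
    have h5 : κ * (‖D.v t‖ / D.r t) ≤ 1 / (L + 1) := by
      have h6 : ‖D.v t‖ / D.r t ≤ M' + 1 := by
        have := (le_abs_self _).trans (hM t ht)
        have h7 : M ≤ M' := le_max_left _ _
        linarith
      calc κ * (‖D.v t‖ / D.r t) ≤ κ * (M' + 1) := by gcongr
        _ = 1 / (L + 1) := by rw [hκ]; field_simp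
    have h8 : 5 / 2 * (‖D.P t‖ / ‖D.v t‖) ≤ 5 / 2 * (C / √D.S) * Z' t := by
      calc 5 / 2 * (‖D.P t‖ / ‖D.v t‖) ≤ 5 / 2 * (C / √D.S * (1 / D.w t ^ 3)) := by gcongr
        _ ≤ 5 / 2 * (C / √D.S * Z' t) := by gcongr
        _ = _ := by ring
    calc ‖D.ex' t - D.ez' t‖ ≤ ‖D.ex' t‖ + ‖D.ez' t‖ := norm_sub_le _ _
      _ ≤ _ := by rw [hQ]; linarith
  have hstep : ∀ j < n, 2 ≤ Xi (u (j + 1)) - Xi (u j) := by
    intro j hj
    have hsub : Icc (u j) (u (j + 1)) ⊆ Icc (u 0) (u n) :=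
      Icc_subset_Icc (hmono 0 j (Nat.zero_le _) hj.le) (hmono (j + 1) n hj le_rfl)
    have h1 := norm_sub_le_of_deriv_le (hu j hj) (fun t ht => hF t (hsub ht))
      (fun t ht => hXid t (hsub ht)) (fun t ht => hbd t (hsub ht))
    have hz1 := D.norm_ez ((hcf (u j) (hsub (left_mem_Icc.2 (hu j hj)))).q3_pos)
    have hz2 := D.norm_ez ((hcf (u (j + 1)) (hsub (right_mem_Icc.2 (hu j hj)))).q3_pos)
    refine le_trans ?_ h1
    rcases hl j hj with ⟨e1, e2⟩ | ⟨e1, e2⟩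
    · simp only [e1, e2]
      rw [sub_self, sub_zero, show -D.ez (u (j + 1)) - D.ez (u (j + 1)) = (-2 : ℝ) • D.ez (u (j + 1)) by
        module, norm_smul, hz2]
      norm_num
    · simp only [e1, e2]
      rw [sub_self, zero_sub, norm_neg, show -D.ez (u j) - D.ez (u j) = (-2 : ℝ) • D.ez (u j) by
        module, norm_smul, hz1]
      norm_num
  have htot : 2 * (n : ℝ) ≤ Xi (u n) - Xi (u 0) := by
    have h1 := Finset.sum_range_sub (fun j => Xi (u j)) n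
    rw [← h1]
    calc 2 * (n : ℝ) = ∑ j ∈ Finset.range n, (2 : ℝ) := by simp; ring
      _ ≤ _ := Finset.sum_le_sum fun j hj => hstep j (Finset.mem_range.1 hj)
  refine htot.trans ?_
  simp only [hXi]
  have a1 := abs_le.1 (D.abs_th_le κ (u n))
  have a2 := abs_le.1 (D.abs_th_le κ (u 0))
  have a3 : Q * (Z (u n) - Z (u 0)) ≤ Q * CZ := by gcongr
  have a4 : 1 / (L + 1) * u n - 1 / (L + 1) * u 0 ≤ 1 := by
    rw [← mul_sub, ← hL, one_div, inv_mul_le_iff₀ (by positivity)]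
    linarith
  linarith [a1.1, a1.2, a2.1, a2.2]

end Pool.Agent.H310.Three
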