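import Pool.Agent.H310.Three.Close

/-!
Clocks dominating `w⁻³` on close intervals.
-/

open Filter Topology Set
open scoped InnerProductSpace

namespace Pool.Agent.H310.Three

namespace Data

variable (D : Data)

/-- radial momentum of the close pair, rescaled -/
noncomputable def B (t : ℝ) : ℝ := ⟪D.x t, D.v t⟫_ℝ / D.w t

/-- its derivative -/
noncomputable def B' (t : ℝ) : ℝ :=
  (‖D.v t‖ ^ 2 + ⟪D.x t, D.acc t⟫_ℝ) / D.w t - ⟪D.x t, D.v t⟫_ℝ * D.G t / (2 * D.w t ^ 5)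

lemma hasDerivAt_B (t : ℝ) : HasDerivAt D.B (D.B' t) t := by
  have hw := D.w_pos t
  have h1 := (D.hasDerivAt_x t).inner ℝ (D.hasDerivAt_v t)
  have h2 := h1.div (D.hasDerivAt_w t) hw.ne'
  refine h2.congr_deriv ?_
  unfold B'
  rw [real_inner_self_eq_norm_sq]
  field_simp
  ring

end Data

variable {C δ : ℝ} {D : Data} {t : ℝ}

lemma CloseFacts.rv_le (h : CloseFacts C D t) (hER : D.E * D.R t ≤ 1) :
    D.r t * ‖D.v t‖ ≤ √(2 * C) * √(D.r t) := by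
  have hC := h.C_pos
  have hr := D.r_pos t
  apply le_of_sq_le_sq _ (by positivity)
  rw [mul_pow (√(2 * C)), Real.sq_sqrt (by positivity), Real.sq_sqrt hr.le]
  have := h.rv
  calc (D.r t * ‖D.v t‖) ^ 2 ≤ C * D.r t * (D.E * D.R t + 1) := this
    _ ≤ C * D.r t * (1 + 1) := by gcongr
    _ = _ := by ring

lemma G_le_of_ub (hC : 0 < C) (h : D.G t ^ 2 ≤ C * D.R t * (D.E * D.R t + 1))
    (hER : D.E * D.R t ≤ 1) : D.G t ≤ √(2 * C) * D.w t := by
  have hw := D.w_pos t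
  have hR := D.R_pos t
  apply le_of_sq_le_sq _ (by positivity)
  rw [mul_pow, Real.sq_sqrt (by positivity), D.w_sq]
  calc D.G t ^ 2 ≤ C * D.R t * (D.E * D.R t + 1) := h
    _ ≤ C * D.R t * (1 + 1) := by gcongr
    _ = _ := by ring

lemma CloseFacts.B'_ge (h : CloseFacts C D t) (hER : D.E * D.R t ≤ 1) (hG : 0 ≤ D.G t)
    (hδ : D.r t ≤ δ * D.R t) (hCδ : C * δ ≤ D.S / 4) :
    1 / D.w t ^ 3 ≤ 4 / D.S * D.B' t := by
  have hC := h.C_pos
  have hS := D.S_pos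
  have hr := D.r_pos t
  have hv := h.v_pos
  have hw := D.w_pos t
  have hw2 := D.w_sq t
  have hR := D.R_pos t
  set y := √(D.r t) with hydef
  have hy : 0 < y := Real.sqrt_pos.2 hr
  have hy2 : y ^ 2 = D.r t := Real.sq_sqrt hr.le
  have hyw : y ≤ D.w t := Real.sqrt_le_sqrt h.close
  have hδp : 0 < δ := by
    by_contra hc
    have : δ * D.R t ≤ 0 := mul_nonpos_of_nonpos_of_nonneg (not_lt.1 hc) hR.le
    linarith
  have hc := h.conv
  have e1 : ‖D.v t‖ ^ 2 + ⟪D.x t, D.acc t⟫_ℝ = 2 * D.e t + D.S / D.r t + ⟪D.x t, D.P t⟫_ℝ := by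
    unfold Data.acc Data.e
    rw [inner_add_right, inner_smul_right, real_inner_self_eq_norm_sq, D.norm_x]
    field_simp
    ring
  have h1 : D.S / (2 * D.r t) / D.w t ≤ (‖D.v t‖ ^ 2 + ⟪D.x t, D.acc t⟫_ℝ) / D.w t := by
    rw [e1]
    gcongr
  have h2 : ⟪D.x t, D.v t⟫_ℝ * D.G t / (2 * D.w t ^ 5) ≤ D.S / (4 * D.r t) / D.w t := by
    have i1 : ⟪D.x t, D.v t⟫_ℝ ≤ √(2 * C) * y := by
      have := real_inner_le_norm (D.x t) (D.v t)
      rw [D.norm_x] at this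
      exact this.trans (h.rv_le hER)
    have i2 := G_le_of_ub hC h.ub hER
    have hs : √(2 * C) * √(2 * C) = 2 * C := Real.mul_self_sqrt (by positivity)
    have i3 : C * y ^ 3 ≤ D.S / 4 * D.w t ^ 3 := by
      calc C * y ^ 3 = C * (y ^ 2) * y := by ring
        _ ≤ C * (δ * D.w t ^ 2) * D.w t := by
          rw [hy2, hw2]
          gcongr
        _ = (C * δ) * D.w t ^ 3 := by ring
        _ ≤ _ := by gcongr
    calc ⟪D.x t, D.v t⟫_ℝ * D.G t / (2 * D.w t ^ 5) ≤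
          (√(2 * C) * y) * (√(2 * C) * D.w t) / (2 * D.w t ^ 5) := by gcongr
      _ = (√(2 * C) * √(2 * C)) * (y * D.w t) / (2 * D.w t ^ 5) := by ring
      _ = C * y ^ 3 / (y ^ 2 * D.w t ^ 4) := by
        rw [hs]
        field_simp
      _ ≤ D.S / 4 * D.w t ^ 3 / (y ^ 2 * D.w t ^ 4) := by gcongr
      _ = D.S / (4 * D.r t) / D.w t := by
        rw [← hy2]
        field_simp
  have h3 : D.S / 4 * (1 / D.w t ^ 3) ≤ D.B' t := by
    unfold Data.B'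
    have h4 : D.S / 4 * (1 / D.w t ^ 3) ≤ D.S / (4 * D.r t) / D.w t := by
      have hrw : D.r t ≤ D.w t ^ 2 := by rw [hw2]; exact h.close
      calc D.S / 4 * (1 / D.w t ^ 3) = D.S / (4 * D.w t ^ 2) / D.w t := by field_simp
        _ ≤ _ := by gcongr
    have h5 : D.S / (2 * D.r t) / D.w t = D.S / (4 * D.r t) / D.w t + D.S / (4 * D.r t) / D.w t := by
      field_simp
      norm_num
    linarith
  calc 1 / D.w t ^ 3 = 4 / D.S * (D.S / 4 * (1 / D.w t ^ 3)) := by field_simp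
    _ ≤ _ := by gcongr

lemma CloseFacts.abs_B_le (h : CloseFacts C D t) (hER : D.E * D.R t ≤ 1) :
    |D.B t| ≤ √(2 * C) := by
  have hr := D.r_pos t
  have hw := D.w_pos t
  have h1 := h.rv_le hER
  have hyw : √(D.r t) ≤ D.w t := Real.sqrt_le_sqrt h.close
  unfold Data.B
  rw [abs_div, abs_of_pos hw, div_le_iff₀ hw]
  have := abs_real_inner_le_norm (D.x t) (D.v t)
  rw [D.norm_x] at this
  calc |⟪D.x t, D.v t⟫_ℝ| ≤ D.r t * ‖D.v t‖ := this
    _ ≤ √(2 * C) * √(D.r t) := h1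
    _ ≤ _ := by gcongr

lemma CloseFacts.ez'_le (h : CloseFacts C D t) (hER : D.E * D.R t ≤ 1) :
    ‖D.ez' t‖ ≤ C * √(2 * C) * (1 / D.w t ^ 3) := by
  have hC := h.C_pos
  have hw := D.w_pos t
  have hw2 := D.w_sq t
  have hR := D.R_pos t
  have hq := h.q3_pos
  refine (D.norm_ez'_le hq).trans ?_
  have h1 : ‖D.p₃ t‖ * D.w t ≤ √(2 * C) := by
    apply Real.le_sqrt_of_sq_le
    rw [mul_pow, hw2]
    calc ‖D.p₃ t‖ ^ 2 * D.R t ≤ C * (D.E + 1 / D.R t) * D.R t := by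
          have := h.p3
          gcongr
      _ = C * (D.E * D.R t + 1) := by field_simp
      _ ≤ C * (1 + 1) := by gcongr
      _ = 2 * C := by ring
  have h3 := h.f3
  rw [← hw2] at h3
  rw [div_le_iff₀ hq]
  calc ‖D.p₃ t‖ = ‖D.p₃ t‖ * D.w t * D.w t ^ 2 * (1 / D.w t ^ 3) := by field_simp
    _ ≤ √(2 * C) * (C * ‖D.q₃ t‖) * (1 / D.w t ^ 3) := by gcongr
    _ = _ := by ring

/-- alternations in a close interval, first phase -/
theorem close_chain_L {n : ℕ} {u : ℕ → ℝ} (hC0 : 0 < C)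
    (hu : ∀ j < n, u j ≤ u (j + 1))
    (hcf : ∀ t ∈ Icc (u 0) (u n), CloseFacts C D t)
    (hER : ∀ t ∈ Icc (u 0) (u n), D.E * D.R t ≤ 1)
    (hG : ∀ t ∈ Icc (u 0) (u n), 0 ≤ D.G t)
    (hr : ∀ t ∈ Icc (u 0) (u n), D.r t ≤ δ * D.R t)
    (hCδ : C * δ ≤ D.S / 4)
    (hl : ∀ j < n, (D.ex (u j) = D.ez (u j) ∧ D.ex (u (j + 1)) = -D.ez (u (j + 1))) ∨
      (D.ex (u j) = -D.ez (u j) ∧ D.ex (u (j + 1)) = D.ez (u (j + 1)))) :
    2 * (n : ℝ) ≤ 5 / 2 * Real.pi + (5 / 2 * (C / √D.S) + 1) *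
      ((C * √(2 * C) + 1) * (4 / D.S) * (2 * √(2 * C))) + 1 := by
  have hmono : ∀ i j, i ≤ j → j ≤ n → u i ≤ u j := by
    intro i j hij
    induction j, hij using Nat.le_induction with
    | base => intro _; exact le_refl _
    | succ j hij ih =>
      intro hj
      exact (ih (by omega)).trans (hu j (by omega))
  have h0n : u 0 ≤ u n := hmono 0 n (Nat.zero_le _) le_rfl
  have hS := D.S_pos
  have hK : 0 < (C * √(2 * C) + 1) := by positivity
  refine close_chain (Z := fun t => (C * √(2 * C) + 1) * (4 / D.S) * D.B t)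
    (Z' := fun t => (C * √(2 * C) + 1) * (4 / D.S) * D.B' t) hu hcf
    (fun t _ => (D.hasDerivAt_B t).const_mul _) ?_ ?_ ?_ hl
  · intro t ht
    have h1 := (hcf t ht).B'_ge (hER t ht) (hG t ht) (hr t ht) hCδ
    have hw := D.w_pos t
    have h2 : 0 < 1 / D.w t ^ 3 := by positivity
    calc 1 / D.w t ^ 3 = 1 * (1 / D.w t ^ 3) := by ring
      _ ≤ (C * √(2 * C) + 1) * (4 / D.S * D.B' t) := by
        apply mul_le_mul _ h1 h2.le hK.le
        have : 0 ≤ C * √(2 * C) := by positivity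
        linarith
      _ = _ := by ring
  · intro t ht
    have h1 := (hcf t ht).B'_ge (hER t ht) (hG t ht) (hr t ht) hCδ
    have hw := D.w_pos t
    have h2 : 0 < 1 / D.w t ^ 3 := by positivity
    have h3 := (hcf t ht).ez'_le (hER t ht)
    calc ‖D.ez' t‖ ≤ C * √(2 * C) * (1 / D.w t ^ 3) := h3
      _ ≤ (C * √(2 * C) + 1) * (4 / D.S * D.B' t) := by
        apply mul_le_mul _ h1 h2.le hK.le
        linarith
      _ = _ := by ring
  · rw [← mul_sub]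
    have a1 := abs_le.1 ((hcf (u n) (right_mem_Icc.2 h0n)).abs_B_le (hER _ (right_mem_Icc.2 h0n)))
    have a2 := abs_le.1 ((hcf (u 0) (left_mem_Icc.2 h0n)).abs_B_le (hER _ (left_mem_Icc.2 h0n)))
    gcongr
    linarith [a1.1, a1.2, a2.1, a2.2]

/-- torque bound on the third body -/
lemma CloseFacts.hasDerivAt_cz (D : Data) (t : ℝ) :
    HasDerivAt D.cz (cr (D.q₃ t) ((D.m₁ / ‖D.q₃ t - D.q₁ t‖ ^ 3) • (D.q₁ t - D.q₃ t) +
      (D.m₂ / ‖D.q₃ t - D.q₂ t‖ ^ 3) • (D.q₂ t - D.q₃ t))) t := by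
  have h := hasDerivAt_cr (D.d3 t) (D.a3 t)
  refine h.congr_deriv ?_
  rw [cr_self, zero_add]

/-- constant for the torque -/
noncomputable def K3 (C : ℝ) (D : Data) : ℝ := (D.m₁ + D.m₂) * C ^ 2 / √D.m₃

lemma CloseFacts.torque (h : CloseFacts C D t) :
    |cr (D.q₃ t) ((D.m₁ / ‖D.q₃ t - D.q₁ t‖ ^ 3) • (D.q₁ t - D.q₃ t) +
      (D.m₂ / ‖D.q₃ t - D.q₂ t‖ ^ 3) • (D.q₂ t - D.q₃ t))| ≤ K3 C D * (1 / D.R t) := by
  have hC := h.C_pos
  have h1 := D.h1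
  have h2 := D.h2
  have h3 := D.h3
  have hR := D.R_pos t
  have r1 := D.r31_pos t
  have r2 := D.r32_pos t
  have f1 := h.f31
  have f2 := h.f32
  have hm3 : 0 < √D.m₃ := Real.sqrt_pos.2 h3
  have hq : ‖D.q₃ t‖ ≤ D.R t / √D.m₃ := by
    rw [le_div_iff₀ hm3]
    apply le_of_sq_le_sq _ hR.le
    rw [mul_pow, Real.sq_sqrt h3.le]
    have := D.q3_le t
    linarith
  have g1 : D.m₁ / ‖D.q₃ t - D.q₁ t‖ ^ 2 ≤ D.m₁ * C ^ 2 / D.R t ^ 2 := by
    rw [div_le_div_iff₀ (by positivity) (by positivity)]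
    calc D.m₁ * D.R t ^ 2 ≤ D.m₁ * (C * ‖D.q₃ t - D.q₁ t‖) ^ 2 := by gcongr
      _ = _ := by ring
  have g2 : D.m₂ / ‖D.q₃ t - D.q₂ t‖ ^ 2 ≤ D.m₂ * C ^ 2 / D.R t ^ 2 := by
    rw [div_le_div_iff₀ (by positivity) (by positivity)]
    calc D.m₂ * D.R t ^ 2 ≤ D.m₂ * (C * ‖D.q₃ t - D.q₂ t‖) ^ 2 := by gcongr
      _ = _ := by ring
  refine (abs_cr_le _ _).trans ?_
  have hn : ‖(D.m₁ / ‖D.q₃ t - D.q₁ t‖ ^ 3) • (D.q₁ t - D.q₃ t) +
      (D.m₂ / ‖D.q₃ t - D.q₂ t‖ ^ 3) • (D.q₂ t - D.q₃ t)‖ ≤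
      D.m₁ * C ^ 2 / D.R t ^ 2 + D.m₂ * C ^ 2 / D.R t ^ 2 := by
    refine (norm_add_le _ _).trans ?_
    rw [norm_smul, norm_smul, Real.norm_eq_abs, Real.norm_eq_abs, abs_of_pos (by positivity),
      abs_of_pos (by positivity), norm_sub_rev (D.q₁ t), norm_sub_rev (D.q₂ t)]
    have e1 : D.m₁ / ‖D.q₃ t - D.q₁ t‖ ^ 3 * ‖D.q₃ t - D.q₁ t‖ = D.m₁ / ‖D.q₃ t - D.q₁ t‖ ^ 2 := by
      field_simp
    have e2 : D.m₂ / ‖D.q₃ t - D.q₂ t‖ ^ 3 * ‖D.q₃ t - D.q₂ t‖ = D.m₂ / ‖D.q₃ t - D.q₂ t‖ ^ 2 := by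
      field_simp
    rw [e1, e2]
    exact add_le_add g1 g2
  calc ‖D.q₃ t‖ * _ ≤ D.R t / √D.m₃ * (D.m₁ * C ^ 2 / D.R t ^ 2 + D.m₂ * C ^ 2 / D.R t ^ 2) := by
        gcongr
    _ = _ := by
      unfold K3
      field_simp

/-- alternations in a close interval, second phase -/
theorem close_chain_H {n : ℕ} {u : ℕ → ℝ} (hC0 : 0 < C)
    (hu : ∀ j < n, u j ≤ u (j + 1))
    (hcf : ∀ t ∈ Icc (u 0) (u n), CloseFacts C D t)
    (hER : 1 ≤ D.E * D.R (u 0))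
    (hG : 0 ≤ D.G (u 0))
    (hl : ∀ j < n, (D.ex (u j) = D.ez (u j) ∧ D.ex (u (j + 1)) = -D.ez (u (j + 1))) ∨
      (D.ex (u j) = -D.ez (u j) ∧ D.ex (u (j + 1)) = D.ez (u (j + 1)))) :
    2 * (n : ℝ) ≤ 5 / 2 * Real.pi + (5 / 2 * (C / √D.S) + 1) *
      (2 + C ^ 2 * (4 * √C / √D.m₃ + 4 * K3 C D)) + 1 := by
  have hmono : ∀ i j, i ≤ j → j ≤ n → u i ≤ u j := by
    intro i j hij
    induction j, hij using Nat.le_induction with
    | base => intro _; exact le_refl _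
    | succ j hij ih =>
      intro hj
      exact (ih (by omega)).trans (hu j (by omega))
  have h0n : u 0 ≤ u n := hmono 0 n (Nat.zero_le _) le_rfl
  have hS := D.S_pos
  have hE := D.hE
  have hRa := D.R_pos (u 0)
  have hm1 := D.h1
  have hm2 := D.h2
  have hm3 := D.h3
  have hsm3 : 0 < √D.m₃ := Real.sqrt_pos.2 hm3
  have hsC : 0 < √C := Real.sqrt_pos.2 hC0
  have hK3 : 0 < K3 C D := by unfold K3; positivity
  have hs2E : 0 < √(2 * D.E) := Real.sqrt_pos.2 (by positivity)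
  have hs2E2 : √(2 * D.E) ^ 2 = 2 * D.E := Real.sq_sqrt (by positivity)
  set KE := C ^ 2 * (4 * √C / √D.m₃ + 4 * K3 C D) with hKE
  have hKEp : 0 < KE := by positivity
  refine close_chain (Z := fun t => (2 + KE) * D.X (u 0) t)
    (Z' := fun t => (2 + KE) * D.X' (u 0) t) hu hcf
    (fun t _ => (D.hasDerivAt_X (u 0) t).const_mul _) ?_ ?_ ?_ hl
  · intro t ht
    have h1 := D.inv_w3_le hG ht.1
    have hX := D.X'_pos (u 0) t
    have h2 : 2 * √2 / √(2 * D.E * D.R (u 0)) ≤ 2 := by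
      have h3 : √2 ≤ √(2 * D.E * D.R (u 0)) := Real.sqrt_le_sqrt (by nlinarith)
      have h4 : 0 < √2 := Real.sqrt_pos.2 (by norm_num)
      rw [div_le_iff₀ (by linarith)]
      linarith
    calc 1 / D.w t ^ 3 ≤ 2 * √2 / √(2 * D.E * D.R (u 0)) * D.X' (u 0) t := h1
      _ ≤ 2 * D.X' (u 0) t := by gcongr
      _ ≤ (2 + KE) * D.X' (u 0) t := by
        gcongr
        linarith
  · intro t ht
    have hX := D.X'_pos (u 0) t
    have hq := (hcf t ht).q3_pos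
    have hRt := D.R_pos t
    rw [D.norm_ez' hq]
    -- bound on the angular momentum
    have hcz := norm_sub_le_of_deriv_le (f := D.cz) (g := fun s => K3 C D * (2 / √(2 * D.E)) * D.V (u 0) s)
      (g' := fun s => K3 C D * (2 / √(2 * D.E)) * D.V' (u 0) s) ht.1
      (fun s _ => CloseFacts.hasDerivAt_cz D s)
      (fun s _ => (D.hasDerivAt_V (u 0) s).const_mul _)
      (fun s hs => by
        have hs' : s ∈ Icc (u 0) (u n) := ⟨hs.1, hs.2.trans ht.2⟩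
        have h1 := (hcf s hs').torque
        have h2 := D.inv_R_le hG hs.1
        rw [Real.norm_eq_abs]
        refine h1.trans ?_
        calc K3 C D * (1 / D.R s) ≤ K3 C D * (2 / √(2 * D.E) * D.V' (u 0) s) := by gcongr
          _ = _ := by ring)
    have hV1 := D.one_le_V (le_refl (u 0))
    have hVt := D.one_le_V ht.1
    have hcz0 : |D.cz (u 0)| ≤ D.R (u 0) / √D.m₃ * (√C * √(2 * D.E)) := by
      have h0 := hcf (u 0) (left_mem_Icc.2 h0n)
      have hq0 : ‖D.q₃ (u 0)‖ ≤ D.R (u 0) / √D.m₃ := by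
        rw [le_div_iff₀ hsm3]
        apply le_of_sq_le_sq _ hRa.le
        rw [mul_pow, Real.sq_sqrt hm3.le]
        have := D.q3_le (u 0)
        linarith
      have hp0 : ‖D.p₃ (u 0)‖ ≤ √C * √(2 * D.E) := by
        apply le_of_sq_le_sq _ (by positivity)
        rw [mul_pow, Real.sq_sqrt hC0.le, hs2E2]
        refine h0.p3.trans ?_
        have : 1 / D.R (u 0) ≤ D.E := by
          rw [div_le_iff₀ hRa]
          exact hER
        gcongr
        linarith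
      exact (abs_cr_le _ _).trans (by gcongr)
    have hczt : |D.cz t| ≤ (D.R (u 0) / √D.m₃ * (√C * √(2 * D.E)) + K3 C D * (2 / √(2 * D.E))) *
        D.V (u 0) t := by
      have h5 : |D.cz t| ≤ |D.cz (u 0)| + |D.cz t - D.cz (u 0)| := by
        have := abs_add_le (D.cz (u 0)) (D.cz t - D.cz (u 0))
        rwa [add_sub_cancel] at this
      rw [Real.norm_eq_abs] at hcz
      have h6 : 0 ≤ K3 C D * (2 / √(2 * D.E)) * D.V (u 0) (u 0) := by positivity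
      have h7 : D.R (u 0) / √D.m₃ * (√C * √(2 * D.E)) ≤
          D.R (u 0) / √D.m₃ * (√C * √(2 * D.E)) * D.V (u 0) t := by
        apply le_mul_of_one_le_right _ hVt
        positivity
      linarith
    have hVR := D.V_div_R2_le hG ht.1
    have hf3 := (hcf t ht).f3
    have h8 : |D.cz t| / ‖D.q₃ t‖ ^ 2 ≤ C ^ 2 * (|D.cz t| / D.R t ^ 2) := by
      rw [mul_div_assoc', div_le_div_iff₀ (by positivity) (by positivity)]
      calc |D.cz t| * D.R t ^ 2 ≤ |D.cz t| * (C * ‖D.q₃ t‖) ^ 2 := by gcongr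
        _ = _ := by ring
    refine h8.trans ?_
    have h9 : (D.R (u 0) / √D.m₃ * (√C * √(2 * D.E)) + K3 C D * (2 / √(2 * D.E))) *
        (4 / (√(2 * D.E) * D.R (u 0))) ≤ 4 * √C / √D.m₃ + 4 * K3 C D := by
      have e1 : (D.R (u 0) / √D.m₃ * (√C * √(2 * D.E)) + K3 C D * (2 / √(2 * D.E))) *
          (4 / (√(2 * D.E) * D.R (u 0))) = 4 * √C / √D.m₃ +
          8 * K3 C D / (√(2 * D.E) ^ 2 * D.R (u 0)) := by
        field_simp
        ring
      rw [e1, hs2E2]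
      have : 8 * K3 C D / (2 * D.E * D.R (u 0)) ≤ 4 * K3 C D := by
        rw [div_le_iff₀ (by positivity)]
        nlinarith
      linarith
    calc C ^ 2 * (|D.cz t| / D.R t ^ 2) ≤ C ^ 2 *
          (((D.R (u 0) / √D.m₃ * (√C * √(2 * D.E)) + K3 C D * (2 / √(2 * D.E))) *
          D.V (u 0) t) / D.R t ^ 2) := by gcongr
      _ = C ^ 2 * ((D.R (u 0) / √D.m₃ * (√C * √(2 * D.E)) + K3 C D * (2 / √(2 * D.E))) *
          (D.V (u 0) t / D.R t ^ 2)) := by ring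
      _ ≤ C ^ 2 * ((D.R (u 0) / √D.m₃ * (√C * √(2 * D.E)) + K3 C D * (2 / √(2 * D.E))) *
          (4 / (√(2 * D.E) * D.R (u 0)) * D.X' (u 0) t)) := by gcongr
      _ = C ^ 2 * ((D.R (u 0) / √D.m₃ * (√C * √(2 * D.E)) + K3 C D * (2 / √(2 * D.E))) *
          (4 / (√(2 * D.E) * D.R (u 0)))) * D.X' (u 0) t := by ring
      _ ≤ C ^ 2 * (4 * √C / √D.m₃ + 4 * K3 C D) * D.X' (u 0) t := by gcongr
      _ = KE * D.X' (u 0) t := by rw [hKE]
      _ ≤ (2 + KE) * D.X' (u 0) t := by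
        gcongr
        linarith
  · rw [← mul_sub]
    have a1 := D.X_nonpos (u 0) (u n)
    have a2 := D.X_ge (le_refl (u 0))
    calc (2 + KE) * (D.X (u 0) (u n) - D.X (u 0) (u 0)) ≤ (2 + KE) * 1 := by
          gcongr
          linarith
      _ = _ := by ring

end Pool.Agent.H310.Three
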