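import Mathlib

/-!
# Hyperbolic solutions of the planar three-body problem and their eclipse sequences: definitions

The plane is the complex plane; the bodies are labelled by `Fin 3`; a motion is a function
`q : ℝ → Fin 3 → ℂ`, where `q t a` is the position of body `a` at time `t`.
-/

open Filter Topology

namespace Pool.Agent.H310.ThreeBody

/-- Mass norm of a configuration. -/
noncomputable def massNorm (m : Fin 3 → ℝ) (x : Fin 3 → ℂ) : ℝ := √(∑ a, m a * ‖x a‖ ^ 2)

/-- Velocity of body `a` at time `t`. -/
noncomputable def vel (q : ℝ → Fin 3 → ℂ) (t : ℝ) (a : Fin 3) : ℂ := deriv (fun s => q s a) t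

/-- Acceleration of body `a` at time `t`. -/
noncomputable def acc (q : ℝ → Fin 3 → ℂ) (t : ℝ) (a : Fin 3) : ℂ := deriv (fun s => vel q s a) t

/-- Energy at time `t`: kinetic energy minus the sum of `m a * m b / |q b - q a|` over the three
pairs. -/
noncomputable def energy (m : Fin 3 → ℝ) (q : ℝ → Fin 3 → ℂ) (t : ℝ) : ℝ :=
  (∑ a, m a * ‖vel q t a‖ ^ 2) / 2 -
    (m 0 * m 1 / ‖q t 1 - q t 0‖ + m 0 * m 2 / ‖q t 2 - q t 0‖ + m 1 * m 2 / ‖q t 2 - q t 1‖)

/-- A hyperbolic solution of the planar three-body problem with masses `m`: a twice differentiable,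
collision-free solution of Newton's equations, defined for all times, with centre of mass at the
origin and positive energy, whose normalised configuration has collision-free limits in the future
and in the past. -/
structure IsHyperbolic (m : Fin 3 → ℝ) (q : ℝ → Fin 3 → ℂ) : Prop where
  /-- positions are differentiable -/
  diff : ∀ a, Differentiable ℝ fun t => q t a
  /-- velocities are differentiable -/
  diff_vel : ∀ a, Differentiable ℝ fun t => vel q t a
  /-- there are no collisions -/
  collision_free : ∀ t, Function.Injective (q t)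
  /-- the centre of mass is the origin -/
  centre : ∀ t, ∑ a, m a • q t a = 0
  /-- Newton's equations -/
  newton : ∀ t a, m a • acc q t a =
    ∑ b ∈ Finset.univ.erase a, (m a * m b / ‖q t b - q t a‖ ^ 3) • (q t b - q t a)
  /-- the energy is positive -/
  energy_pos : ∀ t, 0 < energy m q t
  /-- collision-free limit in the future -/
  future : ∃ s : Fin 3 → ℂ, Function.Injective s ∧
    Tendsto (fun t => (massNorm m (q t))⁻¹ • q t) atTop (𝓝 s)
  /-- collision-free limit in the past -/
  past : ∃ s : Fin 3 → ℂ, Function.Injective s ∧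
    Tendsto (fun t => (massNorm m (q t))⁻¹ • q t) atBot (𝓝 s)

/-- At time `t` body `a` lies strictly between the two other bodies. -/
def IsEclipse (q : ℝ → Fin 3 → ℂ) (t : ℝ) (a : Fin 3) : Prop :=
  ∃ b c, b ≠ a ∧ c ≠ a ∧ b ≠ c ∧ q t a ∈ openSegment ℝ (q t b) (q t c)

/-- `w` is the eclipse sequence of `q`: the instants at which the three bodies are collinear are
finite in number and, listed in increasing order, have the labels `w`. -/
def IsEclipseSequence (q : ℝ → Fin 3 → ℂ) (w : List (Fin 3)) : Prop :=
  ∃ ts : List ℝ, ts.Pairwise (· < ·) ∧ (∀ t, t ∈ ts ↔ Collinear ℝ (Set.range (q t))) ∧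
    List.Forall₂ (fun t a => IsEclipse q t a) ts w

/-- `w'` is obtained from `w` by deleting one stutter (a pair of equal consecutive letters). -/
def DeleteStutter (w w' : List (Fin 3)) : Prop :=
  ∃ (u v : List (Fin 3)) (a : Fin 3), w = u ++ a :: a :: v ∧ w' = u ++ v

/-- A word is reduced if it has no stutter. -/
def Reduced (w : List (Fin 3)) : Prop := ∀ w', ¬ DeleteStutter w w'

/-- `r` is the reduced eclipse sequence of `q`, a motion with finitely many eclipses: `r` is
reduced and is obtained from the eclipse sequence by repeatedly deleting stutters. -/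
def IsReducedEclipseSequence (q : ℝ → Fin 3 → ℂ) (r : List (Fin 3)) : Prop :=
  ∃ w, IsEclipseSequence q w ∧ Relation.ReflTransGen DeleteStutter w r ∧ Reduced r

end Pool.Agent.H310.ThreeBody
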