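import Pool.Agent.H310.Three.Capture

open Filter Topology Set
open scoped InnerProductSpace

namespace Pool.Agent.H310.Three

namespace Data

variable (D : Data)

/-- external potential -/
noncomputable def Ue (t : ℝ) : ℝ :=
  D.m₁ * D.m₃ / ‖D.q₃ t - D.q₁ t‖ + D.m₂ * D.m₃ / ‖D.q₃ t - D.q₂ t‖

lemma energy_split (t : ℝ) :
    D.m₁ * D.m₂ * D.e t + D.m₃ * D.M * ‖D.p₃ t‖ ^ 2 / 2 = D.S * (D.E + D.Ue t) := by
  have h := D.jacK t
  rw [D.K_eq] at h
  have hr := D.r_pos t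
  have hU : D.U t = D.m₁ * D.m₂ / D.r t + D.Ue t := by
    unfold U Ue r
    ring
  rw [hU] at h
  unfold e
  have : D.m₁ * D.m₂ * (D.S / D.r t) = D.S * (D.m₁ * D.m₂ / D.r t) := by ring
  linarith

lemma q3_le (t : ℝ) : D.m₃ * ‖D.q₃ t‖ ^ 2 ≤ D.R t ^ 2 := by
  rw [D.R_sq]
  unfold I
  have h1 := D.h1
  have h2 := D.h2
  have a : 0 ≤ D.m₁ * ‖D.q₁ t‖ ^ 2 := by positivity
  have b : 0 ≤ D.m₂ * ‖D.q₂ t‖ ^ 2 := by positivity
  linarith

end Data

/-- the estimates available at outgoing times where the first pair is close -/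
structure CloseFacts (C : ℝ) (D : Data) (t : ℝ) : Prop where
  f31 : D.R t ≤ C * ‖D.q₃ t - D.q₁ t‖
  f32 : D.R t ≤ C * ‖D.q₃ t - D.q₂ t‖
  f3 : D.R t ≤ C * ‖D.q₃ t‖
  tid : ‖D.P t‖ ≤ C * (D.r t / D.R t ^ 3)
  vlow : 5 / 3 * (D.S / D.r t) ≤ ‖D.v t‖ ^ 2
  p3 : ‖D.p₃ t‖ ^ 2 ≤ C * (D.E + 1 / D.R t)
  conv : D.S / (2 * D.r t) ≤ 2 * D.e t + D.S / D.r t + ⟪D.x t, D.P t⟫_ℝ
  rv : (D.r t * ‖D.v t‖) ^ 2 ≤ C * D.r t * (D.E * D.R t + 1)
  ub : D.G t ^ 2 ≤ C * D.R t * (D.E * D.R t + 1)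
  close : D.r t ≤ D.R t

lemma CloseFacts.mono {C C' : ℝ} {D : Data} {t : ℝ} (h : CloseFacts C D t) (hC : C ≤ C') :
    CloseFacts C' D t := by
  have hR := D.R_pos t
  have hr := D.r_pos t
  have hE := D.hE
  constructor
  · exact h.f31.trans (by gcongr)
  · exact h.f32.trans (by gcongr)
  · exact h.f3.trans (by gcongr)
  · exact h.tid.trans (by gcongr)
  · exact h.vlow
  · exact h.p3.trans (by gcongr)
  · exact h.conv
  · exact h.rv.trans (by gcongr)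
  · exact h.ub.trans (by gcongr)
  · exact h.close

theorem close_facts {m₁ m₂ m₃ : ℝ} (h1 : 0 < m₁) (h2 : 0 < m₂) (h3 : 0 < m₃) :
    ∃ δ > 0, ∃ C > 0, ∀ D : Data, HasMass D m₁ m₂ m₃ → ∀ t, 0 ≤ D.G t → D.r t ≤ δ * D.R t →
      CloseFacts C D t := by
  obtain ⟨ε, hε, c, hc, hgeom⟩ := geom h1 h2 h3
  obtain ⟨Cc, hCc, hNC⟩ := NC h1 h2 h3
  set S := m₁ + m₂ with hSdef
  have hS : 0 < S := by positivity
  set M := m₁ + m₂ + m₃ with hMdef
  have hM : 0 < M := by positivity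
  set Cp := 4 * m₃ / c ^ 3 with hCp
  have hCpp : 0 < Cp := by positivity
  set Ce := (m₁ * m₃ + m₂ * m₃) / c with hCe
  have hCep : 0 < Ce := by positivity
  set δ := min (min ε (S / (6 * Cc))) (min 1 (S / (6 * Cp))) with hδ
  have hδp : 0 < δ := by
    apply lt_min
    · exact lt_min hε (by positivity)
    · exact lt_min one_pos (by positivity)
  have hδε : δ ≤ ε := (min_le_left _ _).trans (min_le_left _ _)
  have hδ1 : δ ≤ 1 := (min_le_right _ _).trans (min_le_left _ _)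
  have hδc : Cc * δ ≤ S / 6 := by
    have : δ ≤ S / (6 * Cc) := (min_le_left _ _).trans (min_le_right _ _)
    rw [le_div_iff₀ (by positivity)] at this
    linarith
  have hδP : Cp * δ ≤ S / 6 := by
    have : δ ≤ S / (6 * Cp) := (min_le_right _ _).trans (min_le_right _ _)
    rw [le_div_iff₀ (by positivity)] at this
    linarith
  -- constants
  set A1 := S * (1 + Ce) / (m₁ * m₂) with hA1  -- e ≤ A1 (E + 1/R)
  have hA1p : 0 < A1 := by positivity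
  set A2 := 2 * (S * (1 + Ce) + m₁ * m₂ * Cc) / (m₃ * M) with hA2
  have hA2p : 0 < A2 := by positivity
  set A3 := 2 * A1 + 2 * S with hA3
  have hA3p : 0 < A3 := by positivity
  set A4 := 2 * ((m₁ * m₂) ^ 2 * A3 + (m₃ * M) ^ 2 * (A2 / m₃)) / S ^ 2 with hA4
  have hA4p : 0 < A4 := by positivity
  refine ⟨δ, hδp, max (max (1 / c) Cp) (max (max A2 A3) A4), ?_, ?_⟩
  · exact lt_max_of_lt_left (lt_max_of_lt_left (by positivity))
  rintro D hm t hG hclose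
  obtain ⟨e1, e2, e3⟩ := id hm
  set C := max (max (1 / c) Cp) (max (max A2 A3) A4) with hC
  have hC1 : 1 / c ≤ C := (le_max_left _ _).trans (le_max_left _ _)
  have hC2 : Cp ≤ C := (le_max_right _ _).trans (le_max_left _ _)
  have hC3 : A2 ≤ C := ((le_max_left _ _).trans (le_max_left _ _)).trans (le_max_right _ _)
  have hC4 : A3 ≤ C := ((le_max_right _ _).trans (le_max_left _ _)).trans (le_max_right _ _)
  have hC5 : A4 ≤ C := (le_max_right _ _).trans (le_max_right _ _)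
  have hSD : D.S = S := by unfold Data.S; rw [e1, e2]
  have hMD : D.M = M := by unfold Data.M; rw [e1, e2, e3]
  have hR := D.R_pos t
  have hr := D.r_pos t
  have hE := D.hE
  have hcl' : D.r t ≤ ε * D.R t := hclose.trans (by gcongr)
  obtain ⟨g1, g2, g3⟩ := hgeom D hm t hcl'
  have hP0 := tidal hc g1 g2
  rw [e3] at hP0
  have hNCt := hNC D hm t hG
  have hrR : D.r t ≤ D.R t := hclose.trans (mul_le_of_le_one_left hR.le hδ1)
  -- 1/R ≤ δ / r
  have hinv : 1 / D.R t ≤ δ / D.r t := by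
    rw [div_le_div_iff₀ hR hr]
    linarith
  have hUe : D.Ue t ≤ Ce / D.R t := by
    unfold Data.Ue
    rw [e1, e2, e3]
    have p1 : 0 < ‖D.q₃ t - D.q₁ t‖ := D.r31_pos t
    have p2 : 0 < ‖D.q₃ t - D.q₂ t‖ := D.r32_pos t
    have a1 : m₁ * m₃ / ‖D.q₃ t - D.q₁ t‖ ≤ m₁ * m₃ / (c * D.R t) := by gcongr
    have a2 : m₂ * m₃ / ‖D.q₃ t - D.q₂ t‖ ≤ m₂ * m₃ / (c * D.R t) := by gcongr
    calc _ ≤ m₁ * m₃ / (c * D.R t) + m₂ * m₃ / (c * D.R t) := add_le_add a1 a2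
      _ = Ce / D.R t := by rw [hCe]; field_simp
  have hEU : D.E + D.Ue t ≤ (1 + Ce) * (D.E + 1 / D.R t) := by
    have k1 : 0 < 1 / D.R t := by positivity
    have k2 : Ce / D.R t = Ce * (1 / D.R t) := by ring
    have k3 : 0 < Ce * D.E := by positivity
    have k4 : (1 + Ce) * (D.E + 1 / D.R t) = D.E + 1 / D.R t + Ce * D.E + Ce * (1 / D.R t) := by ring
    rw [k4]
    linarith
  have hsplit := D.energy_split t
  rw [hSD, hMD, e1, e2, e3] at hsplit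
  have he_up : D.e t ≤ A1 * (D.E + 1 / D.R t) := by
    have h5 : m₁ * m₂ * D.e t ≤ S * ((1 + Ce) * (D.E + 1 / D.R t)) := by
      have : 0 ≤ m₃ * M * ‖D.p₃ t‖ ^ 2 / 2 := by positivity
      have := mul_le_mul_of_nonneg_left hEU hS.le
      linarith
    rw [hA1, div_mul_eq_mul_div, le_div_iff₀ (by positivity)]
    linarith
  have hp3 : ‖D.p₃ t‖ ^ 2 ≤ A2 * (D.E + 1 / D.R t) := by
    have h5 := mul_le_mul_of_nonneg_left hEU hS.le
    have h6 : -(Cc * (D.E + 1 / D.R t)) ≤ D.e t := by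
      refine le_trans ?_ hNCt
      have : -Cc / D.R t = -(Cc * (1 / D.R t)) := by ring
      rw [this]
      have k3 : 0 < Cc * D.E := by positivity
      have k4 : Cc * (D.E + 1 / D.R t) = Cc * D.E + Cc * (1 / D.R t) := by ring
      rw [k4]
      linarith
    have h7 := mul_le_mul_of_nonneg_left h6 (by positivity : 0 ≤ m₁ * m₂)
    rw [hA2, div_mul_eq_mul_div, le_div_iff₀ (by positivity)]
    linarith
  have hrv : (D.r t * ‖D.v t‖) ^ 2 ≤ A3 * D.r t * (D.E * D.R t + 1) := by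
    have e5 : (D.r t * ‖D.v t‖) ^ 2 = 2 * D.e t * D.r t ^ 2 + 2 * S * D.r t := by
      unfold Data.e
      rw [hSD]
      field_simp
      ring
    rw [e5]
    have h6 : D.e t * D.r t ^ 2 ≤ A1 * D.r t * (D.E * D.R t + 1) := by
      calc D.e t * D.r t ^ 2 ≤ A1 * (D.E + 1 / D.R t) * D.r t ^ 2 := by gcongr
        _ = A1 * D.r t * ((D.E + 1 / D.R t) * D.r t) := by ring
        _ ≤ A1 * D.r t * ((D.E + 1 / D.R t) * D.R t) := by gcongr
        _ = A1 * D.r t * (D.E * D.R t + 1) := by field_simp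
    have h7 : S * D.r t ≤ S * D.r t * (D.E * D.R t + 1) := by
      have k1 : 0 < D.E * D.R t := by positivity
      exact le_mul_of_one_le_right (by positivity) (by linarith)
    calc 2 * D.e t * D.r t ^ 2 + 2 * S * D.r t ≤
        2 * (A1 * D.r t * (D.E * D.R t + 1)) + 2 * (S * D.r t * (D.E * D.R t + 1)) := by linarith
      _ = A3 * D.r t * (D.E * D.R t + 1) := by rw [hA3]; ring
  have hub : D.G t ^ 2 ≤ A4 * D.R t * (D.E * D.R t + 1) := by
    have hjG := D.jacG t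
    rw [hSD, hMD, e1, e2, e3] at hjG
    have i1 := abs_real_inner_le_norm (D.x t) (D.v t)
    have i2 := abs_real_inner_le_norm (D.q₃ t) (D.p₃ t)
    rw [D.norm_x] at i1
    have b1 : (m₁ * m₂ * ⟪D.x t, D.v t⟫_ℝ) ^ 2 ≤ (m₁ * m₂) ^ 2 * (A3 * D.R t * (D.E * D.R t + 1)) := by
      rw [mul_pow]
      have : ⟪D.x t, D.v t⟫_ℝ ^ 2 ≤ (D.r t * ‖D.v t‖) ^ 2 := by
        rw [← sq_abs]
        exact pow_le_pow_left₀ (abs_nonneg _) i1 2
      calc (m₁ * m₂) ^ 2 * ⟪D.x t, D.v t⟫_ℝ ^ 2 ≤ (m₁ * m₂) ^ 2 * (D.r t * ‖D.v t‖) ^ 2 := by gcongr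
        _ ≤ (m₁ * m₂) ^ 2 * (A3 * D.r t * (D.E * D.R t + 1)) := by gcongr
        _ ≤ _ := by gcongr
    have b2 : (m₃ * M * ⟪D.q₃ t, D.p₃ t⟫_ℝ) ^ 2 ≤
        (m₃ * M) ^ 2 * ((A2 / m₃) * D.R t * (D.E * D.R t + 1)) := by
      rw [mul_pow]
      have h8 : ⟪D.q₃ t, D.p₃ t⟫_ℝ ^ 2 ≤ (‖D.q₃ t‖ * ‖D.p₃ t‖) ^ 2 := by
        rw [← sq_abs]
        exact pow_le_pow_left₀ (abs_nonneg _) i2 2
      have h9 : ‖D.q₃ t‖ ^ 2 ≤ D.R t ^ 2 / m₃ := by
        have := D.q3_le t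
        rw [e3] at this
        rw [le_div_iff₀ h3]
        linarith
      have h10 : (‖D.q₃ t‖ * ‖D.p₃ t‖) ^ 2 ≤ (A2 / m₃) * D.R t * (D.E * D.R t + 1) := by
        rw [mul_pow]
        calc ‖D.q₃ t‖ ^ 2 * ‖D.p₃ t‖ ^ 2 ≤ (D.R t ^ 2 / m₃) * (A2 * (D.E + 1 / D.R t)) := by gcongr
          _ = (A2 / m₃) * D.R t * (D.E * D.R t + 1) := by field_simp
      have := h8.trans h10
      gcongr
    have hsq : (S * D.G t) ^ 2 ≤ 2 * ((m₁ * m₂) ^ 2 * (A3 * D.R t * (D.E * D.R t + 1))) +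
        2 * ((m₃ * M) ^ 2 * ((A2 / m₃) * D.R t * (D.E * D.R t + 1))) := by
      rw [hjG]
      have k1 := sq_nonneg (m₁ * m₂ * ⟪D.x t, D.v t⟫_ℝ - m₃ * M * ⟪D.q₃ t, D.p₃ t⟫_ℝ)
      have k2 : (m₁ * m₂ * ⟪D.x t, D.v t⟫_ℝ + m₃ * M * ⟪D.q₃ t, D.p₃ t⟫_ℝ) ^ 2 =
        2 * (m₁ * m₂ * ⟪D.x t, D.v t⟫_ℝ) ^ 2 + 2 * (m₃ * M * ⟪D.q₃ t, D.p₃ t⟫_ℝ) ^ 2 -
        (m₁ * m₂ * ⟪D.x t, D.v t⟫_ℝ - m₃ * M * ⟪D.q₃ t, D.p₃ t⟫_ℝ) ^ 2 := by ring
      rw [k2]
      linarith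
    rw [hA4, div_mul_eq_mul_div, div_mul_eq_mul_div, le_div_iff₀ (by positivity)]
    rw [mul_pow] at hsq
    linarith
  constructor
  · have : D.R t ≤ 1 / c * ‖D.q₃ t - D.q₁ t‖ := by
      rw [one_div, inv_mul_eq_div, le_div_iff₀ hc]; linarith
    exact this.trans (by gcongr)
  · have : D.R t ≤ 1 / c * ‖D.q₃ t - D.q₂ t‖ := by
      rw [one_div, inv_mul_eq_div, le_div_iff₀ hc]; linarith
    exact this.trans (by gcongr)
  · have : D.R t ≤ 1 / c * ‖D.q₃ t‖ := by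
      rw [one_div, inv_mul_eq_div, le_div_iff₀ hc]; linarith
    exact this.trans (by gcongr)
  · exact hP0.trans (by gcongr)
  · rw [hSD]
    have hv : ‖D.v t‖ ^ 2 = 2 * (D.e t + S / D.r t) := by
      unfold Data.e
      rw [hSD]
      ring
    rw [hv]
    have h5 : -(S / 6 / D.r t) ≤ D.e t := by
      refine le_trans ?_ hNCt
      have h6 : Cc / D.R t ≤ S / 6 / D.r t := by
        calc Cc / D.R t = Cc * (1 / D.R t) := by ring
          _ ≤ Cc * (δ / D.r t) := by gcongr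
          _ = Cc * δ / D.r t := by ring
          _ ≤ S / 6 / D.r t := by gcongr
      have : -Cc / D.R t = -(Cc / D.R t) := by ring
      rw [this]
      linarith
    have h7 : S / 6 / D.r t = (1 / 6) * (S / D.r t) := by ring
    rw [h7] at h5
    linarith
  · exact hp3.trans (by gcongr)
  · rw [hSD]
    have h5 : -(2 * (Cc / D.R t)) ≤ 2 * D.e t := by
      have : -Cc / D.R t = -(Cc / D.R t) := by ring
      rw [this] at hNCt
      linarith
    have h6 : Cc / D.R t ≤ S / 6 / D.r t := by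
      calc Cc / D.R t = Cc * (1 / D.R t) := by ring
        _ ≤ Cc * (δ / D.r t) := by gcongr
        _ = Cc * δ / D.r t := by ring
        _ ≤ S / 6 / D.r t := by gcongr
    have h8 : -(S / 6 / D.r t) ≤ ⟪D.x t, D.P t⟫_ℝ := by
      have i1 := abs_real_inner_le_norm (D.x t) (D.P t)
      have h9 : ‖D.x t‖ * ‖D.P t‖ ≤ S / 6 / D.r t := by
        rw [D.norm_x]
        calc D.r t * ‖D.P t‖ ≤ D.r t * (Cp * (D.r t / D.R t ^ 3)) := by gcongr
          _ = Cp * ((D.r t / D.R t) ^ 2 * (1 / D.R t)) := by field_simp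
          _ ≤ Cp * (1 ^ 2 * (δ / D.r t)) := by
            have : D.r t / D.R t ≤ 1 := by rw [div_le_one hR]; exact hrR
            gcongr
          _ = Cp * δ / D.r t := by ring
          _ ≤ S / 6 / D.r t := by gcongr
      have := neg_abs_le ⟪D.x t, D.P t⟫_ℝ
      linarith
    have h10 : S / 6 / D.r t = (1 / 6) * (S / D.r t) := by ring
    have h11 : S / (2 * D.r t) = (1 / 2) * (S / D.r t) := by field_simp
    rw [h10] at h6 h8
    rw [h11]
    linarith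
  · exact hrv.trans (by gcongr)
  · exact hub.trans (by gcongr)
  · exact hrR

end Pool.Agent.H310.Three
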