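import Pool.Agent.H310.Three.Uniform

/-!
Global bound for chains of eclipses.
-/

open Filter Topology Set
open scoped InnerProductSpace

namespace Pool.Agent.H310.Three

variable {m : Fin 3 → ℝ}

namespace Sys

lemma ChainBound.split {S : Sys m} {J : Set ℝ} {T : ℝ} {N₁ N₂ : ℕ}
    (h1 : S.ChainBound (J ∩ Iic T) N₁) (h2 : S.ChainBound (J ∩ Ici T) N₂) :
    S.ChainBound J (N₁ + N₂ + 1) := by
  intro n u l hu huJ hE hl
  by_contra hcon
  push Not at hcon
  have hmono := chain_mono (n := n) (u := u) (fun x hx => (hu x hx).le)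
  by_cases hT : u (N₁ + 1) ≤ T
  · have := h1 (N₁ + 1) u l (fun j hj => hu j (by omega))
      (fun j hj => ⟨huJ j (by omega), (hmono j (N₁ + 1) hj (by omega)).trans hT⟩)
      (fun j hj => hE j (by omega)) (fun j hj => hl j (by omega))
    omega
  · push Not at hT
    have := h2 (n - (N₁ + 1)) (fun j => u (N₁ + 1 + j)) (fun j => l (N₁ + 1 + j))
      (fun j hj => hu _ (by omega))
      (fun j hj => ⟨huJ _ (by omega), hT.le.trans (hmono (N₁ + 1) _ (by omega) (by omega))⟩)
      (fun j hj => hE _ (by omega)) (fun j hj => hl _ (by omega))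
    omega

/-- time reversal -/
noncomputable def rev (S : Sys m) : Sys m where
  E := S.E
  q := fun i t => S.q i (-t)
  p := fun i t => -S.p i (-t)
  hm := S.hm
  hE := S.hE
  dq := fun i t => by
    exact ((S.dq i (-t)).scomp t (hasDerivAt_neg t)).congr_deriv (by simp)
  dp := fun a b c hab hac hbc t => by
    have := ((S.dp a b c hab hac hbc (-t)).scomp t (hasDerivAt_neg t)).neg
    refine this.congr_deriv ?_
    module
  nq := fun a b h t => S.nq a b h (-t)
  cm := fun t => S.cm (-t)
  mo := fun t => by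
    have := S.mo (-t)
    simp only [smul_neg, Finset.sum_neg_distrib, this, neg_zero]
  en := fun t => by
    have := S.en (-t)
    simpa using this
  nc := fun a b h hc => by
    apply S.nc' a b h
    have := hc.comp tendsto_neg_atBot_atTop
    simpa [Function.comp_def] using this
  nc' := fun a b h hc => by
    apply S.nc a b h
    have := hc.comp tendsto_neg_atTop_atBot
    simpa [Function.comp_def] using this

lemma rev_G (S : Sys m) (t : ℝ) : S.rev.G t = -S.G (-t) := by
  unfold G rev
  simp only [inner_neg_right, mul_neg, Finset.sum_neg_distrib]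

lemma rev_Ecl (S : Sys m) (l : Fin 3) (t : ℝ) : S.rev.Ecl l t ↔ S.Ecl l (-t) := Iff.rfl

lemma ChainBound.rev {S : Sys m} {t₀ : ℝ} {N : ℕ} (h : S.rev.ChainBound (Ici (-t₀)) N) :
    S.ChainBound (Iic t₀) N := by
  intro n u l hu huJ hE hl
  refine h n (fun j => -u (n - j)) (fun j => l (n - j)) ?_ ?_ ?_ ?_
  · intro j hj
    have := hu (n - (j + 1)) (by omega)
    have e : n - (j + 1) + 1 = n - j := by omega
    rw [e] at this
    exact neg_lt_neg this
  · intro j _
    have h1 : u (n - j) ≤ t₀ := huJ (n - j) (by omega)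
    exact neg_le_neg h1
  · intro j _
    rw [rev_Ecl, neg_neg]
    exact hE (n - j) (by omega)
  · intro j hj
    have := hl (n - (j + 1)) (by omega)
    have e : n - (j + 1) + 1 = n - j := by omega
    rw [e] at this
    exact this.symm

lemma ChainBound.mono {S : Sys m} {J J' : Set ℝ} {N N' : ℕ} (h : S.ChainBound J N) (hJ : J' ⊆ J)
    (hN : N ≤ N') : S.ChainBound J' N' := by
  intro n u l hu huJ hE hl
  exact (h n u l hu (fun j hj => hJ (huJ j hj)) hE hl).trans hN

end Sys

theorem chain_out (hm : ∀ i, 0 < m i) : ∃ N : ℕ, ∀ (S : Sys m) (t₀ : ℝ), 0 ≤ S.G t₀ →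
    S.ChainBound (Ici t₀) N := by
  obtain ⟨δ, hδ, c, hc, CM, B, h⟩ := uniform_regimes hm
  obtain ⟨N, hN⟩ := exists_nat_gt (CM / c)
  refine ⟨(B + 1) * N + (B + 1) * N + 1, ?_⟩
  intro S t₀ hG
  obtain ⟨hL, hH⟩ := h S
  rcases le_total 1 (S.E * S.R t₀) with hER | hER
  · refine ((hH t₀ hG hER).chain hδ hc hN).mono le_rfl (by omega)
  · -- transition time
    have htend : Tendsto (fun t => S.E * S.R t) atTop atTop := by
      have := S.D0.tendsto_R (t := t₀) (by rw [S.D0_G]; exact hG)
      rw [S.D0_R] at this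
      exact this.const_mul_atTop S.hE
    obtain ⟨b, hb, hb1⟩ := ((eventually_ge_atTop t₀).and (htend.eventually_ge_atTop 1)).exists
    have hcont : ContinuousOn (fun t => S.E * S.R t) (Icc t₀ b) :=
      (continuous_const.mul S.continuous_R).continuousOn
    obtain ⟨T, hT, hTe⟩ := intermediate_value_Icc hb hcont ⟨hER, hb1⟩
    have hTe' : S.E * S.R T = 1 := hTe
    have h1 := (hL t₀ T hG hTe'.le hT.1).chain hδ hc hN
    have h2 := (hH T (hG.trans (S.G_mono hT.1)) hTe'.ge).chain hδ hc hN
    exact Sys.ChainBound.split (T := T) (h1.mono (fun x hx => ⟨hx.1, hx.2⟩) le_rfl)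
      (h2.mono (fun x hx => hx.2) le_rfl)

theorem chain_all (hm : ∀ i, 0 < m i) : ∃ N : ℕ, ∀ (S : Sys m), S.ChainBound univ N := by
  obtain ⟨N, h⟩ := chain_out hm
  refine ⟨N + N + 1, ?_⟩
  intro S
  have hE := S.hE
  have hGe : ∀ s t, s ≤ t → 2 * S.E * (t - s) + S.G s ≤ S.G t := by
    intro s t hst
    have := S.D0.G_ge hst
    rwa [S.D0_G, S.D0_E] at this
  -- a time where G vanishes
  obtain ⟨t₀, ht₀⟩ : ∃ t₀, S.G t₀ = 0 := by
    have hcont : Continuous S.G := by rw [← S.D0_G]; exact S.D0.continuous_G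
    set L := |S.G 0| / (2 * S.E) with hL
    have hL0 : 0 ≤ L := by positivity
    have h1 := hGe 0 L hL0
    have h2 := hGe (-L) 0 (by linarith)
    have h3 : 2 * S.E * L = |S.G 0| := by rw [hL]; field_simp
    have h4 := neg_abs_le (S.G 0)
    have h5 := le_abs_self (S.G 0)
    have := intermediate_value_Icc (by linarith : -L ≤ L) hcont.continuousOn
    obtain ⟨t, _, ht⟩ := this (show (0:ℝ) ∈ Icc (S.G (-L)) (S.G L) from
      ⟨by linarith, by linarith⟩)
    exact ⟨t, ht⟩
  have h1 := h S t₀ ht₀.ge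
  have h2 := (h S.rev (-t₀) (by rw [S.rev_G, neg_neg, ht₀, neg_zero])).rev
  exact Sys.ChainBound.split (T := t₀) (h2.mono (fun x hx => hx.2) le_rfl)
    (h1.mono (fun x hx => hx.2) le_rfl)

end Pool.Agent.H310.Three
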