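import Pool.Agent.H310.Three.CloseClock

/-!
Movement of the normalised configuration, and its cost.
-/

open Filter Topology Set
open scoped InnerProductSpace

namespace Pool.Agent.H310.Three

/-- derivative of a normalised position -/
noncomputable def sd (R G : ℝ) (q p : ℂ) : ℂ := (1 / R) • p - (G / R ^ 3) • q

lemma norm_sd_sq {R G : ℝ} (hR : 0 < R) (q p : ℂ) :
    ‖sd R G q p‖ ^ 2 = ‖p‖ ^ 2 / R ^ 2 - 2 * G * ⟪q, p⟫_ℝ / R ^ 4 + G ^ 2 * ‖q‖ ^ 2 / R ^ 6 := by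
  unfold sd
  rw [norm_sub_sq_real, norm_smul, norm_smul, inner_smul_left, inner_smul_right,
    real_inner_comm q p]
  simp only [conj_trivial, Real.norm_eq_abs, mul_pow, sq_abs]
  field_simp

namespace Data

variable (D : Data)

lemma hasDerivAt_s {q p : ℝ → ℂ} {t : ℝ} (h : HasDerivAt q (p t) t) :
    HasDerivAt (fun s => (1 / D.R s) • q s) (sd (D.R t) (D.G t) (q t) (p t)) t := by
  have hR := D.R_pos t
  have h1 : HasDerivAt (fun s => 1 / D.R s) (-(D.G t / D.R t) / D.R t ^ 2) t := by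
    have e : (fun s => 1 / D.R s) = D.R⁻¹ := by
      funext s
      simp [one_div]
    rw [e]
    exact (D.hasDerivAt_R t).inv hR.ne'
  have h2 := h1.smul h
  refine h2.congr_deriv ?_
  unfold sd
  have e : -(D.G t / D.R t) / D.R t ^ 2 = -(D.G t / D.R t ^ 3) := by
    field_simp
  rw [e]
  module

/-- normalised positions -/
noncomputable def s₁ (t : ℝ) : ℂ := (1 / D.R t) • D.q₁ t
/-- normalised positions -/
noncomputable def s₂ (t : ℝ) : ℂ := (1 / D.R t) • D.q₂ t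
/-- normalised positions -/
noncomputable def s₃ (t : ℝ) : ℂ := (1 / D.R t) • D.q₃ t

/-- speed of the normalised configuration -/
noncomputable def sp (t : ℝ) : ℝ := √(D.J2 t) / D.I t

lemma sum_sd (t : ℝ) : D.m₁ * ‖sd (D.R t) (D.G t) (D.q₁ t) (D.p₁ t)‖ ^ 2 +
    D.m₂ * ‖sd (D.R t) (D.G t) (D.q₂ t) (D.p₂ t)‖ ^ 2 +
    D.m₃ * ‖sd (D.R t) (D.G t) (D.q₃ t) (D.p₃ t)‖ ^ 2 = D.sp t ^ 2 := by
  have hR := D.R_pos t
  have hI := D.I_pos t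
  rw [norm_sd_sq hR, norm_sd_sq hR, norm_sd_sq hR]
  unfold sp
  rw [div_pow, Real.sq_sqrt (D.J2_nonneg t)]
  have e : D.m₁ * (‖D.p₁ t‖ ^ 2 / D.R t ^ 2 - 2 * D.G t * ⟪D.q₁ t, D.p₁ t⟫_ℝ / D.R t ^ 4 +
      D.G t ^ 2 * ‖D.q₁ t‖ ^ 2 / D.R t ^ 6) +
      D.m₂ * (‖D.p₂ t‖ ^ 2 / D.R t ^ 2 - 2 * D.G t * ⟪D.q₂ t, D.p₂ t⟫_ℝ / D.R t ^ 4 +
      D.G t ^ 2 * ‖D.q₂ t‖ ^ 2 / D.R t ^ 6) +
      D.m₃ * (‖D.p₃ t‖ ^ 2 / D.R t ^ 2 - 2 * D.G t * ⟪D.q₃ t, D.p₃ t⟫_ℝ / D.R t ^ 4 +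
      D.G t ^ 2 * ‖D.q₃ t‖ ^ 2 / D.R t ^ 6) =
      D.K t / D.R t ^ 2 - 2 * D.G t * D.G t / D.R t ^ 4 + D.G t ^ 2 * D.I t / D.R t ^ 6 := by
    have hG' : D.m₁ * ⟪D.q₁ t, D.p₁ t⟫_ℝ + D.m₂ * ⟪D.q₂ t, D.p₂ t⟫_ℝ +
      D.m₃ * ⟪D.q₃ t, D.p₃ t⟫_ℝ = D.G t := rfl
    unfold K I
    linear_combination (-(2 * D.G t / D.R t ^ 4)) * hG'
  rw [e]
  have e4 : D.R t ^ 4 = D.I t ^ 2 := by rw [← D.R_sq]; ring
  have e6 : D.R t ^ 6 = D.I t ^ 3 := by rw [← D.R_sq]; ring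
  rw [e4, e6, D.R_sq]
  unfold J2
  field_simp
  ring

lemma sp_nonneg (t : ℝ) : 0 ≤ D.sp t := div_nonneg (Real.sqrt_nonneg _) (D.I_pos t).le

lemma sd₁_le (t : ℝ) : √D.m₁ * ‖sd (D.R t) (D.G t) (D.q₁ t) (D.p₁ t)‖ ≤ D.sp t := by
  apply le_of_sq_le_sq _ (D.sp_nonneg t)
  rw [mul_pow, Real.sq_sqrt D.h1.le, ← D.sum_sd t]
  have h2 := D.h2
  have h3 := D.h3
  have a : 0 ≤ D.m₂ * ‖sd (D.R t) (D.G t) (D.q₂ t) (D.p₂ t)‖ ^ 2 := by positivity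
  have b : 0 ≤ D.m₃ * ‖sd (D.R t) (D.G t) (D.q₃ t) (D.p₃ t)‖ ^ 2 := by positivity
  linarith

lemma sd₂_le (t : ℝ) : √D.m₂ * ‖sd (D.R t) (D.G t) (D.q₂ t) (D.p₂ t)‖ ≤ D.sp t := by
  apply le_of_sq_le_sq _ (D.sp_nonneg t)
  rw [mul_pow, Real.sq_sqrt D.h2.le, ← D.sum_sd t]
  have h2 := D.h1
  have h3 := D.h3
  have a : 0 ≤ D.m₁ * ‖sd (D.R t) (D.G t) (D.q₁ t) (D.p₁ t)‖ ^ 2 := by positivity
  have b : 0 ≤ D.m₃ * ‖sd (D.R t) (D.G t) (D.q₃ t) (D.p₃ t)‖ ^ 2 := by positivity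
  linarith

lemma sd₃_le (t : ℝ) : √D.m₃ * ‖sd (D.R t) (D.G t) (D.q₃ t) (D.p₃ t)‖ ≤ D.sp t := by
  apply le_of_sq_le_sq _ (D.sp_nonneg t)
  rw [mul_pow, Real.sq_sqrt D.h3.le, ← D.sum_sd t]
  have h2 := D.h1
  have h3 := D.h2
  have a : 0 ≤ D.m₁ * ‖sd (D.R t) (D.G t) (D.q₁ t) (D.p₁ t)‖ ^ 2 := by positivity
  have b : 0 ≤ D.m₂ * ‖sd (D.R t) (D.G t) (D.q₂ t) (D.p₂ t)‖ ^ 2 := by positivity
  linarith

/-- the L1 clock -/
noncomputable def Psi (t : ℝ) : ℝ := D.G t / D.w t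

/-- its derivative -/
noncomputable def Psi' (t : ℝ) : ℝ := D.E / D.w t + D.J2 t / (2 * D.w t ^ 5)

lemma hasDerivAt_Psi (t : ℝ) : HasDerivAt D.Psi (D.Psi' t) t := by
  have hw := D.w_pos t
  have h := (D.hasDerivAt_G t).div (D.hasDerivAt_w t) hw.ne'
  refine h.congr_deriv ?_
  unfold Psi'
  rw [D.J2_eq]
  have e : D.I t = D.w t ^ 4 := by rw [← D.R_sq, ← D.w_sq]; ring
  rw [e]
  field_simp
  ring

lemma Psi'_ge (t : ℝ) : D.J2 t / (2 * D.w t ^ 5) ≤ D.Psi' t := by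
  unfold Psi'
  have := D.hE
  have := D.w_pos t
  have : 0 < D.E / D.w t := by positivity
  linarith

lemma Psi'_nonneg (t : ℝ) : 0 ≤ D.Psi' t := by
  refine le_trans ?_ (D.Psi'_ge t)
  have := D.w_pos t
  have := D.J2_nonneg t
  positivity

lemma Psi_mono {s t : ℝ} (h : s ≤ t) : D.Psi s ≤ D.Psi t := by
  have := sub_le_sub_of_deriv_le (f := fun _ => (0:ℝ)) (g := D.Psi) (f' := fun _ => 0) h
    (fun u _ => hasDerivAt_const u 0) (fun u _ => D.hasDerivAt_Psi u)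
    (fun u _ => D.Psi'_nonneg u)
  simp at this
  exact this

lemma X_mono {a s t : ℝ} (h : s ≤ t) : D.X a s ≤ D.X a t := by
  have := sub_le_sub_of_deriv_le (f := fun _ => (0:ℝ)) (g := D.X a) (f' := fun _ => 0) h
    (fun u _ => hasDerivAt_const u 0) (fun u _ => D.hasDerivAt_X a u)
    (fun u _ => (D.X'_pos a u).le)
  simp at this
  exact this

/-- arithmetic-geometric mean bound of the speed -/
lemma sp_le {l : ℝ} (hl : 0 < l) (t : ℝ) : D.sp t ≤ l * D.Psi' t + 1 / (2 * l) * (1 / D.w t ^ 3) := by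
  have hw := D.w_pos t
  have hJ := D.J2_nonneg t
  have e : D.I t = D.w t ^ 4 := by rw [← D.R_sq, ← D.w_sq]; ring
  have h1 := mul_le_mul_of_nonneg_left (D.Psi'_ge t) hl.le
  unfold sp
  rw [e]
  set j := √(D.J2 t) with hj
  have hj2 : j ^ 2 = D.J2 t := Real.sq_sqrt hJ
  rw [← hj2] at h1
  refine le_trans ?_ (add_le_add_left h1 _)
  have e2 : l * (j ^ 2 / (2 * D.w t ^ 5)) + 1 / (2 * l) * (1 / D.w t ^ 3) - j / D.w t ^ 4 =
      (l * j - D.w t) ^ 2 / (2 * l * D.w t ^ 5) := by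
    field_simp
    ring
  have h3 : 0 ≤ (l * j - D.w t) ^ 2 / (2 * l * D.w t ^ 5) := by positivity
  linarith

/-- all three displacements are at most `η` -/
def Near (η a t : ℝ) : Prop :=
  √D.m₁ * ‖D.s₁ t - D.s₁ a‖ ≤ η ∧ √D.m₂ * ‖D.s₂ t - D.s₂ a‖ ≤ η ∧ √D.m₃ * ‖D.s₃ t - D.s₃ a‖ ≤ η

lemma near_of_clock {Z Z' : ℝ → ℝ} {a b : ℝ} (hab : a ≤ b)
    (hZ : ∀ t ∈ Icc a b, HasDerivAt Z (Z' t) t) (hs : ∀ t ∈ Icc a b, D.sp t ≤ Z' t) :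
    D.Near (Z b - Z a) a b := by
  have m1 : 0 < √D.m₁ := Real.sqrt_pos.2 D.h1
  have m2 : 0 < √D.m₂ := Real.sqrt_pos.2 D.h2
  have m3 : 0 < √D.m₃ := Real.sqrt_pos.2 D.h3
  have key : ∀ (c : ℝ) (q p : ℝ → ℂ), 0 < c → (∀ t, HasDerivAt q (p t) t) →
      (∀ t, c * ‖sd (D.R t) (D.G t) (q t) (p t)‖ ≤ D.sp t) →
      c * ‖(1 / D.R b) • q b - (1 / D.R a) • q a‖ ≤ Z b - Z a := by
    intro c q p hc hq hb
    have h := norm_sub_le_of_deriv_le (f := fun s => (1 / D.R s) • q s)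
      (g := fun s => 1 / c * Z s) (g' := fun s => 1 / c * Z' s) hab
      (fun t _ => D.hasDerivAt_s (hq t)) (fun t ht => (hZ t ht).const_mul _)
      (fun t ht => by
        have h1 := (hb t).trans (hs t ht)
        rw [one_div, inv_mul_eq_div, le_div_iff₀ hc]
        linarith)
    rw [← mul_sub] at h
    calc c * ‖(1 / D.R b) • q b - (1 / D.R a) • q a‖ ≤ c * (1 / c * (Z b - Z a)) := by gcongr
      _ = Z b - Z a := by field_simp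
  exact ⟨key _ _ _ m1 D.d1 D.sd₁_le, key _ _ _ m2 D.d2 D.sd₂_le, key _ _ _ m3 D.d3 D.sd₃_le⟩

/-- cost of a displacement in the first phase -/
lemma cost_L {Z Z' : ℝ → ℝ} {a b η C₃ : ℝ} (hab : a ≤ b) (hη : 0 < η) (hC₃ : 0 < C₃)
    (hZ : ∀ t ∈ Icc a b, HasDerivAt Z (Z' t) t) (hw : ∀ t ∈ Icc a b, 1 / D.w t ^ 3 ≤ Z' t)
    (hZC : Z b - Z a ≤ C₃) (hn : ∀ η' < η, ¬ D.Near η' a b) :
    η ^ 2 / (2 * C₃) ≤ D.Psi b - D.Psi a := by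
  set l := C₃ / η with hl
  have hlp : 0 < l := by positivity
  have h := D.near_of_clock (Z := fun t => l * D.Psi t + 1 / (2 * l) * Z t)
    (Z' := fun t => l * D.Psi' t + 1 / (2 * l) * Z' t) hab
    (fun t ht => ((D.hasDerivAt_Psi t).const_mul l).add ((hZ t ht).const_mul _))
    (fun t ht => by
      have h1 := D.sp_le hlp t
      have h2 := hw t ht
      have : 1 / (2 * l) * (1 / D.w t ^ 3) ≤ 1 / (2 * l) * Z' t := by gcongr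
      linarith)
  have h2 : η ≤ (l * D.Psi b + 1 / (2 * l) * Z b) - (l * D.Psi a + 1 / (2 * l) * Z a) := by
    by_contra hc
    exact hn _ (not_le.1 hc) h
  have h3 : 1 / (2 * l) * (Z b - Z a) ≤ η / 2 := by
    calc 1 / (2 * l) * (Z b - Z a) ≤ 1 / (2 * l) * C₃ := by gcongr
      _ = η / 2 := by rw [hl]; field_simp
  have h4 : η / 2 ≤ l * (D.Psi b - D.Psi a) := by linarith
  have h5 : η ^ 2 / (2 * C₃) = (η / 2) / l := by rw [hl]; field_simp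
  rw [h5, div_le_iff₀ hlp]
  linarith

end Data

end Pool.Agent.H310.Three
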