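import Pool.Agent.H310.Three.Basic

/-!
Non-capture: in the outgoing half a pair is never tightly bound.
-/

open Filter Topology Set
open scoped InnerProductSpace

namespace Pool.Agent.H310.Three

lemma first_hit {f : ℝ → ℝ} {a b c : ℝ} (hab : a ≤ b) (hf : ContinuousOn f (Icc a b))
    (ha : f a < c) (hb : c ≤ f b) :
    ∃ τ ∈ Icc a b, a < τ ∧ f τ = c ∧ ∀ t ∈ Icc a τ, f t ≤ c := by
  let S : Set ℝ := {t | t ∈ Icc a b ∧ c ≤ f t}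
  have hSne : S.Nonempty := ⟨b, right_mem_Icc.2 hab, hb⟩
  have hSc : IsClosed S := by
    have := hf.preimage_isClosed_of_isClosed isClosed_Icc (isClosed_Ici (a := c))
    exact this
  have hSb : BddBelow S := ⟨a, fun t ht => ht.1.1⟩
  have hτ : sInf S ∈ S := hSc.csInf_mem hSne hSb
  set τ := sInf S with hτdef
  have haτ : a < τ := by
    rcases eq_or_lt_of_le hτ.1.1 with h | h
    · exfalso
      have := hτ.2
      rw [← h] at this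
      linarith
    · exact h
  have hlt : ∀ t ∈ Icc a τ, t < τ → f t < c := by
    intro t ht htτ
    by_contra hc
    push Not at hc
    have : τ ≤ t := csInf_le hSb ⟨⟨ht.1, ht.2.trans hτ.1.2⟩, hc⟩
    linarith
  have hfτ : f τ = c := by
    by_contra hne
    have hgt : c < f τ := lt_of_le_of_ne hτ.2 (Ne.symm hne)
    have hcont : ContinuousOn f (Icc a τ) := hf.mono (Icc_subset_Icc_right hτ.1.2)
    obtain ⟨t, ht, htc⟩ := intermediate_value_Ioo haτ.le hcont ⟨ha, hgt⟩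
    have := hlt t (Ioo_subset_Icc_self ht) ht.2
    linarith
  refine ⟨τ, hτ.1, haτ, hfτ, fun t ht => ?_⟩
  rcases eq_or_lt_of_le ht.2 with h | h
  · rw [h, hfτ]
  · exact (hlt t ht h).le

lemma crossing {f : ℝ → ℝ} {a b α β : ℝ} (hab : a ≤ b) (hf : Continuous f)
    (hαβ : α < β) (ha : f a ≤ α) (hb : β ≤ f b) :
    ∃ w₁ w₂, a ≤ w₁ ∧ w₁ < w₂ ∧ w₂ ≤ b ∧ f w₁ = α ∧ f w₂ = β ∧ ∀ t ∈ Icc w₁ w₂, α ≤ f t ∧ f t ≤ β := by
  obtain ⟨w₂, hw₂, haw₂, hfw₂, hle⟩ := first_hit hab hf.continuousOn (by linarith : f a < β) hb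
  have hg : Continuous fun t => -f (a + w₂ - t) := by fun_prop
  rcases eq_or_lt_of_le ha with h | h
  · -- start at the last time with value α
    obtain ⟨τ, hτ, haτ, hfτ, hle'⟩ := first_hit (f := fun t => -f (a + w₂ - t)) (a := a) (b := w₂)
      (c := -α) haw₂.le hg.continuousOn (by simp [hfw₂]; linarith) (by simp [h])
    refine ⟨a + w₂ - τ, w₂, by linarith [hτ.2], by linarith, hw₂.2, ?_, hfw₂, ?_⟩
    · linarith
    · intro t ht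
      refine ⟨?_, hle t ⟨by linarith [ht.1, hτ.2], ht.2⟩⟩
      have := hle' (a + w₂ - t) ⟨by linarith [ht.2], by linarith [ht.1]⟩
      simp at this
      exact this
  · obtain ⟨τ, hτ, haτ, hfτ, hle'⟩ := first_hit (f := fun t => -f (a + w₂ - t)) (a := a) (b := w₂)
      (c := -α) haw₂.le hg.continuousOn (by simp [hfw₂]; linarith) (by simp; linarith)
    refine ⟨a + w₂ - τ, w₂, by linarith [hτ.2], by linarith, hw₂.2, ?_, hfw₂, ?_⟩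
    · linarith
    · intro t ht
      refine ⟨?_, hle t ⟨by linarith [ht.1, hτ.2], ht.2⟩⟩
      have := hle' (a + w₂ - t) ⟨by linarith [ht.2], by linarith [ht.1]⟩
      simp at this
      exact this

lemma inv_cube_diff {A B : ℂ} {ρ : ℝ} (hρ : 0 < ρ) (hA : ρ ≤ ‖A‖) (hB : ρ ≤ ‖B‖) :
    ‖(1 / ‖A‖ ^ 3) • A - (1 / ‖B‖ ^ 3) • B‖ ≤ 4 * ‖A - B‖ / ρ ^ 3 := by
  have ha : 0 < ‖A‖ := hρ.trans_le hA
  have hb : 0 < ‖B‖ := hρ.trans_le hB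
  have e : (1 / ‖A‖ ^ 3) • A - (1 / ‖B‖ ^ 3) • B =
      (1 / ‖A‖ ^ 3) • (A - B) + (1 / ‖A‖ ^ 3 - 1 / ‖B‖ ^ 3) • B := by
    rw [smul_sub, sub_smul]
    abel
  have hd : |‖A‖ - ‖B‖| ≤ ‖A - B‖ := abs_norm_sub_norm_le A B
  set a := ‖A‖
  set b := ‖B‖
  set d := ‖A - B‖
  have hd0 : 0 ≤ d := norm_nonneg _
  have h1 : |1 / a ^ 3 - 1 / b ^ 3| * b ≤ 3 * d / ρ ^ 3 := by
    have e2 : (1 / a ^ 3 - 1 / b ^ 3) * b = (b - a) * (1 / (a * b ^ 2) + 1 / (a ^ 2 * b) + 1 / a ^ 3) := by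
      field_simp
      ring
    have hb' : |1 / a ^ 3 - 1 / b ^ 3| * b = |(1 / a ^ 3 - 1 / b ^ 3) * b| := by
      rw [abs_mul, abs_of_pos hb]
    rw [hb', e2, abs_mul]
    have p1 : 1 / (a * b ^ 2) ≤ 1 / ρ ^ 3 := by
      apply one_div_le_one_div_of_le (by positivity)
      calc ρ ^ 3 = ρ * ρ ^ 2 := by ring
        _ ≤ a * b ^ 2 := by gcongr
    have p2 : 1 / (a ^ 2 * b) ≤ 1 / ρ ^ 3 := by
      apply one_div_le_one_div_of_le (by positivity)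
      calc ρ ^ 3 = ρ ^ 2 * ρ := by ring
        _ ≤ a ^ 2 * b := by gcongr
    have p3 : 1 / a ^ 3 ≤ 1 / ρ ^ 3 := by
      apply one_div_le_one_div_of_le (by positivity)
      gcongr
    have p0 : 0 ≤ 1 / (a * b ^ 2) + 1 / (a ^ 2 * b) + 1 / a ^ 3 := by positivity
    rw [abs_of_nonneg p0, abs_sub_comm]
    calc |a - b| * (1 / (a * b ^ 2) + 1 / (a ^ 2 * b) + 1 / a ^ 3) ≤
          d * (1 / ρ ^ 3 + 1 / ρ ^ 3 + 1 / ρ ^ 3) := by gcongr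
      _ = 3 * d / ρ ^ 3 := by ring
  have h2 : 1 / a ^ 3 * d ≤ d / ρ ^ 3 := by
    have : 1 / a ^ 3 ≤ 1 / ρ ^ 3 := by
      apply one_div_le_one_div_of_le (by positivity)
      gcongr
    calc 1 / a ^ 3 * d ≤ 1 / ρ ^ 3 * d := by gcongr
      _ = d / ρ ^ 3 := by ring
  rw [e]
  calc ‖(1 / a ^ 3) • (A - B) + (1 / a ^ 3 - 1 / b ^ 3) • B‖ ≤
        ‖(1 / a ^ 3) • (A - B)‖ + ‖(1 / a ^ 3 - 1 / b ^ 3) • B‖ := norm_add_le _ _
    _ = 1 / a ^ 3 * d + |1 / a ^ 3 - 1 / b ^ 3| * b := by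
        rw [norm_smul, norm_smul, Real.norm_eq_abs, Real.norm_eq_abs, abs_of_pos (by positivity)]
    _ ≤ d / ρ ^ 3 + 3 * d / ρ ^ 3 := add_le_add h2 h1
    _ = 4 * d / ρ ^ 3 := by ring

/-- polarised Jacobi identity -/
lemma jacobi {m₁ m₂ m₃ : ℝ} {a b c a' b' c' : ℂ} (h : m₁ • a + m₂ • b + m₃ • c = 0)
    (h' : m₁ • a' + m₂ • b' + m₃ • c' = 0) :
    (m₁ + m₂) * (m₁ * ⟪a, a'⟫_ℝ + m₂ * ⟪b, b'⟫_ℝ + m₃ * ⟪c, c'⟫_ℝ) =
      m₁ * m₂ * ⟪b - a, b' - a'⟫_ℝ + m₃ * (m₁ + m₂ + m₃) * ⟪c, c'⟫_ℝ := by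
  have e1 : m₁ • a + m₂ • b = -(m₃ • c) := eq_neg_of_add_eq_zero_left h
  have e2 : m₁ • a' + m₂ • b' = -(m₃ • c') := eq_neg_of_add_eq_zero_left h'
  have k : ⟪m₁ • a + m₂ • b, m₁ • a' + m₂ • b'⟫_ℝ = m₃ ^ 2 * ⟪c, c'⟫_ℝ := by
    rw [e1, e2]
    simp only [inner_neg_left, inner_neg_right, inner_smul_left, inner_smul_right]
    simp
    ring
  simp only [inner_add_left, inner_add_right, inner_smul_left, inner_smul_right,
    conj_trivial] at k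
  simp only [inner_sub_left, inner_sub_right]
  linarith

namespace Data

variable (D : Data)

lemma jacI (t : ℝ) : D.S * D.I t = D.m₁ * D.m₂ * D.r t ^ 2 + D.m₃ * D.M * ‖D.q₃ t‖ ^ 2 := by
  have := jacobi (D.cm t) (D.cm t)
  simp only [real_inner_self_eq_norm_sq] at this
  exact this

lemma jacK (t : ℝ) : D.S * D.K t = D.m₁ * D.m₂ * ‖D.v t‖ ^ 2 + D.m₃ * D.M * ‖D.p₃ t‖ ^ 2 := by
  have := jacobi (D.mo t) (D.mo t)
  simp only [real_inner_self_eq_norm_sq] at this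
  exact this

lemma jacG (t : ℝ) : D.S * D.G t = D.m₁ * D.m₂ * ⟪D.x t, D.v t⟫_ℝ + D.m₃ * D.M * ⟪D.q₃ t, D.p₃ t⟫_ℝ :=
  jacobi (D.cm t) (D.mo t)

lemma q31 (t : ℝ) : D.S • (D.q₃ t - D.q₁ t) = D.M • D.q₃ t + D.m₂ • D.x t := by
  have h := D.cm t
  unfold S M x
  have e : (D.m₁ + D.m₂) • (D.q₃ t - D.q₁ t) - ((D.m₁ + D.m₂ + D.m₃) • D.q₃ t +
      D.m₂ • (D.q₂ t - D.q₁ t)) = -(D.m₁ • D.q₁ t + D.m₂ • D.q₂ t + D.m₃ • D.q₃ t) := by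
    module
  rw [h, neg_zero] at e
  exact sub_eq_zero.1 e

lemma q32 (t : ℝ) : D.S • (D.q₃ t - D.q₂ t) = D.M • D.q₃ t - D.m₁ • D.x t := by
  have h := D.cm t
  unfold S M x
  have e : (D.m₁ + D.m₂) • (D.q₃ t - D.q₂ t) - ((D.m₁ + D.m₂ + D.m₃) • D.q₃ t -
      D.m₁ • (D.q₂ t - D.q₁ t)) = -(D.m₁ • D.q₁ t + D.m₂ • D.q₂ t + D.m₃ • D.q₃ t) := by
    module
  rw [h, neg_zero] at e
  exact sub_eq_zero.1 e

lemma norm_x (t : ℝ) : ‖D.x t‖ = D.r t := rfl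

lemma q31_ge (t : ℝ) : ‖D.q₃ t‖ - D.r t ≤ ‖D.q₃ t - D.q₁ t‖ := by
  have h := D.q31 t
  have hS := D.S_pos
  have h1 := D.h1
  have h2 := D.h2
  have h3 := D.h3
  have hn : D.S * ‖D.q₃ t - D.q₁ t‖ = ‖D.M • D.q₃ t + D.m₂ • D.x t‖ := by
    rw [← h, norm_smul, Real.norm_eq_abs, abs_of_pos hS]
  have hge : D.M * ‖D.q₃ t‖ - D.m₂ * D.r t ≤ ‖D.M • D.q₃ t + D.m₂ • D.x t‖ := by
    have := norm_sub_le (D.M • D.q₃ t + D.m₂ • D.x t) (D.m₂ • D.x t)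
    rw [add_sub_cancel_right, norm_smul, norm_smul, Real.norm_eq_abs, Real.norm_eq_abs,
      abs_of_pos D.M_pos, abs_of_pos h2, norm_x] at this
    linarith
  have hr := D.r_pos t
  have hq := norm_nonneg (D.q₃ t)
  have hM : D.S ≤ D.M := by unfold S M; linarith
  have hm : D.m₂ ≤ D.S := by unfold S; linarith
  have a1 : D.S * ‖D.q₃ t‖ ≤ D.M * ‖D.q₃ t‖ := mul_le_mul_of_nonneg_right hM hq
  have a2 : D.m₂ * D.r t ≤ D.S * D.r t := mul_le_mul_of_nonneg_right hm hr.le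
  have : D.S * (‖D.q₃ t‖ - D.r t) ≤ D.S * ‖D.q₃ t - D.q₁ t‖ := by linarith
  exact le_of_mul_le_mul_left this hS

lemma q32_ge (t : ℝ) : ‖D.q₃ t‖ - D.r t ≤ ‖D.q₃ t - D.q₂ t‖ := by
  have h := D.q32 t
  have hS := D.S_pos
  have h1 := D.h1
  have h2 := D.h2
  have h3 := D.h3
  have hn : D.S * ‖D.q₃ t - D.q₂ t‖ = ‖D.M • D.q₃ t - D.m₁ • D.x t‖ := by
    rw [← h, norm_smul, Real.norm_eq_abs, abs_of_pos hS]
  have hge : D.M * ‖D.q₃ t‖ - D.m₁ * D.r t ≤ ‖D.M • D.q₃ t - D.m₁ • D.x t‖ := by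
    have := norm_sub_norm_le (D.M • D.q₃ t) (D.m₁ • D.x t)
    rw [norm_smul, norm_smul, Real.norm_eq_abs, Real.norm_eq_abs,
      abs_of_pos D.M_pos, abs_of_pos h1, norm_x] at this
    linarith
  have hr := D.r_pos t
  have hq := norm_nonneg (D.q₃ t)
  have hM : D.S ≤ D.M := by unfold S M; linarith
  have hm : D.m₁ ≤ D.S := by unfold S; linarith
  have a1 : D.S * ‖D.q₃ t‖ ≤ D.M * ‖D.q₃ t‖ := mul_le_mul_of_nonneg_right hM hq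
  have a2 : D.m₁ * D.r t ≤ D.S * D.r t := mul_le_mul_of_nonneg_right hm hr.le
  have : D.S * (‖D.q₃ t‖ - D.r t) ≤ D.S * ‖D.q₃ t - D.q₂ t‖ := by linarith
  exact le_of_mul_le_mul_left this hS

lemma hasDerivAt_x (t : ℝ) : HasDerivAt D.x (D.v t) t := (D.d2 t).sub (D.d1 t)

lemma hasDerivAt_r (t : ℝ) : HasDerivAt D.r (⟪D.x t, D.v t⟫_ℝ / D.r t) t :=
  hasDerivAt_norm (D.hasDerivAt_x t) (sub_ne_zero.2 (D.n21 t))

/-- relative acceleration of the first pair -/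
noncomputable def acc (t : ℝ) : ℂ := -(D.S / D.r t ^ 3) • D.x t + D.P t

lemma hasDerivAt_v (t : ℝ) : HasDerivAt D.v (D.acc t) t := by
  refine ((D.a2 t).sub (D.a1 t)).congr_deriv ?_
  unfold acc P S x r
  module

lemma hasDerivAt_e (t : ℝ) : HasDerivAt D.e (⟪D.v t, D.P t⟫_ℝ) t := by
  have h1 := ((D.hasDerivAt_v t).norm_sq).div_const 2
  have hr := D.r_pos t
  have h2 := ((D.hasDerivAt_r t).inv hr.ne').const_mul D.S
  have h3 := h1.sub h2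
  have e : D.e = fun t => ‖D.v t‖ ^ 2 / 2 - D.S * (D.r t)⁻¹ := by
    funext s
    rw [Data.e, div_eq_mul_inv D.S]
  rw [e]
  refine h3.congr_deriv ?_
  unfold acc
  simp only [inner_add_right, inner_smul_right]
  rw [real_inner_comm (D.x t) (D.v t)]
  field_simp
  ring

end Data

/-- masses of the data -/
def HasMass (D : Data) (m₁ m₂ m₃ : ℝ) : Prop := D.m₁ = m₁ ∧ D.m₂ = m₂ ∧ D.m₃ = m₃

/-- geometry of close pairs -/
lemma geom {m₁ m₂ m₃ : ℝ} (h1 : 0 < m₁) (h2 : 0 < m₂) (h3 : 0 < m₃) :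
    ∃ ε > 0, ∃ c > 0, ∀ D : Data, HasMass D m₁ m₂ m₃ → ∀ t, D.r t ≤ ε * D.R t →
      c * D.R t ≤ ‖D.q₃ t - D.q₁ t‖ ∧ c * D.R t ≤ ‖D.q₃ t - D.q₂ t‖ ∧ c * D.R t ≤ ‖D.q₃ t‖ := by
  set S := m₁ + m₂ with hS
  set M := m₁ + m₂ + m₃ with hM
  have hSp : 0 < S := by positivity
  have hMp : 0 < M := by positivity
  set c₀ := √(S / (2 * m₃ * M)) with hc₀
  have hc₀p : 0 < c₀ := Real.sqrt_pos.2 (by positivity)
  have hc₀sq : c₀ ^ 2 = S / (2 * m₃ * M) := Real.sq_sqrt (by positivity)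
  set ε := min (c₀ / 2) (√(S / (2 * m₁ * m₂))) with hε
  have hεp : 0 < ε := lt_min (by positivity) (Real.sqrt_pos.2 (by positivity))
  have hε1 : ε ≤ c₀ / 2 := min_le_left _ _
  have hε2 : ε ^ 2 ≤ S / (2 * m₁ * m₂) := by
    have h := min_le_right (c₀ / 2) (√(S / (2 * m₁ * m₂)))
    calc ε ^ 2 ≤ (√(S / (2 * m₁ * m₂))) ^ 2 := pow_le_pow_left₀ hεp.le h 2
      _ = S / (2 * m₁ * m₂) := Real.sq_sqrt (by positivity)
  refine ⟨ε, hεp, c₀ / 2, by positivity, ?_⟩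
  rintro D ⟨e1, e2, e3⟩ t hr
  have hR := D.R_pos t
  have hj := D.jacI t
  have hrp := D.r_pos t
  rw [← D.R_sq] at hj
  unfold Data.S Data.M at hj
  rw [e1, e2, e3] at hj
  have hr2 : D.r t ^ 2 ≤ ε ^ 2 * D.R t ^ 2 := by
    rw [← mul_pow]
    exact pow_le_pow_left₀ hrp.le hr 2
  have hkey : m₁ * m₂ * D.r t ^ 2 ≤ S / 2 * D.R t ^ 2 := by
    have : m₁ * m₂ * ε ^ 2 ≤ S / 2 := by
      have := mul_le_mul_of_nonneg_left hε2 (by positivity : 0 ≤ m₁ * m₂)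
      calc m₁ * m₂ * ε ^ 2 ≤ m₁ * m₂ * (S / (2 * m₁ * m₂)) := this
        _ = S / 2 := by field_simp
    calc m₁ * m₂ * D.r t ^ 2 ≤ m₁ * m₂ * (ε ^ 2 * D.R t ^ 2) := by gcongr
      _ = (m₁ * m₂ * ε ^ 2) * D.R t ^ 2 := by ring
      _ ≤ S / 2 * D.R t ^ 2 := by gcongr
  have hq : c₀ * D.R t ≤ ‖D.q₃ t‖ := by
    have h5 : (c₀ * D.R t) ^ 2 ≤ ‖D.q₃ t‖ ^ 2 := by
      rw [mul_pow, hc₀sq]
      have : S / 2 * D.R t ^ 2 ≤ m₃ * M * ‖D.q₃ t‖ ^ 2 := by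
        have : (m₁ + m₂) * D.R t ^ 2 = S * D.R t ^ 2 := rfl
        linarith
      rw [div_mul_eq_mul_div, div_le_iff₀ (by positivity)]
      linarith
    exact le_of_sq_le_sq h5 (norm_nonneg _)
  have hε' : D.r t ≤ c₀ / 2 * D.R t := hr.trans (by gcongr)
  have a1 := D.q31_ge t
  have a2 := D.q32_ge t
  refine ⟨by linarith, by linarith, ?_⟩
  have : 0 < c₀ * D.R t := by positivity
  linarith

lemma tidal {D : Data} {c : ℝ} (hc : 0 < c) {t : ℝ} (h1 : c * D.R t ≤ ‖D.q₃ t - D.q₁ t‖)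
    (h2 : c * D.R t ≤ ‖D.q₃ t - D.q₂ t‖) : ‖D.P t‖ ≤ 4 * D.m₃ / c ^ 3 * (D.r t / D.R t ^ 3) := by
  have hR := D.R_pos t
  have h3 := D.h3
  unfold Data.P
  rw [norm_smul, Real.norm_eq_abs, abs_of_pos h3]
  have key := inv_cube_diff (by positivity : 0 < c * D.R t) h2 h1
  have e : D.q₃ t - D.q₂ t - (D.q₃ t - D.q₁ t) = -(D.q₂ t - D.q₁ t) := by ring
  rw [e, norm_neg] at key
  calc D.m₃ * _ ≤ D.m₃ * (4 * ‖D.q₂ t - D.q₁ t‖ / (c * D.R t) ^ 3) := by gcongr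
    _ = 4 * D.m₃ / c ^ 3 * (D.r t / D.R t ^ 3) := by
      unfold Data.r
      field_simp

end Pool.Agent.H310.Three
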