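import Pool.Agent.H310.Three.Sys

/-!
Regimes and the counting argument.
-/

open Filter Topology Set
open scoped InnerProductSpace

namespace Pool.Agent.H310.Three

variable {m : Fin 3 → ℝ}

/-- a time interval with a clock in which every change of eclipse label costs a definite amount,
unless a pair stays close -/
structure Regime (S : Sys m) (F : ℝ → ℝ) (J : Set ℝ) (δ c CM : ℝ) (B : ℕ) : Prop where
  ord : J.OrdConnected
  mono : ∀ s t, s ≤ t → F s ≤ F t
  tot : ∀ s ∈ J, ∀ t ∈ J, F t - F s ≤ CM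
  cX : ∀ i j k : Fin 3, i ≠ j → i ≠ k → j ≠ k → ∀ s ∈ J, ∀ e ∈ J, s ≤ e →
    (∀ t ∈ Icc s e, δ / 2 * S.R t ≤ ‖S.q j t - S.q i t‖ ∧ ‖S.q j t - S.q i t‖ ≤ δ * S.R t) →
    ‖S.q j s - S.q i s‖ ≤ δ / 2 * S.R s → δ * S.R e ≤ ‖S.q j e - S.q i e‖ → c ≤ F e - F s
  cW : ∀ i j k : Fin 3, i ≠ j → i ≠ k → j ≠ k → ∀ s ∈ J, ∀ e ∈ J, s ≤ e →
    δ / 2 * S.R s ≤ ‖S.q j s - S.q i s‖ → δ / 2 * S.R s ≤ ‖S.q k s - S.q i s‖ →
    δ / 2 * S.R s ≤ ‖S.q k s - S.q j s‖ →
    2 * ⟪S.q j s - S.q i s, S.q k s - S.q i s⟫_ℝ = -(‖S.q j s - S.q i s‖ * ‖S.q k s - S.q i s‖) →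
    cr (S.q j e - S.q i e) (S.q k e - S.q i e) = 0 → c ≤ F e - F s
  cV : ∀ i j k : Fin 3, i ≠ j → i ≠ k → j ≠ k → ∀ (n : ℕ) (u : ℕ → ℝ) (l : ℕ → Fin 3),
    (∀ x < n, u x ≤ u (x + 1)) → u 0 ∈ J → u n ∈ J →
    (∀ t ∈ Icc (u 0) (u n), ‖S.q j t - S.q i t‖ ≤ δ * S.R t) →
    (∀ x ≤ n, S.Ecl (l x) (u x)) → (∀ x < n, l x ≠ l (x + 1)) → n < B

lemma exists_others (i : Fin 3) : ∃ j k : Fin 3, i ≠ j ∧ i ≠ k ∧ j ≠ k := by
  revert i
  decide

/-- any third label -/
lemma exists_third {i j : Fin 3} (h : i ≠ j) : ∃ k : Fin 3, i ≠ k ∧ j ≠ k := by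
  revert i j
  decide

lemma others_cases {i j l : Fin 3} (hij : i ≠ j) {k : Fin 3} (hik : i ≠ k) (hjk : j ≠ k) :
    l = i ∨ l = j ∨ l = k := by
  revert i j l k
  decide

namespace Sys

variable (S : Sys m)

lemma continuous_q (i : Fin 3) : Continuous (S.q i) :=
  continuous_iff_continuousAt.2 fun t => (S.dq i t).continuousAt

lemma continuous_R : Continuous S.R := by
  rw [← D0_R]
  exact S.D0.continuous_R

/-- an eclipse with a different label is collinear with angle zero at `i` -/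
lemma Ecl.other {l i j k : Fin 3} {t : ℝ} (hl : l ≠ i) (h : S.Ecl l t) (hij : i ≠ j) (hik : i ≠ k)
    (hjk : j ≠ k) : ⟪S.q j t - S.q i t, S.q k t - S.q i t⟫_ℝ =
      ‖S.q j t - S.q i t‖ * ‖S.q k t - S.q i t‖ := by
  rcases others_cases (l := l) hij hik hjk with h1 | h1 | h1
  · exact absurd h1 hl
  · subst h1
    exact (seg_other (h i k hij.symm hjk hik)).1
  · subst h1
    have := (seg_other (h i j hik.symm hjk.symm hij)).1
    rw [real_inner_comm, this]
    ring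

lemma Ecl.cr_zero {l i j k : Fin 3} {t : ℝ} (h : S.Ecl l t) (hij : i ≠ j) (hik : i ≠ k)
    (hjk : j ≠ k) : cr (S.q j t - S.q i t) (S.q k t - S.q i t) = 0 := by
  rcases others_cases (l := l) hij hik hjk with h1 | h1 | h1
  · subst h1
    exact (seg_vertex (h j k hij hik hjk)).2
  · subst h1
    exact (seg_other (h i k hij.symm hjk hik)).2
  · subst h1
    have := (seg_other (h i j hik.symm hjk.symm hij)).2
    rw [cr_swap, this, neg_zero]

end Sys

variable {S : Sys m} {F : ℝ → ℝ} {J : Set ℝ} {δ c CM : ℝ} {B : ℕ}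

/-- cost of a separation of a close pair -/
lemma Regime.sep (h : Regime S F J δ c CM B) (hδ : 0 < δ) {i j k : Fin 3} (hij : i ≠ j) (hik : i ≠ k)
    (hjk : j ≠ k) {s e : ℝ} (hs : s ∈ J) (he : e ∈ J) (hse : s ≤ e)
    (h1 : ‖S.q j s - S.q i s‖ ≤ δ / 2 * S.R s) (h2 : δ * S.R e ≤ ‖S.q j e - S.q i e‖) :
    c ≤ F e - F s := by
  have hcont : Continuous fun t => ‖S.q j t - S.q i t‖ / S.R t :=
    (((S.continuous_q j).sub (S.continuous_q i)).norm).div S.continuous_R fun t => (S.R_pos t).ne'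
  obtain ⟨w₁, w₂, a1, a2, a3, a4, a5, a6⟩ := crossing (α := δ / 2) (β := δ) hse hcont (by linarith)
    (by rw [div_le_iff₀ (S.R_pos s)]; exact h1) (by rw [le_div_iff₀ (S.R_pos e)]; exact h2)
  have hw₁ : w₁ ∈ J := h.ord.out hs he ⟨a1, a2.le.trans a3⟩
  have hw₂ : w₂ ∈ J := h.ord.out hs he ⟨a1.trans a2.le, a3⟩
  have key := h.cX i j k hij hik hjk w₁ hw₁ w₂ hw₂ a2.le
    (fun t ht => ⟨by
      have := (a6 t ht).1
      rwa [le_div_iff₀ (S.R_pos t)] at this, by
      have := (a6 t ht).2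
      rwa [div_le_iff₀ (S.R_pos t)] at this⟩)
    (by rw [div_eq_iff (S.R_pos w₁).ne'] at a4; exact a4.le)
    (by rw [div_eq_iff (S.R_pos w₂).ne'] at a5; exact a5.ge)
  have m1 := h.mono _ _ a1
  have m2 := h.mono _ _ a3
  linarith

/-- every block of `B + 1` changes of label costs `c` -/
lemma Regime.block (h : Regime S F J δ c CM B) (hδ : 0 < δ) {u : ℕ → ℝ} {l : ℕ → Fin 3}
    (hu : ∀ x < B + 1, u x < u (x + 1)) (huJ : ∀ x ≤ B + 1, u x ∈ J)
    (hE : ∀ x ≤ B + 1, S.Ecl (l x) (u x)) (hl : ∀ x < B + 1, l x ≠ l (x + 1)) :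
    c ≤ F (u (B + 1)) - F (u 0) := by
  obtain ⟨j, k, hij, hik, hjk⟩ := exists_others (l 0)
  set i := l 0 with hi
  have hmono : ∀ x y, x ≤ y → y ≤ B + 1 → u x ≤ u y := by
    intro x y hxy
    induction y, hxy using Nat.le_induction with
    | base => intro _; exact le_refl _
    | succ y hxy ih =>
      intro hy
      exact (ih (by omega)).trans (hu y (by omega)).le
  -- intermediate time
  have hcont : Continuous fun t => 2 * ⟪S.q j t - S.q i t, S.q k t - S.q i t⟫_ℝ +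
      ‖S.q j t - S.q i t‖ * ‖S.q k t - S.q i t‖ := by
    have c1 := (S.continuous_q j).sub (S.continuous_q i)
    have c2 := (S.continuous_q k).sub (S.continuous_q i)
    exact (continuous_const.mul (c1.inner c2)).add (c1.norm.mul c2.norm)
  have hpos : ∀ t, 0 < ‖S.q j t - S.q i t‖ * ‖S.q k t - S.q i t‖ := fun t =>
    mul_pos (norm_pos_iff.2 (sub_ne_zero.2 (S.nq j i hij.symm t)))
      (norm_pos_iff.2 (sub_ne_zero.2 (S.nq k i hik.symm t)))
  have h0 := (seg_vertex (hE 0 (by omega) j k hij hik hjk)).1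
  rw [← hi] at h0
  have h1 := Sys.Ecl.other S (hl 0 (by omega)).symm (hE 1 (by omega)) hij hik hjk
  have hivt := intermediate_value_Icc (hu 0 (by omega)).le hcont.continuousOn
  have hz : (0:ℝ) ∈ Icc (2 * ⟪S.q j (u 0) - S.q i (u 0), S.q k (u 0) - S.q i (u 0)⟫_ℝ +
      ‖S.q j (u 0) - S.q i (u 0)‖ * ‖S.q k (u 0) - S.q i (u 0)‖)
      (2 * ⟪S.q j (u (0 + 1)) - S.q i (u (0 + 1)), S.q k (u (0 + 1)) - S.q i (u (0 + 1))⟫_ℝ +
      ‖S.q j (u (0 + 1)) - S.q i (u (0 + 1))‖ * ‖S.q k (u (0 + 1)) - S.q i (u (0 + 1))‖) := by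
    constructor
    · rw [h0]
      have := hpos (u 0)
      linarith
    · have h1' : ⟪S.q j (u (0 + 1)) - S.q i (u (0 + 1)), S.q k (u (0 + 1)) - S.q i (u (0 + 1))⟫_ℝ =
        ‖S.q j (u (0 + 1)) - S.q i (u (0 + 1))‖ * ‖S.q k (u (0 + 1)) - S.q i (u (0 + 1))‖ := h1
      rw [h1']
      have := hpos (u (0 + 1))
      linarith
  obtain ⟨s, hs, hs0⟩ := hivt hz
  simp only at hs0
  have hsJ : s ∈ J := h.ord.out (huJ 0 (by omega)) (huJ 1 (by omega)) hs
  have hF1 : F (u (0 + 1)) ≤ F (u (B + 1)) := h.mono _ _ (hmono 1 (B + 1) (by omega) le_rfl)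
  have hF0 : F (u 0) ≤ F s := h.mono _ _ hs.1
  -- a deep pair gives a separation, or contradicts closeness
  have deep : ∀ i' j' k' : Fin 3, i' ≠ j' → i' ≠ k' → j' ≠ k' →
      ‖S.q j' s - S.q i' s‖ < δ / 2 * S.R s → c ≤ F (u (B + 1)) - F (u 0) := by
    intro i' j' k' h1 h2 h3 hd
    by_cases hsep : ∃ e ∈ Icc s (u (B + 1)), δ * S.R e ≤ ‖S.q j' e - S.q i' e‖
    · obtain ⟨e, he, hde⟩ := hsep
      have heJ : e ∈ J := h.ord.out hsJ (huJ (B + 1) le_rfl) he
      have := h.sep hδ h1 h2 h3 hsJ heJ he.1 hd.le hde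
      have m1 := h.mono _ _ he.2
      linarith
    · exfalso
      push Not at hsep
      have := h.cV i' j' k' h1 h2 h3 B (fun x => u (x + 1)) (fun x => l (x + 1))
        (fun x hx => (hu (x + 1) (by omega)).le) (huJ 1 (by omega)) (huJ (B + 1) le_rfl)
        (fun t ht => (hsep t ⟨hs.2.trans ht.1, ht.2⟩).le)
        (fun x hx => hE (x + 1) (by omega)) (fun x hx => hl (x + 1) (by omega))
      omega
  by_cases d1 : ‖S.q j s - S.q i s‖ < δ / 2 * S.R s
  · exact deep i j k hij hik hjk d1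
  by_cases d2 : ‖S.q k s - S.q i s‖ < δ / 2 * S.R s
  · exact deep i k j hik hij hjk.symm d2
  by_cases d3 : ‖S.q k s - S.q j s‖ < δ / 2 * S.R s
  · exact deep j k i hjk hij.symm hik.symm d3
  have := h.cW i j k hij hik hjk s hsJ (u (0 + 1)) (huJ 1 (by omega)) hs.2 (not_lt.1 d1) (not_lt.1 d2)
    (not_lt.1 d3) (by linarith) (Sys.Ecl.cr_zero S (hE 1 (by omega)) hij hik hjk)
  linarith

/-- the counting argument -/
theorem Regime.chain (h : Regime S F J δ c CM B) (hδ : 0 < δ) (hc : 0 < c) {N : ℕ}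
    (hN : CM / c < N) : S.ChainBound J ((B + 1) * N) := by
  intro n u l hu huJ hE hl
  by_contra hcon
  push Not at hcon
  have key : ∀ k : ℕ, k ≤ N → (k : ℝ) * c ≤ F (u ((B + 1) * k)) - F (u 0) := by
    intro k
    induction k with
    | zero => intro _; simp
    | succ k ih =>
      intro hk
      have h1 := ih (by omega)
      have hle : (B + 1) * (k + 1) ≤ n := by
        have : (B + 1) * (k + 1) ≤ (B + 1) * N := Nat.mul_le_mul_left _ hk
        omega
      have hle' : (B + 1) * k + (B + 1) ≤ n := by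
        have : (B + 1) * (k + 1) = (B + 1) * k + (B + 1) := by ring
        omega
      have h2 := h.block hδ (u := fun x => u ((B + 1) * k + x)) (l := fun x => l ((B + 1) * k + x))
        (fun x hx => hu _ (by omega)) (fun x hx => huJ _ (by omega)) (fun x hx => hE _ (by omega))
        (fun x hx => hl _ (by omega))
      simp only [add_zero] at h2
      have e : (B + 1) * k + (B + 1) = (B + 1) * (k + 1) := by ring
      rw [e] at h2
      push_cast
      linarith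
  have h1 := key N le_rfl
  have h2 := h.tot (u 0) (huJ 0 (by omega)) (u ((B + 1) * N)) (huJ _ (by omega))
  rw [div_lt_iff₀ hc] at hN
  linarith

end Pool.Agent.H310.Three
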