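import Pool.Agent.H310.Three.Window

/-!
Costs in the second phase.
-/

open Filter Topology Set
open scoped InnerProductSpace

namespace Pool.Agent.H310.Three

/-- speed constant -/
noncomputable def KH (m₁ m₂ m₃ δ : ℝ) : ℝ :=
  2 * √(2 * ((m₁ * m₂ + m₁ * m₃ + m₂ * m₃) * 4 / δ)) + 4

namespace Data

variable (D : Data) {m₁ m₂ m₃ : ℝ}

lemma J2_le_H {a t : ℝ} (ha : 0 ≤ D.G a) (hat : a ≤ t) :
    D.J2 t ≤ 2 * D.I t * D.U t + 2 * D.E * D.I a := by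
  have h := sub_le_sub_of_deriv_le (f := fun _ => (0:ℝ)) (g := fun s => D.G s ^ 2 / 2 - D.E * D.I s)
    (f' := fun _ => 0) (g' := fun s => D.G s * D.U s) hat
    (fun u _ => hasDerivAt_const u 0)
    (fun u _ => by
      have h1 := (((D.hasDerivAt_G u).pow 2).div_const 2).sub ((D.hasDerivAt_I u).const_mul D.E)
      refine h1.congr_deriv ?_
      simp
      ring)
    (fun u hu => mul_nonneg (ha.trans (D.G_mono hu.1)) (D.U_pos u).le)
  have h2 := D.J2_eq t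
  have h3 : 0 ≤ D.G a ^ 2 := sq_nonneg _
  rw [h2]
  linarith

lemma sp_H {δ a t : ℝ} (hδ : 0 < δ) (hm : HasMass D m₁ m₂ m₃) (ha : 0 ≤ D.G a) (hER : 1 ≤ D.E * D.R a)
    (hat : a ≤ t) (r1 : δ / 4 * D.R t ≤ ‖D.q₂ t - D.q₁ t‖) (r2 : δ / 4 * D.R t ≤ ‖D.q₃ t - D.q₁ t‖)
    (r3 : δ / 4 * D.R t ≤ ‖D.q₃ t - D.q₂ t‖) :
    D.sp t ≤ KH m₁ m₂ m₃ δ * D.X' a t := by
  obtain ⟨e1, e2, e3⟩ := hm
  subst e1 e2 e3
  have h1 := D.h1
  have h2 := D.h2
  have h3 := D.h3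
  have hE := D.hE
  have hR := D.R_pos t
  have hRa := D.R_pos a
  have hw := D.w_pos t
  have hX := D.X'_pos a t
  set CU := (D.m₁ * D.m₂ + D.m₁ * D.m₃ + D.m₂ * D.m₃) * 4 / δ with hCU
  have hCUp : 0 < CU := by positivity
  have hU : D.U t ≤ CU / D.R t := by
    unfold U
    have k1 : D.m₁ * D.m₂ / ‖D.q₂ t - D.q₁ t‖ ≤ D.m₁ * D.m₂ / (δ / 4 * D.R t) := by gcongr
    have k2 : D.m₁ * D.m₃ / ‖D.q₃ t - D.q₁ t‖ ≤ D.m₁ * D.m₃ / (δ / 4 * D.R t) := by gcongr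
    have k3 : D.m₂ * D.m₃ / ‖D.q₃ t - D.q₂ t‖ ≤ D.m₂ * D.m₃ / (δ / 4 * D.R t) := by gcongr
    calc _ ≤ D.m₁ * D.m₂ / (δ / 4 * D.R t) + D.m₁ * D.m₃ / (δ / 4 * D.R t) +
          D.m₂ * D.m₃ / (δ / 4 * D.R t) := by linarith
      _ = CU / D.R t := by rw [hCU]; field_simp
  have hJ := D.J2_le_H ha hat
  have hJ' : √(D.J2 t) ≤ √(2 * CU) * D.w t + √(2 * D.E) * D.R a := by
    apply Real.sqrt_le_iff.2
    refine ⟨by positivity, ?_⟩
    have k4 : 2 * D.I t * D.U t ≤ 2 * CU * D.w t ^ 2 := by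
      calc 2 * D.I t * D.U t ≤ 2 * D.I t * (CU / D.R t) := by
            have := D.I_pos t
            gcongr
        _ = 2 * CU * D.w t ^ 2 := by
          rw [← D.R_sq, D.w_sq]
          field_simp
    have k5 : √(2 * CU) ^ 2 = 2 * CU := Real.sq_sqrt (by positivity)
    have k6 : √(2 * D.E) ^ 2 = 2 * D.E := Real.sq_sqrt (by positivity)
    have k7 : 0 ≤ √(2 * CU) * D.w t * (√(2 * D.E) * D.R a) := by positivity
    have k8 : (√(2 * CU) * D.w t + √(2 * D.E) * D.R a) ^ 2 = √(2 * CU) ^ 2 * D.w t ^ 2 +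
        √(2 * D.E) ^ 2 * D.R a ^ 2 + 2 * (√(2 * CU) * D.w t * (√(2 * D.E) * D.R a)) := by ring
    rw [k8, k5, k6, D.R_sq]
    linarith
  have hw3 : 1 / D.w t ^ 3 ≤ 2 * D.X' a t := by
    refine (D.inv_w3_le ha hat).trans ?_
    have h3 : √2 ≤ √(2 * D.E * D.R a) := Real.sqrt_le_sqrt (by nlinarith)
    have h4 : 0 < √2 := Real.sqrt_pos.2 (by norm_num)
    have : 2 * √2 / √(2 * D.E * D.R a) ≤ 2 := by
      rw [div_le_iff₀ (by linarith)]
      linarith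
    gcongr
  have hs2E : 0 < √(2 * D.E) := Real.sqrt_pos.2 (by positivity)
  have hR2 : √(2 * D.E) * D.R a * (1 / D.R t ^ 2) ≤ 4 * D.X' a t := by
    have k1 := D.V_div_R2_le ha hat
    have k2 := D.one_le_V hat
    have k3 : 1 / D.R t ^ 2 ≤ D.V a t / D.R t ^ 2 := by gcongr
    calc √(2 * D.E) * D.R a * (1 / D.R t ^ 2) ≤
          √(2 * D.E) * D.R a * (4 / (√(2 * D.E) * D.R a) * D.X' a t) := by
          gcongr
          exact k3.trans k1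
      _ = 4 * D.X' a t := by field_simp
  unfold sp
  have hIw : D.I t = D.w t ^ 4 := by rw [← D.R_sq, ← D.w_sq]; ring
  have hRw : D.R t = D.w t ^ 2 := (D.w_sq t).symm
  calc √(D.J2 t) / D.I t ≤ (√(2 * CU) * D.w t + √(2 * D.E) * D.R a) / D.I t := by
        have := D.I_pos t
        gcongr
    _ = √(2 * CU) * (1 / D.w t ^ 3) + √(2 * D.E) * D.R a * (1 / D.R t ^ 2) := by
      rw [hIw, hRw]
      field_simp
    _ ≤ √(2 * CU) * (2 * D.X' a t) + 4 * D.X' a t := by gcongr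
    _ = KH D.m₁ D.m₂ D.m₃ δ * D.X' a t := by
      unfold KH
      ring

/-- the largest displacement -/
noncomputable def dis (a t : ℝ) : ℝ :=
  max (√D.m₁ * ‖D.s₁ t - D.s₁ a‖) (max (√D.m₂ * ‖D.s₂ t - D.s₂ a‖) (√D.m₃ * ‖D.s₃ t - D.s₃ a‖))

lemma near_iff (η a t : ℝ) : D.Near η a t ↔ D.dis a t ≤ η := by
  unfold Near dis
  rw [max_le_iff, max_le_iff]

lemma continuous_dis (a : ℝ) : Continuous (D.dis a) := by
  have c1 : Continuous D.s₁ := continuous_iff_continuousAt.2 fun t => (D.hasDerivAt_s (D.d1 t)).continuousAt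
  have c2 : Continuous D.s₂ := continuous_iff_continuousAt.2 fun t => (D.hasDerivAt_s (D.d2 t)).continuousAt
  have c3 : Continuous D.s₃ := continuous_iff_continuousAt.2 fun t => (D.hasDerivAt_s (D.d3 t)).continuousAt
  unfold dis
  fun_prop

end Data

/-- cost in the second phase of going from an obtuse angle to collinearity -/
theorem W_H {m₁ m₂ m₃ δ : ℝ} (h1 : 0 < m₁) (h2 : 0 < m₂) (h3 : 0 < m₃) (hδ : 0 < δ) :
    ∃ c > 0, ∀ D : Data, HasMass D m₁ m₂ m₃ →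
      ∀ t₁ a e, t₁ ≤ a → a ≤ e → 0 ≤ D.G t₁ → 1 ≤ D.E * D.R t₁ →
      δ / 2 * D.R a ≤ ‖D.q₂ a - D.q₁ a‖ → δ / 2 * D.R a ≤ ‖D.q₃ a - D.q₁ a‖ →
      δ / 2 * D.R a ≤ ‖D.q₃ a - D.q₂ a‖ →
      2 * ⟪D.q₂ a - D.q₁ a, D.q₃ a - D.q₁ a⟫_ℝ = -(‖D.q₂ a - D.q₁ a‖ * ‖D.q₃ a - D.q₁ a‖) →
      cr (D.q₂ e - D.q₁ e) (D.q₃ e - D.q₁ e) = 0 →
      c ≤ D.X t₁ e - D.X t₁ a := by
  have hμ := Data.mu_pos h1 h2 h3
  set μ := mu m₁ m₂ m₃ with hμdef
  set a0 := δ ^ 2 / 8 with ha0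
  have ha0p : 0 < a0 := by positivity
  set η := min (a0 / (64 * μ ^ 2)) (δ / (16 * μ)) with hη
  have hηp : 0 < η := lt_min (by positivity) (by positivity)
  set K := KH m₁ m₂ m₃ δ with hK
  have hKp : 0 < K := by rw [hK]; unfold KH; positivity
  refine ⟨η / K, by positivity, ?_⟩
  intro D hm t₁ a e ht₁a hae hG hER hr1 hr2 hr3 hang hcol
  obtain ⟨hA, hB⟩ := D.obtuse hδ hr1 hr2 hang
  have hlip : ∀ t, D.Near η a t → |D.Ar t - D.Ar a| ≤ a0 / 2 := by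
    intro t ht
    have k1 := Data.Near.Ar_lip D hm ht
    rw [← hμdef] at k1
    have k3 : 8 * μ ^ 2 * η ≤ a0 / 2 := by
      have : η ≤ a0 / (64 * μ ^ 2) := min_le_left _ _
      calc 8 * μ ^ 2 * η ≤ 8 * μ ^ 2 * (a0 / (64 * μ ^ 2)) := by gcongr
        _ = a0 / 8 := by field_simp; norm_num
        _ ≤ a0 / 2 := by linarith
    linarith
  have hnn : ¬ D.Near η a e := by
    intro hn
    have := hlip e hn
    have hAe : D.Ar e = 0 := by rw [D.Ar_eq, hcol, zero_div]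
    rw [hAe, zero_sub, abs_neg] at this
    linarith
  rw [D.near_iff] at hnn
  push Not at hnn
  have hself : D.dis a a < η := by
    unfold Data.dis
    simp [hηp]
  obtain ⟨τ, hτ, haτ, hfτ, hle⟩ := first_hit hae (D.continuous_dis a).continuousOn hself hnn.le
  have hnear : ∀ t ∈ Icc a τ, D.Near η a t := fun t ht => (D.near_iff _ _ _).2 (hle t ht)
  have hfar : ∀ t ∈ Icc a τ, δ / 4 * D.R t ≤ ‖D.q₂ t - D.q₁ t‖ ∧ δ / 4 * D.R t ≤ ‖D.q₃ t - D.q₁ t‖ ∧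
      δ / 4 * D.R t ≤ ‖D.q₃ t - D.q₂ t‖ := by
    intro t ht
    obtain ⟨n1, n2, n3⟩ := Data.Near.le D hm (hnear t ht)
    rw [← hμdef] at n1 n2 n3
    have hRa := D.R_pos a
    have hRt := D.R_pos t
    have k0 : μ * η ≤ δ / 16 := by
      have : η ≤ δ / (16 * μ) := min_le_right _ _
      calc μ * η ≤ μ * (δ / (16 * μ)) := by gcongr
        _ = δ / 16 := by field_simp
    have key : ∀ x y x' y' : ℂ, δ / 2 ≤ ‖x - y‖ → ‖x' - x‖ ≤ μ * η → ‖y' - y‖ ≤ μ * η →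
        δ / 4 ≤ ‖x' - y'‖ := by
      intro x y x' y' h1 h2 h3
      have e : x - y = (x' - y') - ((x' - x) - (y' - y)) := by ring
      have h4 : ‖x - y‖ ≤ ‖x' - y'‖ + (‖x' - x‖ + ‖y' - y‖) := by
        rw [e]
        exact (norm_sub_le _ _).trans (by gcongr; exact norm_sub_le _ _)
      linarith
    refine ⟨?_, ?_, ?_⟩
    · rw [← le_div_iff₀ hRt, ← D.s21]
      refine key _ _ _ _ ?_ n2 n1
      rw [D.s21, le_div_iff₀ hRa]
      exact hr1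
    · rw [← le_div_iff₀ hRt, ← D.s31]
      refine key _ _ _ _ ?_ n3 n1
      rw [D.s31, le_div_iff₀ hRa]
      exact hr2
    · rw [← le_div_iff₀ hRt, ← D.s32]
      refine key _ _ _ _ ?_ n3 n2
      rw [D.s32, le_div_iff₀ hRa]
      exact hr3
  have hfin := D.near_of_clock (Z := fun t => K * D.X t₁ t) (Z' := fun t => K * D.X' t₁ t) haτ.le
    (fun t _ => (D.hasDerivAt_X t₁ t).const_mul K)
    (fun t ht => by
      obtain ⟨f1, f2, f3⟩ := hfar t ht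
      exact D.sp_H hδ hm hG hER (ht₁a.trans ht.1) f1 f2 f3)
  rw [D.near_iff, hfτ, ← mul_sub] at hfin
  have hmono := D.X_mono (a := t₁) hτ.2
  rw [div_le_iff₀ hKp]
  calc η ≤ K * (D.X t₁ τ - D.X t₁ a) := hfin
    _ ≤ K * (D.X t₁ e - D.X t₁ a) := by gcongr
    _ = _ := by ring

/-- cost in the second phase of separating a close pair -/
theorem X_H {m₁ m₂ m₃ δ C : ℝ} (h1 : 0 < m₁) (h2 : 0 < m₂) (h3 : 0 < m₃) (hδ : 0 < δ)
    (hCδ : C * δ ≤ 4) :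
    ∃ c > 0, ∀ D : Data, HasMass D m₁ m₂ m₃ →
      ∀ t₁ a e, t₁ ≤ a → a ≤ e → 0 ≤ D.G t₁ → 1 ≤ D.E * D.R t₁ →
      (∀ t ∈ Icc a e, CloseFacts C D t) → (∀ t ∈ Icc a e, δ / 2 * D.R t ≤ D.r t) →
      D.r a ≤ δ / 2 * D.R a → δ * D.R e ≤ D.r e →
      c ≤ D.X t₁ e - D.X t₁ a := by
  have hμ := Data.mu_pos h1 h2 h3
  set μ := mu m₁ m₂ m₃ with hμdef
  set K := KH m₁ m₂ m₃ δ with hK
  have hKp : 0 < K := by rw [hK]; unfold KH; positivity
  refine ⟨δ / (4 * μ * K), by positivity, ?_⟩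
  intro D hm t₁ a e ht₁a hae hG hER hcf hr hra hre
  have hfin := D.near_of_clock (Z := fun t => K * D.X t₁ t) (Z' := fun t => K * D.X' t₁ t) hae
    (fun t _ => (D.hasDerivAt_X t₁ t).const_mul K)
    (fun t ht => by
      have hRt := D.R_pos t
      have hC := (hcf t ht).C_pos
      have key : ∀ y : ℝ, 0 ≤ y → D.R t ≤ C * y → δ / 4 * D.R t ≤ y := by
        intro y hy h
        calc δ / 4 * D.R t ≤ δ / 4 * (C * y) := by gcongr
          _ = (C * δ) * y / 4 := by ring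
          _ ≤ 4 * y / 4 := by gcongr
          _ = y := by ring
      refine D.sp_H hδ hm hG hER (ht₁a.trans ht.1) ?_ (key _ (norm_nonneg _) (hcf t ht).f31)
        (key _ (norm_nonneg _) (hcf t ht).f32)
      have := hr t ht
      unfold Data.r at this
      have : δ / 4 * D.R t ≤ δ / 2 * D.R t := by
        have : 0 < δ * D.R t := by positivity
        linarith
      linarith)
  rw [← mul_sub] at hfin
  obtain ⟨n1, n2, n3⟩ := Data.Near.le D hm hfin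
  rw [← hμdef] at n1 n2
  have hRa := D.R_pos a
  have hRe := D.R_pos e
  have k1 : ‖D.s₂ a - D.s₁ a‖ ≤ δ / 2 := by
    rw [D.s21, div_le_iff₀ hRa]
    exact hra
  have k2 : δ ≤ ‖D.s₂ e - D.s₁ e‖ := by
    rw [D.s21, le_div_iff₀ hRe]
    exact hre
  have k3 : ‖D.s₂ e - D.s₁ e‖ ≤ ‖D.s₂ a - D.s₁ a‖ + 2 * (μ * (K * (D.X t₁ e - D.X t₁ a))) := by
    have e5 : D.s₂ e - D.s₁ e = (D.s₂ a - D.s₁ a) + ((D.s₂ e - D.s₂ a) - (D.s₁ e - D.s₁ a)) := by ring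
    rw [e5]
    refine (norm_add_le _ _).trans ?_
    have := norm_sub_le (D.s₂ e - D.s₂ a) (D.s₁ e - D.s₁ a)
    linarith
  rw [div_le_iff₀ (by positivity)]
  linarith

end Pool.Agent.H310.Three
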