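import Pool.Agent.H310.Three.WL
import Pool.Agent.H310.Three.WH

/-!
The labelled system and its permutations.
-/

open Filter Topology Set
open scoped InnerProductSpace

namespace Pool.Agent.H310.Three

/-- A collision-free planar three-body motion with positive energy, no pair of which collapses
relative to the size in the past or in the future. -/
structure Sys (m : Fin 3 → ℝ) where
  (E : ℝ)
  (q p : Fin 3 → ℝ → ℂ)
  hm : ∀ i, 0 < m i
  hE : 0 < E
  dq : ∀ i t, HasDerivAt (q i) (p i t) t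
  dp : ∀ a b c : Fin 3, a ≠ b → a ≠ c → b ≠ c → ∀ t,
    HasDerivAt (p a) ((m b / ‖q b t - q a t‖ ^ 3) • (q b t - q a t) +
      (m c / ‖q c t - q a t‖ ^ 3) • (q c t - q a t)) t
  nq : ∀ a b : Fin 3, a ≠ b → ∀ t, q a t ≠ q b t
  cm : ∀ t, ∑ i, m i • q i t = 0
  mo : ∀ t, ∑ i, m i • p i t = 0
  en : ∀ t, (∑ i, m i * ‖p i t‖ ^ 2) / 2 -
    (m 0 * m 1 / ‖q 1 t - q 0 t‖ + m 0 * m 2 / ‖q 2 t - q 0 t‖ + m 1 * m 2 / ‖q 2 t - q 1 t‖) = E
  nc : ∀ a b : Fin 3, a ≠ b → ¬ Tendsto (fun t => ‖q b t - q a t‖ / √(∑ i, m i * ‖q i t‖ ^ 2)) atTop (𝓝 0)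
  nc' : ∀ a b : Fin 3, a ≠ b → ¬ Tendsto (fun t => ‖q b t - q a t‖ / √(∑ i, m i * ‖q i t‖ ^ 2)) atBot (𝓝 0)

lemma sum3 {V : Type*} [AddCommMonoid V] {a b c : Fin 3} (hab : a ≠ b) (hac : a ≠ c) (hbc : b ≠ c)
    (f : Fin 3 → V) : ∑ i, f i = f a + f b + f c := by
  have h : (Finset.univ : Finset (Fin 3)) = {a, b, c} := by
    symm
    rw [Finset.eq_univ_iff_forall]
    decide +revert
  rw [h, Finset.sum_insert (by simp [hab, hac]), Finset.sum_insert (by simp [hbc]),
    Finset.sum_singleton, add_assoc]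

namespace Sys

variable {m : Fin 3 → ℝ} (S : Sys m)

/-- the data with bodies in the order `a, b, c` -/
noncomputable def mk3 (a b c : Fin 3) (hab : a ≠ b) (hac : a ≠ c) (hbc : b ≠ c) : Data where
  m₁ := m a
  m₂ := m b
  m₃ := m c
  E := S.E
  q₁ := S.q a
  q₂ := S.q b
  q₃ := S.q c
  p₁ := S.p a
  p₂ := S.p b
  p₃ := S.p c
  h1 := S.hm a
  h2 := S.hm b
  h3 := S.hm c
  hE := S.hE
  d1 := S.dq a
  d2 := S.dq b
  d3 := S.dq c
  a1 := S.dp a b c hab hac hbc
  a2 := by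
    intro t
    have := S.dp b a c hab.symm hbc hac t
    rwa [norm_sub_rev (S.q a t) (S.q b t)] at this
  a3 := by
    intro t
    have := S.dp c a b hac.symm hbc.symm hab t
    rwa [norm_sub_rev (S.q a t) (S.q c t), norm_sub_rev (S.q b t) (S.q c t)] at this
  n21 := fun t => S.nq b a hab.symm t
  n31 := fun t => S.nq c a hac.symm t
  n32 := fun t => S.nq c b hbc.symm t
  cm := fun t => by
    have := S.cm t
    rwa [sum3 hab hac hbc] at this
  mo := fun t => by
    have := S.mo t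
    rwa [sum3 hab hac hbc] at this
  en := fun t => by
    have h := S.en t
    rw [sum3 hab hac hbc] at h
    rw [← h]
    congr 1
    have n1 := norm_sub_rev (S.q 0 t) (S.q 1 t)
    have n2 := norm_sub_rev (S.q 0 t) (S.q 2 t)
    have n3 := norm_sub_rev (S.q 1 t) (S.q 2 t)
    fin_cases a <;> fin_cases b <;> fin_cases c <;> simp at hab hac hbc ⊢ <;>
      (try rw [n1]) <;> (try rw [n2]) <;> (try rw [n3]) <;> ring
  nc := by
    have := S.nc a b hab
    simpa only [sum3 hab hac hbc] using this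

/-- moment of inertia -/
noncomputable def I (t : ℝ) : ℝ := ∑ i, m i * ‖S.q i t‖ ^ 2
/-- size -/
noncomputable def R (t : ℝ) : ℝ := √(S.I t)
/-- square root of size -/
noncomputable def w (t : ℝ) : ℝ := √(S.R t)
/-- half derivative of moment of inertia -/
noncomputable def G (t : ℝ) : ℝ := ∑ i, m i * ⟪S.q i t, S.p i t⟫_ℝ
/-- first clock -/
noncomputable def Psi (t : ℝ) : ℝ := S.G t / S.w t
/-- second clock -/
noncomputable def X (a t : ℝ) : ℝ := cX (S.R a) (2 * S.E) a t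

variable {a b c : Fin 3} {hab : a ≠ b} {hac : a ≠ c} {hbc : b ≠ c}

lemma mk3_I : (S.mk3 a b c hab hac hbc).I = S.I := by
  funext t
  unfold I
  rw [sum3 hab hac hbc]
  rfl

lemma mk3_R : (S.mk3 a b c hab hac hbc).R = S.R := by
  funext t
  unfold R Data.R
  rw [mk3_I]

lemma mk3_w : (S.mk3 a b c hab hac hbc).w = S.w := by
  funext t
  unfold w Data.w
  rw [mk3_R]

lemma mk3_G : (S.mk3 a b c hab hac hbc).G = S.G := by
  funext t
  unfold G
  rw [sum3 hab hac hbc]
  rfl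

lemma mk3_Psi : (S.mk3 a b c hab hac hbc).Psi = S.Psi := by
  funext t
  unfold Psi Data.Psi
  rw [mk3_G, mk3_w]

lemma mk3_X : (S.mk3 a b c hab hac hbc).X = S.X := by
  funext t s
  unfold X Data.X
  rw [mk3_R]
  rfl

lemma mk3_E : (S.mk3 a b c hab hac hbc).E = S.E := rfl

lemma mk3_mass : HasMass (S.mk3 a b c hab hac hbc) (m a) (m b) (m c) := ⟨rfl, rfl, rfl⟩

/-- data with the identity labelling -/
noncomputable def D0 : Data := S.mk3 0 1 2 (by decide) (by decide) (by decide)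

lemma D0_R : S.D0.R = S.R := S.mk3_R
lemma D0_G : S.D0.G = S.G := S.mk3_G
lemma D0_Psi : S.D0.Psi = S.Psi := S.mk3_Psi
lemma D0_X : S.D0.X = S.X := S.mk3_X
lemma D0_w : S.D0.w = S.w := S.mk3_w
lemma D0_E : S.D0.E = S.E := rfl

lemma R_pos (t : ℝ) : 0 < S.R t := by rw [← D0_R]; exact S.D0.R_pos t
lemma w_pos (t : ℝ) : 0 < S.w t := by rw [← D0_w]; exact S.D0.w_pos t
lemma G_mono {s t : ℝ} (h : s ≤ t) : S.G s ≤ S.G t := by rw [← D0_G]; exact S.D0.G_mono h
lemma R_mono {s t : ℝ} (hs : 0 ≤ S.G s) (h : s ≤ t) : S.R s ≤ S.R t := by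
  rw [← D0_R]
  rw [← D0_G] at hs
  exact S.D0.R_mono hs h

/-- eclipse with label `l` -/
def Ecl (l : Fin 3) (t : ℝ) : Prop :=
  ∀ b c : Fin 3, l ≠ b → l ≠ c → b ≠ c → S.q l t ∈ openSegment ℝ (S.q b t) (S.q c t)

/-- bound for the length of chains of eclipses with different consecutive labels -/
def ChainBound (J : Set ℝ) (N : ℕ) : Prop :=
  ∀ (n : ℕ) (u : ℕ → ℝ) (l : ℕ → Fin 3), (∀ j < n, u j < u (j + 1)) → (∀ j ≤ n, u j ∈ J) →
    (∀ j ≤ n, S.Ecl (l j) (u j)) → (∀ j < n, l j ≠ l (j + 1)) → n ≤ N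

end Sys

lemma fin_min {ι : Type*} [Finite ι] (f : ι → ℝ) (hf : ∀ i, 0 < f i) : ∃ c > 0, ∀ i, c ≤ f i := by
  rcases isEmpty_or_nonempty ι with h | h
  · exact ⟨1, one_pos, fun i => h.elim i⟩
  · obtain ⟨i, hi⟩ := Finite.exists_min f
    exact ⟨f i, hf i, hi⟩

lemma fin_max {ι : Type*} [Finite ι] (f : ι → ℝ) : ∃ C > 0, ∀ i, f i ≤ C := by
  rcases isEmpty_or_nonempty ι with h | h
  · exact ⟨1, one_pos, fun i => h.elim i⟩
  · obtain ⟨i, hi⟩ := Finite.exists_max f
    exact ⟨max (f i) 1, lt_max_of_lt_right one_pos, fun j => (hi j).trans (le_max_left _ _)⟩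

namespace Data

variable (D : Data)

/-- second body between the two others -/
lemma seg2 {t : ℝ} (h : D.q₂ t ∈ openSegment ℝ (D.q₁ t) (D.q₃ t)) : D.ex t = D.ez t := by
  obtain ⟨α, β, hα, hβ, hs, he⟩ := h
  have hr := D.r_pos t
  have h1 := D.h1
  have h2 := D.h2
  have hM := D.M_pos
  have hx : D.x t = β • (D.q₃ t - D.q₁ t) := by
    unfold x
    rw [← he]
    have : α = 1 - β := by linarith
    rw [this]
    module
  have hq := D.q31 t
  have hβ1 : β < 1 := by linarith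
  have hpos : 0 < D.S - β * D.m₂ := by
    unfold S
    nlinarith
  have e : (D.S - β * D.m₂) • D.x t = (β * D.M) • D.q₃ t := by
    have : β • (D.S • (D.q₃ t - D.q₁ t)) = β • (D.M • D.q₃ t + D.m₂ • D.x t) := by rw [hq]
    have h5 : β • (D.S • (D.q₃ t - D.q₁ t)) = D.S • D.x t := by rw [hx]; module
    rw [h5] at this
    rw [sub_smul, this]
    module
  have hx2 : D.x t = (β * D.M / (D.S - β * D.m₂)) • D.q₃ t := by
    have : (D.S - β * D.m₂)⁻¹ • ((D.S - β * D.m₂) • D.x t) =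
        (D.S - β * D.m₂)⁻¹ • ((β * D.M) • D.q₃ t) := by rw [e]
    rw [smul_smul, inv_mul_cancel₀ hpos.ne', one_smul, smul_smul] at this
    rw [this]
    congr 1
    ring
  set k := β * D.M / (D.S - β * D.m₂) with hk
  have hkp : 0 < k := by positivity
  unfold ex ez
  have hrn : D.r t = k * ‖D.q₃ t‖ := by
    rw [← D.norm_x, hx2, norm_smul, Real.norm_eq_abs, abs_of_pos hkp]
  have hq3 : 0 < ‖D.q₃ t‖ := by
    by_contra hc
    have : ‖D.q₃ t‖ = 0 := le_antisymm (not_lt.1 hc) (norm_nonneg _)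
    rw [this, mul_zero] at hrn
    linarith
  rw [hrn, hx2, smul_smul]
  congr 1
  field_simp

/-- first body between the two others -/
lemma seg1 {t : ℝ} (h : D.q₁ t ∈ openSegment ℝ (D.q₂ t) (D.q₃ t)) : D.ex t = -D.ez t := by
  obtain ⟨α, β, hα, hβ, hs, he⟩ := h
  have hr := D.r_pos t
  have h1 := D.h1
  have h2 := D.h2
  have hM := D.M_pos
  have hx : D.x t = (-β) • (D.q₃ t - D.q₂ t) := by
    unfold x
    rw [← he]
    have : α = 1 - β := by linarith
    rw [this]
    module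
  have hq := D.q32 t
  have hβ1 : β < 1 := by linarith
  have hpos : 0 < D.S - β * D.m₁ := by
    unfold S
    nlinarith
  have e : (D.S - β * D.m₁) • D.x t = (-(β * D.M)) • D.q₃ t := by
    have : (-β) • (D.S • (D.q₃ t - D.q₂ t)) = (-β) • (D.M • D.q₃ t - D.m₁ • D.x t) := by rw [hq]
    have h5 : (-β) • (D.S • (D.q₃ t - D.q₂ t)) = D.S • D.x t := by rw [hx]; module
    rw [h5] at this
    rw [sub_smul, this]
    module
  have hx2 : D.x t = (-(β * D.M / (D.S - β * D.m₁))) • D.q₃ t := by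
    have : (D.S - β * D.m₁)⁻¹ • ((D.S - β * D.m₁) • D.x t) =
        (D.S - β * D.m₁)⁻¹ • ((-(β * D.M)) • D.q₃ t) := by rw [e]
    rw [smul_smul, inv_mul_cancel₀ hpos.ne', one_smul, smul_smul] at this
    rw [this]
    congr 1
    ring
  set k := β * D.M / (D.S - β * D.m₁) with hk
  have hkp : 0 < k := by positivity
  unfold ex ez
  have hrn : D.r t = k * ‖D.q₃ t‖ := by
    rw [← D.norm_x, hx2, norm_smul, Real.norm_eq_abs, abs_neg, abs_of_pos hkp]
  have hq3 : 0 < ‖D.q₃ t‖ := by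
    by_contra hc
    have : ‖D.q₃ t‖ = 0 := le_antisymm (not_lt.1 hc) (norm_nonneg _)
    rw [this, mul_zero] at hrn
    linarith
  rw [hrn, hx2, smul_smul, ← neg_smul]
  congr 1
  field_simp

/-- third body between the two others -/
lemma seg3 {t : ℝ} (h : D.q₃ t ∈ openSegment ℝ (D.q₁ t) (D.q₂ t)) :
    ‖D.q₃ t - D.q₁ t‖ < D.r t := by
  obtain ⟨α, β, hα, hβ, hs, he⟩ := h
  have hr := D.r_pos t
  have hx : D.q₃ t - D.q₁ t = β • (D.q₂ t - D.q₁ t) := by
    rw [← he]
    have : α = 1 - β := by linarith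
    rw [this]
    module
  rw [hx, norm_smul, Real.norm_eq_abs, abs_of_pos hβ]
  have hβ1 : β < 1 := by linarith
  unfold r at hr ⊢
  nlinarith

end Data

/-- vertex between the two others: angle π -/
lemma seg_vertex {A B C : ℂ} (h : A ∈ openSegment ℝ B C) :
    ⟪B - A, C - A⟫_ℝ = -(‖B - A‖ * ‖C - A‖) ∧ cr (B - A) (C - A) = 0 := by
  obtain ⟨α, β, hα, hβ, hs, he⟩ := h
  have e1 : B - A = β • (B - C) := by
    rw [← he]
    have : α = 1 - β := by linarith
    rw [this]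
    module
  have e2 : C - A = (-α) • (B - C) := by
    rw [← he]
    have : β = 1 - α := by linarith
    rw [this]
    module
  rw [e1, e2]
  constructor
  · rw [inner_smul_left, inner_smul_right, real_inner_self_eq_norm_sq, norm_smul, norm_smul,
      Real.norm_eq_abs, Real.norm_eq_abs, abs_neg, abs_of_pos hα, abs_of_pos hβ]
    simp only [conj_trivial]
    ring
  · rw [cr_smul_left, cr_smul_right, cr_self]
    ring

/-- another body between: angle zero -/
lemma seg_other {A B C : ℂ} (h : B ∈ openSegment ℝ A C) :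
    ⟪B - A, C - A⟫_ℝ = ‖B - A‖ * ‖C - A‖ ∧ cr (B - A) (C - A) = 0 := by
  obtain ⟨α, β, hα, hβ, hs, he⟩ := h
  have e1 : B - A = β • (C - A) := by
    rw [← he]
    have : α = 1 - β := by linarith
    rw [this]
    module
  rw [e1]
  constructor
  · rw [inner_smul_left, real_inner_self_eq_norm_sq, norm_smul, Real.norm_eq_abs, abs_of_pos hβ]
    simp only [conj_trivial]
    ring
  · rw [cr_smul_left, cr_self]
    ring

end Pool.Agent.H310.Three
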