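import Pool.Agent.H310.Three.Regime

/-!
Uniform constants and the two regimes.
-/

open Filter Topology Set
open scoped InnerProductSpace

namespace Pool.Agent.H310.Three

variable {m : Fin 3 → ℝ}

theorem uniform_close (hm : ∀ i, 0 < m i) : ∃ δ > 0, ∃ C > 0,
    (∀ i j : Fin 3, C * δ ≤ (m i + m j) / 4) ∧ C * δ < 1 ∧
    ∀ (S : Sys m) (i j k : Fin 3) (hij : i ≠ j) (hik : i ≠ k) (hjk : j ≠ k) (t : ℝ),
      0 ≤ S.G t → ‖S.q j t - S.q i t‖ ≤ δ * S.R t → CloseFacts C (S.mk3 i j k hij hik hjk) t := by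
  have h := fun i j k => close_facts (hm i) (hm j) (hm k)
  choose δf hδf Cf hCf hcf using h
  obtain ⟨C, hC, hCle⟩ := fin_max (fun x : Fin 3 × Fin 3 × Fin 3 => Cf x.1 x.2.1 x.2.2)
  obtain ⟨δ₁, hδ₁, hδ₁le⟩ := fin_min (fun x : Fin 3 × Fin 3 × Fin 3 => δf x.1 x.2.1 x.2.2)
    (fun x => hδf _ _ _)
  obtain ⟨δ₂, hδ₂, hδ₂le⟩ := fin_min (fun x : Fin 3 × Fin 3 => (m x.1 + m x.2) / 4 / C)
    (fun x => by have := hm x.1; have := hm x.2; positivity)
  refine ⟨min (min δ₁ δ₂) (1 / (2 * C)), by positivity, C, hC, ?_, ?_, ?_⟩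
  · intro i j
    have h1 : min (min δ₁ δ₂) (1 / (2 * C)) ≤ (m i + m j) / 4 / C :=
      ((min_le_left _ _).trans (min_le_right _ _)).trans (hδ₂le (i, j))
    calc C * _ ≤ C * ((m i + m j) / 4 / C) := by gcongr
      _ = _ := by field_simp
  · have h1 : min (min δ₁ δ₂) (1 / (2 * C)) ≤ 1 / (2 * C) := min_le_right _ _
    calc C * _ ≤ C * (1 / (2 * C)) := by gcongr
      _ = 1 / 2 := by field_simp
      _ < 1 := by norm_num
  · intro S i j k hij hik hjk t hG hr
    refine (hcf i j k (S.mk3 i j k hij hik hjk) S.mk3_mass t (by rw [S.mk3_G]; exact hG) ?_).mono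
      (hCle (i, j, k))
    rw [S.mk3_R]
    have h1 : min (min δ₁ δ₂) (1 / (2 * C)) ≤ δf i j k :=
      ((min_le_left _ _).trans (min_le_left _ _)).trans (hδ₁le (i, j, k))
    have hR := S.R_pos t
    calc (S.mk3 i j k hij hik hjk).r t = ‖S.q j t - S.q i t‖ := rfl
      _ ≤ min (min δ₁ δ₂) (1 / (2 * C)) * S.R t := hr
      _ ≤ δf i j k * S.R t := by gcongr

theorem uniform_ub {δ C : ℝ} (hm : ∀ i, 0 < m i) (hδ : 0 < δ) (hC : 0 < C)
    (hcf : ∀ (S : Sys m) (i j k : Fin 3) (hij : i ≠ j) (hik : i ≠ k) (hjk : j ≠ k) (t : ℝ),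
      0 ≤ S.G t → ‖S.q j t - S.q i t‖ ≤ δ * S.R t → CloseFacts C (S.mk3 i j k hij hik hjk) t) :
    ∃ Cu > 0, ∀ (S : Sys m) (t : ℝ), 0 ≤ S.G t → S.G t ^ 2 ≤ Cu * S.R t * (S.E * S.R t + 1) := by
  set CU := (m 0 * m 1 + m 0 * m 2 + m 1 * m 2) / δ with hCU
  have p0 := hm 0
  have p1 := hm 1
  have p2 := hm 2
  have hCUp : 0 < CU := by positivity
  refine ⟨max C (2 + 2 * CU), lt_max_of_lt_left hC, ?_⟩
  intro S t hG
  have hR := S.R_pos t
  have hE := S.hE
  have key : ∀ (i j k : Fin 3) (hij : i ≠ j) (hik : i ≠ k) (hjk : j ≠ k),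
      ‖S.q j t - S.q i t‖ ≤ δ * S.R t →
      S.G t ^ 2 ≤ max C (2 + 2 * CU) * S.R t * (S.E * S.R t + 1) := by
    intro i j k hij hik hjk h
    have h1 := (hcf S i j k hij hik hjk t hG h).ub
    rw [S.mk3_G, S.mk3_R, S.mk3_E] at h1
    refine h1.trans ?_
    gcongr
    exact le_max_left _ _
  by_cases d1 : ‖S.q 1 t - S.q 0 t‖ ≤ δ * S.R t
  · exact key 0 1 2 (by decide) (by decide) (by decide) d1
  by_cases d2 : ‖S.q 2 t - S.q 0 t‖ ≤ δ * S.R t
  · exact key 0 2 1 (by decide) (by decide) (by decide) d2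
  by_cases d3 : ‖S.q 2 t - S.q 1 t‖ ≤ δ * S.R t
  · exact key 1 2 0 (by decide) (by decide) (by decide) d3
  push Not at d1 d2 d3
  have hJ := S.D0.J2_nonneg t
  rw [S.D0.J2_eq] at hJ
  have hU : S.D0.U t ≤ CU / S.R t := by
    have e : S.D0.U t = m 0 * m 1 / ‖S.q 1 t - S.q 0 t‖ + m 0 * m 2 / ‖S.q 2 t - S.q 0 t‖ +
      m 1 * m 2 / ‖S.q 2 t - S.q 1 t‖ := rfl
    rw [e]
    have k1 : m 0 * m 1 / ‖S.q 1 t - S.q 0 t‖ ≤ m 0 * m 1 / (δ * S.R t) := by gcongr
    have k2 : m 0 * m 2 / ‖S.q 2 t - S.q 0 t‖ ≤ m 0 * m 2 / (δ * S.R t) := by gcongr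
    have k3 : m 1 * m 2 / ‖S.q 2 t - S.q 1 t‖ ≤ m 1 * m 2 / (δ * S.R t) := by gcongr
    calc _ ≤ m 0 * m 1 / (δ * S.R t) + m 0 * m 2 / (δ * S.R t) + m 1 * m 2 / (δ * S.R t) := by
          linarith
      _ = CU / S.R t := by rw [hCU]; field_simp
  have hI : S.D0.I t = S.R t ^ 2 := by rw [← S.D0_R, S.D0.R_sq]
  rw [hI, S.D0_G, S.D0_E] at hJ
  have h2 : 2 * S.R t ^ 2 * (S.E + S.D0.U t) ≤ 2 * S.R t ^ 2 * (S.E + CU / S.R t) := by gcongr
  have h3 : 2 * S.R t ^ 2 * (S.E + CU / S.R t) = 2 * S.R t * (S.E * S.R t + CU) := by field_simp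
  have h4 : 2 * S.R t * (S.E * S.R t + CU) ≤ (2 + 2 * CU) * S.R t * (S.E * S.R t + 1) := by
    have : 0 ≤ CU * S.R t * (S.E * S.R t) := by positivity
    nlinarith
  have h5 : (2 + 2 * CU) * S.R t * (S.E * S.R t + 1) ≤
      max C (2 + 2 * CU) * S.R t * (S.E * S.R t + 1) := by
    gcongr
    exact le_max_right _ _
  linarith

/-- alternation of sides along a chain in a close interval -/
lemma alternation {S : Sys m} {i j k : Fin 3} (hij : i ≠ j) (hik : i ≠ k) (hjk : j ≠ k) {δ C : ℝ}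
    (hCδ : C * δ < 1) {n : ℕ} {u : ℕ → ℝ} {l : ℕ → Fin 3}
    (hcf : ∀ x ≤ n, CloseFacts C (S.mk3 i j k hij hik hjk) (u x))
    (hr : ∀ x ≤ n, ‖S.q j (u x) - S.q i (u x)‖ ≤ δ * S.R (u x))
    (hE : ∀ x ≤ n, S.Ecl (l x) (u x)) (hl : ∀ x < n, l x ≠ l (x + 1)) :
    ∀ x < n, ((S.mk3 i j k hij hik hjk).ex (u x) = (S.mk3 i j k hij hik hjk).ez (u x) ∧
        (S.mk3 i j k hij hik hjk).ex (u (x + 1)) = -(S.mk3 i j k hij hik hjk).ez (u (x + 1))) ∨
      ((S.mk3 i j k hij hik hjk).ex (u x) = -(S.mk3 i j k hij hik hjk).ez (u x) ∧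
        (S.mk3 i j k hij hik hjk).ex (u (x + 1)) = (S.mk3 i j k hij hik hjk).ez (u (x + 1))) := by
  set D := S.mk3 i j k hij hik hjk with hD
  have hcase : ∀ x ≤ n, (l x = j ∧ D.ex (u x) = D.ez (u x)) ∨ (l x = i ∧ D.ex (u x) = -D.ez (u x)) := by
    intro x hx
    have hEx := hE x hx
    rcases others_cases (l := l x) hij hik hjk with h1 | h1 | h1
    · right
      refine ⟨h1, ?_⟩
      rw [h1] at hEx
      exact D.seg1 (hEx j k hij hik hjk)
    · left
      refine ⟨h1, ?_⟩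
      rw [h1] at hEx
      exact D.seg2 (hEx i k hij.symm hjk hik)
    · exfalso
      rw [h1] at hEx
      have h2 := D.seg3 (hEx i j hik.symm hjk.symm hij)
      have h3 := (hcf x hx).f31
      have h4 := (hcf x hx).C_pos
      have h5 : D.r (u x) ≤ δ * S.R (u x) := hr x hx
      have h6 : D.R (u x) = S.R (u x) := by rw [hD, S.mk3_R]
      rw [h6] at h3
      have hR := S.R_pos (u x)
      have h7 : C * ‖D.q₃ (u x) - D.q₁ (u x)‖ ≤ C * (δ * S.R (u x)) := by
        gcongr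
        linarith
      have h8 : C * δ * S.R (u x) < 1 * S.R (u x) := by gcongr
      linarith
  intro x hx
  rcases hcase x hx.le with ⟨a1, a2⟩ | ⟨a1, a2⟩ <;> rcases hcase (x + 1) hx with ⟨b1, b2⟩ | ⟨b1, b2⟩
  · exact absurd (a1.trans b1.symm) (hl x hx)
  · exact Or.inl ⟨a2, b2⟩
  · exact Or.inr ⟨a2, b2⟩
  · exact absurd (a1.trans b1.symm) (hl x hx)

lemma chain_mono {n : ℕ} {u : ℕ → ℝ} (hu : ∀ x < n, u x ≤ u (x + 1)) :
    ∀ x y, x ≤ y → y ≤ n → u x ≤ u y := by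
  intro x y hxy
  induction y, hxy using Nat.le_induction with
  | base => intro _; exact le_refl _
  | succ y hxy ih =>
    intro hy
    exact (ih (by omega)).trans (hu y (by omega))

/-- uniform regimes -/
theorem uniform_regimes (hm : ∀ i, 0 < m i) : ∃ δ > 0, ∃ c > 0, ∃ CM : ℝ, ∃ B : ℕ, ∀ S : Sys m,
    (∀ t₀ T, 0 ≤ S.G t₀ → S.E * S.R T ≤ 1 → t₀ ≤ T → Regime S S.Psi (Icc t₀ T) δ c CM B) ∧
    (∀ t₁, 0 ≤ S.G t₁ → 1 ≤ S.E * S.R t₁ → Regime S (S.X t₁) (Ici t₁) δ c CM B) := by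
  obtain ⟨δ, hδ, C, hC, hCm, hC1, hcf⟩ := uniform_close hm
  obtain ⟨Cu, hCu, hub⟩ := uniform_ub hm hδ hC hcf
  -- costs
  have hWL := fun i j k => W_L (hm i) (hm j) (hm k) hδ hCu
  have hWH := fun i j k => W_H (hm i) (hm j) (hm k) hδ
  have hXL := fun i j k => X_L (hm i) (hm j) (hm k) hδ hC (hCm i j)
  have hXH := fun i j k => X_H (hm i) (hm j) (hm k) (C := C) hδ (by linarith : C * δ ≤ 4)
  choose wl hwl hWL using hWL
  choose wh hwh hWH using hWH
  choose xl hxl hXL using hXL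
  choose xh hxh hXH using hXH
  obtain ⟨c₁, hc₁, hc₁le⟩ := fin_min (fun x : Fin 3 × Fin 3 × Fin 3 => wl x.1 x.2.1 x.2.2)
    (fun x => hwl _ _ _)
  obtain ⟨c₂, hc₂, hc₂le⟩ := fin_min (fun x : Fin 3 × Fin 3 × Fin 3 => wh x.1 x.2.1 x.2.2)
    (fun x => hwh _ _ _)
  obtain ⟨c₃, hc₃, hc₃le⟩ := fin_min (fun x : Fin 3 × Fin 3 × Fin 3 => xl x.1 x.2.1 x.2.2)
    (fun x => hxl _ _ _)
  obtain ⟨c₄, hc₄, hc₄le⟩ := fin_min (fun x : Fin 3 × Fin 3 × Fin 3 => xh x.1 x.2.1 x.2.2)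
    (fun x => hxh _ _ _)
  set c := min (min c₁ c₂) (min c₃ c₄) with hc
  have hcp : 0 < c := lt_min (lt_min hc₁ hc₂) (lt_min hc₃ hc₄)
  have cl1 : c ≤ c₁ := (min_le_left _ _).trans (min_le_left _ _)
  have cl2 : c ≤ c₂ := (min_le_left _ _).trans (min_le_right _ _)
  have cl3 : c ≤ c₃ := (min_le_right _ _).trans (min_le_left _ _)
  have cl4 : c ≤ c₄ := (min_le_right _ _).trans (min_le_right _ _)
  -- number of alternations
  obtain ⟨BL, hBL, hBLle⟩ := fin_max (fun x : Fin 3 × Fin 3 => 5 / 2 * Real.pi +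
    (5 / 2 * (C / √(m x.1 + m x.2)) + 1) *
      ((C * √(2 * C) + 1) * (4 / (m x.1 + m x.2)) * (2 * √(2 * C))) + 1)
  obtain ⟨BH, hBH, hBHle⟩ := fin_max (fun x : Fin 3 × Fin 3 × Fin 3 => 5 / 2 * Real.pi +
    (5 / 2 * (C / √(m x.1 + m x.2.1)) + 1) *
      (2 + C ^ 2 * (4 * √C / √(m x.2.2) + 4 * ((m x.1 + m x.2.1) * C ^ 2 / √(m x.2.2)))) + 1)
  obtain ⟨B, hB⟩ := exists_nat_gt (max BL BH)
  refine ⟨δ, hδ, c, hcp, max (√(2 * Cu)) 1, B, ?_⟩
  intro S
  constructor
  · -- first regime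
    intro t₀ T hG hER htT
    have hGt : ∀ t ∈ Icc t₀ T, 0 ≤ S.G t := fun t ht => hG.trans (S.G_mono ht.1)
    have hERt : ∀ t ∈ Icc t₀ T, S.E * S.R t ≤ 1 := by
      intro t ht
      have := S.R_mono (hGt t ht) ht.2
      have hE := S.hE
      calc S.E * S.R t ≤ S.E * S.R T := by gcongr
        _ ≤ 1 := hER
    constructor
    · exact ordConnected_Icc
    · intro s t hst
      rw [← S.D0_Psi]
      exact S.D0.Psi_mono hst
    · intro s hs t ht
      have h1 := hub S t (hGt t ht)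
      have h2 : S.G t ≤ √(2 * Cu) * S.w t := by
        have := G_le_of_ub (D := S.D0) (t := t) hCu (by rw [S.D0_G, S.D0_R, S.D0_E]; exact h1)
          (by rw [S.D0_R, S.D0_E]; exact hERt t ht)
        rwa [S.D0_G, S.D0_w] at this
      have h3 : S.Psi t ≤ √(2 * Cu) := by
        unfold Sys.Psi
        rw [div_le_iff₀ (S.w_pos t)]
        exact h2
      have h4 : 0 ≤ S.Psi s := div_nonneg (hGt s hs) (S.w_pos s).le
      have := le_max_left (√(2 * Cu)) 1
      linarith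
    · intro i j k hij hik hjk s hs e he hse hbd h1 h2
      have hsub : Icc s e ⊆ Icc t₀ T := Icc_subset_Icc hs.1 he.2
      have := hXL i j k (S.mk3 i j k hij hik hjk) S.mk3_mass s e hse
        (by rw [S.mk3_G]; exact hGt s hs) (by rw [S.mk3_R, S.mk3_E]; exact hERt e he)
        (fun t ht => by rw [S.mk3_R]; exact (hbd t ht).2)
        (fun t ht => hcf S i j k hij hik hjk t (hGt t (hsub ht)) (hbd t ht).2)
        (by rw [S.mk3_R]; exact h1) (by rw [S.mk3_R]; exact h2)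
      rw [S.mk3_Psi] at this
      have := hc₃le (i, j, k)
      simp only at this
      linarith
    · intro i j k hij hik hjk s hs e he hse r1 r2 r3 hang hcol
      have := hWL i j k (S.mk3 i j k hij hik hjk) S.mk3_mass
        (fun t ht => by
          rw [S.mk3_G] at ht ⊢
          rw [S.mk3_R, S.mk3_E]
          exact hub S t ht) s e hse
        (by rw [S.mk3_G]; exact hGt s hs) (by rw [S.mk3_R, S.mk3_E]; exact hERt e he)
        (by rw [S.mk3_R]; exact r1) (by rw [S.mk3_R]; exact r2) hang hcol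
      rw [S.mk3_Psi] at this
      have := hc₁le (i, j, k)
      simp only at this
      linarith
    · intro i j k hij hik hjk n u l hu hu0 hun hr hE hl
      have hmono := chain_mono hu
      have h0n := hmono 0 n (Nat.zero_le _) le_rfl
      have hsub : Icc (u 0) (u n) ⊆ Icc t₀ T := Icc_subset_Icc hu0.1 hun.2
      have hux : ∀ x ≤ n, u x ∈ Icc (u 0) (u n) := fun x hx =>
        ⟨hmono 0 x (Nat.zero_le _) hx, hmono x n hx le_rfl⟩
      have hcfx : ∀ t ∈ Icc (u 0) (u n), CloseFacts C (S.mk3 i j k hij hik hjk) t := fun t ht =>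
        hcf S i j k hij hik hjk t (hGt t (hsub ht)) (hr t ht)
      have halt := alternation hij hik hjk hC1 (fun x hx => hcfx _ (hux x hx))
        (fun x hx => hr _ (hux x hx)) hE hl
      have key := close_chain_L (D := S.mk3 i j k hij hik hjk) (δ := δ) hC hu hcfx
        (fun t ht => by rw [S.mk3_R, S.mk3_E]; exact hERt t (hsub ht))
        (fun t ht => by rw [S.mk3_G]; exact hGt t (hsub ht))
        (fun t ht => by rw [S.mk3_R]; exact hr t ht) (hCm i j) halt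
      have h1 := hBLle (i, j)
      have h2 : (S.mk3 i j k hij hik hjk).S = m i + m j := rfl
      rw [h2] at key
      simp only at h1
      have h3 : BL < B := (le_max_left _ _).trans_lt hB
      have h4 : (n : ℝ) < B := by
        have : (0:ℝ) ≤ n := Nat.cast_nonneg n
        linarith
      exact_mod_cast h4
  · -- second regime
    intro t₁ hG hER
    have hGt : ∀ t ∈ Ici t₁, 0 ≤ S.G t := fun t ht => hG.trans (S.G_mono ht)
    constructor
    · exact ordConnected_Ici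
    · intro s t hst
      rw [← S.D0_X]
      exact S.D0.X_mono hst
    · intro s hs t ht
      have h1 := S.D0.X_nonpos t₁ t
      have h2 := S.D0.X_ge (a := t₁) (t := s) hs
      rw [S.D0_X] at h1 h2
      have := le_max_right (√(2 * Cu)) 1
      linarith
    · intro i j k hij hik hjk s hs e he hse hbd h1 h2
      have := hXH i j k (S.mk3 i j k hij hik hjk) S.mk3_mass t₁ s e hs hse
        (by rw [S.mk3_G]; exact hG) (by rw [S.mk3_R, S.mk3_E]; exact hER)
        (fun t ht => hcf S i j k hij hik hjk t (hGt t (hs.trans ht.1)) (hbd t ht).2)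
        (fun t ht => by rw [S.mk3_R]; exact (hbd t ht).1)
        (by rw [S.mk3_R]; exact h1) (by rw [S.mk3_R]; exact h2)
      rw [S.mk3_X] at this
      have := hc₄le (i, j, k)
      simp only at this
      linarith
    · intro i j k hij hik hjk s hs e he hse r1 r2 r3 hang hcol
      have := hWH i j k (S.mk3 i j k hij hik hjk) S.mk3_mass t₁ s e hs hse
        (by rw [S.mk3_G]; exact hG) (by rw [S.mk3_R, S.mk3_E]; exact hER)
        (by rw [S.mk3_R]; exact r1) (by rw [S.mk3_R]; exact r2) (by rw [S.mk3_R]; exact r3) hang hcol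
      rw [S.mk3_X] at this
      have := hc₂le (i, j, k)
      simp only at this
      linarith
    · intro i j k hij hik hjk n u l hu hu0 hun hr hE hl
      have hmono := chain_mono hu
      have h0n := hmono 0 n (Nat.zero_le _) le_rfl
      have hsub : ∀ t ∈ Icc (u 0) (u n), t ∈ Ici t₁ := fun t ht => le_trans hu0 ht.1
      have hux : ∀ x ≤ n, u x ∈ Icc (u 0) (u n) := fun x hx =>
        ⟨hmono 0 x (Nat.zero_le _) hx, hmono x n hx le_rfl⟩
      have hcfx : ∀ t ∈ Icc (u 0) (u n), CloseFacts C (S.mk3 i j k hij hik hjk) t := fun t ht =>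
        hcf S i j k hij hik hjk t (hGt t (hsub t ht)) (hr t ht)
      have halt := alternation hij hik hjk hC1 (fun x hx => hcfx _ (hux x hx))
        (fun x hx => hr _ (hux x hx)) hE hl
      have hER0 : 1 ≤ S.E * S.R (u 0) := by
        have := S.R_mono hG hu0
        have hE := S.hE
        calc 1 ≤ S.E * S.R t₁ := hER
          _ ≤ _ := by gcongr
      have key := close_chain_H (D := S.mk3 i j k hij hik hjk) hC hu hcfx
        (by rw [S.mk3_R, S.mk3_E]; exact hER0)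
        (by rw [S.mk3_G]; exact hGt _ hu0) halt
      have h1 := hBHle (i, j, k)
      have h2 : (S.mk3 i j k hij hik hjk).S = m i + m j := rfl
      have h2' : (S.mk3 i j k hij hik hjk).m₃ = m k := rfl
      have h2'' : K3 C (S.mk3 i j k hij hik hjk) = (m i + m j) * C ^ 2 / √(m k) := rfl
      rw [h2, h2', h2''] at key
      simp only at h1
      have h3 : BH < B := (le_max_right _ _).trans_lt hB
      have h4 : (n : ℝ) < B := by
        have : (0:ℝ) ≤ n := Nat.cast_nonneg n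
        linarith
      exact_mod_cast h4

end Pool.Agent.H310.Three
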