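import Pool.Agent.H310.Three.Window

/-!
Costs in the first phase.
-/

open Filter Topology Set
open scoped InnerProductSpace

namespace Pool.Agent.H310.Three

namespace Data

variable (D : Data) {m₁ m₂ m₃ : ℝ}

lemma Near_self (η a : ℝ) (hη : 0 ≤ η) : D.Near η a a := by
  unfold Near
  simp [hη]

/-- monotonicity of the first-phase clock needs no hypothesis -/
lemma L_window_R {C κ a t : ℝ} (hC : 0 < C)
    (hub : ∀ t, 0 ≤ D.G t → D.G t ^ 2 ≤ C * D.R t * (D.E * D.R t + 1))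
    (hGa : 0 ≤ D.G a) (hat : a ≤ t) (hER : D.E * D.R t ≤ 1)
    (hκ : √(2 * C) * κ ≤ 1) (ht : t ≤ a + κ * D.w a ^ 3) : D.R t ≤ 2 * D.R a := by
  have hwa := D.w_pos a
  have hE := D.hE
  have hs : 0 ≤ √(2 * C) := Real.sqrt_nonneg _
  have h := sub_le_sub_of_deriv_le (f := D.R) (g := fun s => √(2 * C) / D.w a * s)
    (f' := fun s => D.G s / D.R s) (g' := fun _ => √(2 * C) / D.w a) hat
    (fun s _ => D.hasDerivAt_R s) (fun s _ => by simpa using (hasDerivAt_id s).const_mul (√(2 * C) / D.w a))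
    (fun s hs' => by
      have hGs : 0 ≤ D.G s := hGa.trans (D.G_mono hs'.1)
      have hERs : D.E * D.R s ≤ 1 := by
        have := D.R_mono hGs hs'.2
        calc D.E * D.R s ≤ D.E * D.R t := by gcongr
          _ ≤ 1 := hER
      have h1 := G_le_of_ub hC (hub s hGs) hERs
      have hws := D.w_pos s
      have hwm := D.w_mono hGa hs'.1
      have hRs := D.R_pos s
      calc D.G s / D.R s ≤ √(2 * C) * D.w s / D.R s := by gcongr
        _ = √(2 * C) / D.w s := by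
          rw [← D.w_sq]
          field_simp
        _ ≤ √(2 * C) / D.w a := by gcongr)
  have h2 : √(2 * C) / D.w a * t - √(2 * C) / D.w a * a ≤ D.w a ^ 2 := by
    calc √(2 * C) / D.w a * t - √(2 * C) / D.w a * a = √(2 * C) / D.w a * (t - a) := by ring
      _ ≤ √(2 * C) / D.w a * (κ * D.w a ^ 3) := by
        gcongr
        linarith
      _ = (√(2 * C) * κ) * D.w a ^ 2 := by field_simp
      _ ≤ 1 * D.w a ^ 2 := by gcongr
      _ = _ := by ring
  have h3 := D.w_sq a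
  linarith

end Data

/-- lower bound for the growth of the clock from a linearly growing angular momentum -/
lemma growth {D : Data} {a h β ε : ℝ} (hh : 0 ≤ h) (hβ : 0 ≤ β) (hε : ε ^ 2 = 1)
    (hw : ∀ t ∈ Icc a (a + h), D.w t ^ 5 ≤ 8 * D.w a ^ 5)
    (hf : ∀ t ∈ Icc a (a + h), β ≤ ε * D.c₂' t) :
    D.m₂ ^ 2 * β ^ 2 * h ^ 3 / (384 * D.w a ^ 5) ≤ D.Psi (a + h) - D.Psi a := by
  have hwa := D.w_pos a
  have h2 := D.h2
  have hlin : ∀ s t, a ≤ s → s ≤ t → t ≤ a + h → β * (t - s) ≤ ε * D.c₂ t - ε * D.c₂ s := by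
    intro s t h1 h3 h4
    have := sub_le_sub_of_deriv_le (f := fun u => β * u) (g := fun u => ε * D.c₂ u)
      (f' := fun _ => β) (g' := fun u => ε * D.c₂' u) h3
      (fun u _ => by simpa using (hasDerivAt_id u).const_mul β)
      (fun u _ => (D.hasDerivAt_c₂ u).const_mul ε)
      (fun u hu => hf u ⟨h1.trans hu.1, hu.2.trans h4⟩)
    linarith
  have hPsi : ∀ t ∈ Icc a (a + h), ∀ y : ℝ, y ^ 2 ≤ (ε * D.c₂ t) ^ 2 →
      D.m₂ ^ 2 / (16 * D.w a ^ 5) * y ^ 2 ≤ D.Psi' t := by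
    intro t ht y hy
    have hwt := D.w_pos t
    rw [mul_pow, hε, one_mul] at hy
    refine le_trans ?_ (D.Psi'_ge t)
    have h3 := D.c₂_sq_le t
    calc D.m₂ ^ 2 / (16 * D.w a ^ 5) * y ^ 2 ≤ D.m₂ ^ 2 / (16 * D.w a ^ 5) * D.c₂ t ^ 2 := by gcongr
      _ = D.m₂ ^ 2 * D.c₂ t ^ 2 / (2 * (8 * D.w a ^ 5)) := by ring
      _ ≤ D.J2 t / (2 * (8 * D.w a ^ 5)) := by gcongr
      _ ≤ D.J2 t / (2 * D.w t ^ 5) := by
        have := hw t ht
        have hJ := D.J2_nonneg t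
        gcongr
  set mid := a + h / 2 with hmid
  have hcube : ∀ c : ℝ, ∀ s : ℝ, HasDerivAt (fun s => D.m₂ ^ 2 / (16 * D.w a ^ 5) * (β ^ 2 * ((s - c) ^ 3 / 3)))
      (D.m₂ ^ 2 / (16 * D.w a ^ 5) * (β * (s - c)) ^ 2) s := by
    intro c s
    have := ((((hasDerivAt_id s).sub_const c).pow 3).div_const 3).const_mul (β ^ 2)
    have := this.const_mul (D.m₂ ^ 2 / (16 * D.w a ^ 5))
    refine this.congr_deriv ?_
    show D.m₂ ^ 2 / (16 * D.w a ^ 5) * (β ^ 2 * ((3 : ℕ) * (s - c) ^ 2 * 1 / 3)) = _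
    push_cast
    ring
  rcases le_total 0 (ε * D.c₂ mid) with hc | hc
  · have h3 := sub_le_sub_of_deriv_le
      (f := fun s => D.m₂ ^ 2 / (16 * D.w a ^ 5) * (β ^ 2 * ((s - mid) ^ 3 / 3)))
      (f' := fun s => D.m₂ ^ 2 / (16 * D.w a ^ 5) * (β * (s - mid)) ^ 2) (g := D.Psi)
      (by rw [hmid]; linarith : mid ≤ a + h)
      (fun s _ => hcube mid s) (fun s _ => D.hasDerivAt_Psi s)
      (fun s hs => by
        apply hPsi s ⟨by rw [hmid] at hs; linarith [hs.1], hs.2⟩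
        have := hlin mid s (by rw [hmid]; linarith) hs.1 hs.2
        have h4 : 0 ≤ β * (s - mid) := mul_nonneg hβ (by linarith [hs.1])
        have h5 : β * (s - mid) ≤ ε * D.c₂ s := by linarith
        gcongr)
    have h6 := D.Psi_mono (by rw [hmid]; linarith : a ≤ mid)
    have h7 : D.m₂ ^ 2 / (16 * D.w a ^ 5) * (β ^ 2 * ((a + h - mid) ^ 3 / 3)) -
        D.m₂ ^ 2 / (16 * D.w a ^ 5) * (β ^ 2 * ((mid - mid) ^ 3 / 3)) =
        D.m₂ ^ 2 * β ^ 2 * h ^ 3 / (384 * D.w a ^ 5) := by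
      rw [hmid]
      field_simp
      ring
    linarith
  · have h3 := sub_le_sub_of_deriv_le
      (f := fun s => D.m₂ ^ 2 / (16 * D.w a ^ 5) * (β ^ 2 * ((s - mid) ^ 3 / 3)))
      (f' := fun s => D.m₂ ^ 2 / (16 * D.w a ^ 5) * (β * (s - mid)) ^ 2) (g := D.Psi)
      (by rw [hmid]; linarith : a ≤ mid)
      (fun s _ => hcube mid s) (fun s _ => D.hasDerivAt_Psi s)
      (fun s hs => by
        apply hPsi s ⟨hs.1, by rw [hmid] at hs; linarith [hs.2]⟩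
        have := hlin s mid hs.1 hs.2 (by rw [hmid]; linarith)
        have h4 : 0 ≤ β * (mid - s) := mul_nonneg hβ (by linarith [hs.2])
        have h5 : β * (mid - s) ≤ -(ε * D.c₂ s) := by linarith
        calc (β * (s - mid)) ^ 2 = (β * (mid - s)) ^ 2 := by ring
          _ ≤ (-(ε * D.c₂ s)) ^ 2 := by gcongr
          _ = _ := by ring)
    have h6 := D.Psi_mono (by rw [hmid]; linarith : mid ≤ a + h)
    have h7 : D.m₂ ^ 2 / (16 * D.w a ^ 5) * (β ^ 2 * ((mid - mid) ^ 3 / 3)) -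
        D.m₂ ^ 2 / (16 * D.w a ^ 5) * (β ^ 2 * ((a - mid) ^ 3 / 3)) =
        D.m₂ ^ 2 * β ^ 2 * h ^ 3 / (384 * D.w a ^ 5) := by
      rw [hmid]
      field_simp
      ring
    linarith

/-- cost in the first phase of going from an obtuse angle to collinearity -/
theorem W_L {m₁ m₂ m₃ δ C : ℝ} (h1 : 0 < m₁) (h2 : 0 < m₂) (h3 : 0 < m₃) (hδ : 0 < δ) (hC : 0 < C) :
    ∃ c > 0, ∀ D : Data, HasMass D m₁ m₂ m₃ →
      (∀ t, 0 ≤ D.G t → D.G t ^ 2 ≤ C * D.R t * (D.E * D.R t + 1)) →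
      ∀ a e, a ≤ e → 0 ≤ D.G a → D.E * D.R e ≤ 1 →
      δ / 2 * D.R a ≤ ‖D.q₂ a - D.q₁ a‖ → δ / 2 * D.R a ≤ ‖D.q₃ a - D.q₁ a‖ →
      2 * ⟪D.q₂ a - D.q₁ a, D.q₃ a - D.q₁ a⟫_ℝ = -(‖D.q₂ a - D.q₁ a‖ * ‖D.q₃ a - D.q₁ a‖) →
      cr (D.q₂ e - D.q₁ e) (D.q₃ e - D.q₁ e) = 0 →
      c ≤ D.Psi e - D.Psi a := by
  have hμ := Data.mu_pos h1 h2 h3
  set μ := mu m₁ m₂ m₃ with hμdef
  set a0 := δ ^ 2 / 8 with ha0
  have ha0p : 0 < a0 := by positivity
  set η := a0 / (64 * μ ^ 2) with hη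
  have hηp : 0 < η := by positivity
  set κ := 1 / √(2 * C) with hκ
  have hs2C : 0 < √(2 * C) := Real.sqrt_pos.2 (by positivity)
  have hκp : 0 < κ := by positivity
  set M := m₁ + m₂ + m₃ with hM
  set β0 := m₁ * m₃ / M * (a0 / 2) * (a0 / 2 / (2 * (2 * μ) ^ 5)) with hβ0
  have hMp : 0 < M := by positivity
  have hβ0p : 0 < β0 := by positivity
  refine ⟨min (η ^ 2 / (2 * κ)) (m₂ ^ 2 * β0 ^ 2 * κ ^ 3 / 1536), lt_min (by positivity) (by positivity), ?_⟩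
  intro D hm hub a e hae hGa hERe hr1 hr2 hang hcol
  obtain ⟨e1, e2, e3⟩ := id hm
  obtain ⟨hA, hB⟩ := D.obtuse hδ hr1 hr2 hang
  have hwa := D.w_pos a
  have hRa := D.R_pos a
  have hE := D.hE
  have hκ2 : √(2 * C) * κ ≤ 1 := by rw [hκ]; field_simp; exact le_refl _
  set h := κ * D.w a ^ 3 with hh
  have hhp : 0 < h := by positivity
  have hlip : ∀ t, D.Near η a t → |D.Ar t - D.Ar a| ≤ a0 / 2 ∧ |D.Br t - D.Br a| ≤ a0 / 2 := by
    intro t ht
    have k1 := Data.Near.Ar_lip D hm ht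
    have k2 := Data.Near.Br_lip D hm ht
    rw [← hμdef] at k1 k2
    have k3 : 16 * μ ^ 2 * η ≤ a0 / 2 := by
      rw [hη]
      have : 16 * μ ^ 2 * (a0 / (64 * μ ^ 2)) = a0 / 4 := by field_simp; norm_num
      rw [this]
      linarith
    have k4 : 8 * μ ^ 2 * η ≤ 16 * μ ^ 2 * η := by
      have : 0 < μ ^ 2 * η := by positivity
      linarith
    exact ⟨by linarith, by linarith⟩
  by_cases hmove : ∃ t ∈ Icc a e, t ≤ a + h ∧ ¬ D.Near η a t
  · -- the configuration moves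
    obtain ⟨t, ht, hth, hnn⟩ := hmove
    have hc := D.cost_L (Z := fun s => s / D.w a ^ 3) (Z' := fun _ => 1 / D.w a ^ 3) (C₃ := κ)
      ht.1 hηp hκp (fun s _ => (hasDerivAt_id s).div_const _)
      (fun s hs => by
        have := D.w_mono hGa hs.1
        gcongr)
      (by
        rw [← sub_div, div_le_iff₀ (by positivity)]
        linarith)
      (fun η' hη' hn => hnn ⟨hn.1.trans hη'.le, hn.2.1.trans hη'.le, hn.2.2.trans hη'.le⟩)
    have hmon := D.Psi_mono ht.2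
    have := min_le_left (η ^ 2 / (2 * κ)) (m₂ ^ 2 * β0 ^ 2 * κ ^ 3 / 1536)
    linarith
  · push Not at hmove
    -- the window is contained in the interval
    have hwin : a + h < e := by
      by_contra hcon
      push Not at hcon
      have hn := hmove e (right_mem_Icc.2 hae) hcon
      have := (hlip e hn).1
      have hAe : D.Ar e = 0 := by rw [D.Ar_eq, hcol, zero_div]
      rw [hAe, zero_sub, abs_neg] at this
      linarith
    have hnear : ∀ t ∈ Icc a (a + h), D.Near η a t := fun t ht =>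
      hmove t ⟨ht.1, ht.2.trans hwin.le⟩ ht.2
    have hRt : ∀ t ∈ Icc a (a + h), D.R t ≤ 2 * D.R a := by
      intro t ht
      have hER : D.E * D.R t ≤ 1 := by
        have := D.R_mono (hGa.trans (D.G_mono ht.1)) (ht.2.trans hwin.le)
        calc D.E * D.R t ≤ D.E * D.R e := by gcongr
          _ ≤ 1 := hERe
      exact D.L_window_R hC hub hGa ht.1 hER hκ2 ht.2
    have hw5 : ∀ t ∈ Icc a (a + h), D.w t ^ 5 ≤ 8 * D.w a ^ 5 := by
      intro t ht
      have k1 := hRt t ht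
      rw [← D.w_sq, ← D.w_sq] at k1
      have hwt := D.w_pos t
      have k2 : D.w t ≤ 2 * D.w a := by
        apply le_of_sq_le_sq _ (by positivity)
        nlinarith [sq_nonneg (D.w a)]
      calc D.w t ^ 5 = (D.w t ^ 2) ^ 2 * D.w t := by ring
        _ ≤ (2 * D.w a ^ 2) ^ 2 * (2 * D.w a) := by gcongr
        _ = _ := by ring
    -- the sign
    obtain ⟨ε, hε, hεA⟩ : ∃ ε : ℝ, ε ^ 2 = 1 ∧ -ε * D.Ar a = |D.Ar a| := by
      rcases le_total 0 (D.Ar a) with hp | hp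
      · exact ⟨-1, by norm_num, by rw [abs_of_nonneg hp]; ring⟩
      · exact ⟨1, by norm_num, by rw [abs_of_nonpos hp]; ring⟩
    have hεabs : |ε| = 1 := by
      have : |ε| ^ 2 = 1 := by rw [sq_abs]; exact hε
      nlinarith [abs_nonneg ε]
    set β := β0 / (2 * D.R a) with hβ
    have hβp : 0 < β := by positivity
    have htor : ∀ t ∈ Icc a (a + h), β ≤ ε * D.c₂' t := by
      intro t ht
      obtain ⟨k1, k2⟩ := hlip t (hnear t ht)
      have hR := D.R_pos t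
      have hAt : a0 / 2 ≤ -ε * D.Ar t := by
        have k3 : -ε * D.Ar t = -ε * D.Ar a + -ε * (D.Ar t - D.Ar a) := by ring
        have k4 : |-ε * (D.Ar t - D.Ar a)| ≤ a0 / 2 := by
          rw [abs_mul, abs_neg, hεabs, one_mul]
          exact k1
        have := (abs_le.1 k4).1
        rw [k3, hεA]
        linarith
      have hBt : a0 / 2 ≤ D.Br t := by
        have := (abs_le.1 k2).1
        linarith
      unfold Data.Br at hBt
      rw [D.s32, D.s21] at hBt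
      have r1 := D.r_pos t
      unfold Data.r at r1
      have r2 := D.r32_pos t
      have hQ : ‖D.q₃ t - D.q₂ t‖ / D.R t ≤ 2 * μ := by
        rw [← D.s32]
        obtain ⟨b1, b2, b3⟩ := D.s_le hm t
        exact (norm_sub_le _ _).trans (by linarith)
      have hgap := inv_cube_gap (div_pos r1 hR) (div_pos r2 hR) (half_pos ha0p) hBt hQ
      have hAt' : -ε * cr (D.q₂ t - D.q₁ t) (D.q₃ t - D.q₁ t) = (-ε * D.Ar t) * D.R t ^ 2 := by
        rw [D.Ar_eq]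
        field_simp
      have hcube : 1 / ‖D.q₂ t - D.q₁ t‖ ^ 3 - 1 / ‖D.q₃ t - D.q₂ t‖ ^ 3 =
          (1 / (‖D.q₂ t - D.q₁ t‖ / D.R t) ^ 3 - 1 / (‖D.q₃ t - D.q₂ t‖ / D.R t) ^ 3) / D.R t ^ 3 := by
        field_simp
      have hMD : D.M = M := by unfold Data.M; rw [e1, e2, e3]
      have hexp : ε * D.c₂' t = m₁ * m₃ / M * (-ε * D.Ar t) *
          (1 / (‖D.q₂ t - D.q₁ t‖ / D.R t) ^ 3 - 1 / (‖D.q₃ t - D.q₂ t‖ / D.R t) ^ 3) / D.R t := by
        unfold Data.c₂'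
        rw [hcube, hMD, e1, e3]
        calc ε * -(m₁ * m₃ / M * cr (D.q₂ t - D.q₁ t) (D.q₃ t - D.q₁ t) *
              ((1 / (‖D.q₂ t - D.q₁ t‖ / D.R t) ^ 3 - 1 / (‖D.q₃ t - D.q₂ t‖ / D.R t) ^ 3) / D.R t ^ 3)) =
              m₁ * m₃ / M * (-ε * cr (D.q₂ t - D.q₁ t) (D.q₃ t - D.q₁ t)) *
              ((1 / (‖D.q₂ t - D.q₁ t‖ / D.R t) ^ 3 - 1 / (‖D.q₃ t - D.q₂ t‖ / D.R t) ^ 3) / D.R t ^ 3) := by
              ring
          _ = _ := by
              rw [hAt']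
              field_simp
      rw [hexp, hβ, hβ0]
      have hR2 := hRt t ht
      have hpos : 0 ≤ m₁ * m₃ / M * (-ε * D.Ar t) := mul_nonneg (by positivity) (by linarith)
      calc m₁ * m₃ / M * (a0 / 2) * (a0 / 2 / (2 * (2 * μ) ^ 5)) / (2 * D.R a) ≤
            m₁ * m₃ / M * (a0 / 2) * (a0 / 2 / (2 * (2 * μ) ^ 5)) / D.R t := by gcongr
        _ ≤ m₁ * m₃ / M * (-ε * D.Ar t) *
          (1 / (‖D.q₂ t - D.q₁ t‖ / D.R t) ^ 3 - 1 / (‖D.q₃ t - D.q₂ t‖ / D.R t) ^ 3) / D.R t := by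
          gcongr
    have hg := growth (D := D) hhp.le hβp.le hε hw5 htor
    have hmon := D.Psi_mono hwin.le
    have hval : D.m₂ ^ 2 * β ^ 2 * h ^ 3 / (384 * D.w a ^ 5) = m₂ ^ 2 * β0 ^ 2 * κ ^ 3 / 1536 := by
      rw [e2, hβ, hh, ← D.w_sq]
      field_simp
      ring
    have := min_le_right (η ^ 2 / (2 * κ)) (m₂ ^ 2 * β0 ^ 2 * κ ^ 3 / 1536)
    linarith

/-- cost in the first phase of separating a close pair -/
theorem X_L {m₁ m₂ m₃ δ C : ℝ} (h1 : 0 < m₁) (h2 : 0 < m₂) (h3 : 0 < m₃) (hδ : 0 < δ) (hC : 0 < C)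
    (hCδ : C * δ ≤ (m₁ + m₂) / 4) :
    ∃ c > 0, ∀ D : Data, HasMass D m₁ m₂ m₃ →
      ∀ a e, a ≤ e → 0 ≤ D.G a → D.E * D.R e ≤ 1 →
      (∀ t ∈ Icc a e, D.r t ≤ δ * D.R t) → (∀ t ∈ Icc a e, CloseFacts C D t) →
      D.r a ≤ δ / 2 * D.R a → δ * D.R e ≤ D.r e →
      c ≤ D.Psi e - D.Psi a := by
  have hμ := Data.mu_pos h1 h2 h3
  set μ := mu m₁ m₂ m₃ with hμdef
  set η := δ / (8 * μ) with hη
  have hηp : 0 < η := by positivity
  set C₃ := 4 / (m₁ + m₂) * (2 * √(2 * C)) with hC₃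
  have hs2C : 0 < √(2 * C) := Real.sqrt_pos.2 (by positivity)
  have hC₃p : 0 < C₃ := by positivity
  refine ⟨η ^ 2 / (2 * C₃), by positivity, ?_⟩
  intro D hm a e hae hGa hERe hr hcf hra hre
  obtain ⟨e1, e2, e3⟩ := id hm
  have hSD : D.S = m₁ + m₂ := by unfold Data.S; rw [e1, e2]
  have hE := D.hE
  have hERt : ∀ t ∈ Icc a e, D.E * D.R t ≤ 1 := by
    intro t ht
    have := D.R_mono (hGa.trans (D.G_mono ht.1)) ht.2
    calc D.E * D.R t ≤ D.E * D.R e := by gcongr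
      _ ≤ 1 := hERe
  refine D.cost_L (Z := fun t => 4 / D.S * D.B t) (Z' := fun t => 4 / D.S * D.B' t) hae hηp hC₃p
    (fun t _ => (D.hasDerivAt_B t).const_mul _)
    (fun t ht => (hcf t ht).B'_ge (hERt t ht) (hGa.trans (D.G_mono ht.1)) (hr t ht)
      (by rw [hSD]; exact hCδ)) ?_ ?_
  · rw [← mul_sub, hC₃, hSD]
    have a1 := abs_le.1 ((hcf e (right_mem_Icc.2 hae)).abs_B_le (hERt _ (right_mem_Icc.2 hae)))
    have a2 := abs_le.1 ((hcf a (left_mem_Icc.2 hae)).abs_B_le (hERt _ (left_mem_Icc.2 hae)))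
    gcongr
    linarith [a1.1, a1.2, a2.1, a2.2]
  · intro η' hη' hn
    obtain ⟨n1, n2, n3⟩ := Data.Near.le D hm hn
    rw [← hμdef] at n1 n2
    have hRa := D.R_pos a
    have hRe := D.R_pos e
    have k1 : ‖D.s₂ a - D.s₁ a‖ ≤ δ / 2 := by
      rw [D.s21, div_le_iff₀ hRa]
      exact hra
    have k2 : δ ≤ ‖D.s₂ e - D.s₁ e‖ := by
      rw [D.s21, le_div_iff₀ hRe]
      exact hre
    have k3 : ‖D.s₂ e - D.s₁ e‖ ≤ ‖D.s₂ a - D.s₁ a‖ + 2 * (μ * η') := by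
      have e5 : D.s₂ e - D.s₁ e = (D.s₂ a - D.s₁ a) + ((D.s₂ e - D.s₂ a) - (D.s₁ e - D.s₁ a)) := by ring
      rw [e5]
      refine (norm_add_le _ _).trans ?_
      have := norm_sub_le (D.s₂ e - D.s₂ a) (D.s₁ e - D.s₁ a)
      linarith
    have k4 : μ * η' ≤ μ * η := by gcongr
    have k5 : μ * η = δ / 8 := by rw [hη]; field_simp
    linarith

end Pool.Agent.H310.Three
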