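import Pool.Agent.H310.Three.Move

/-!
Cost of passing from an obtuse-angle configuration to a collinear one.
-/

open Filter Topology Set
open scoped InnerProductSpace

namespace Pool.Agent.H310.Three

/-- bound for normalised positions -/
noncomputable def mu (m₁ m₂ m₃ : ℝ) : ℝ := 1 / √m₁ + 1 / √m₂ + 1 / √m₃

namespace Data

variable (D : Data)

/-- signed area, normalised -/
noncomputable def Ar (t : ℝ) : ℝ := cr (D.s₂ t - D.s₁ t) (D.s₃ t - D.s₁ t)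

/-- difference of squared sides, normalised -/
noncomputable def Br (t : ℝ) : ℝ := ‖D.s₃ t - D.s₂ t‖ ^ 2 - ‖D.s₂ t - D.s₁ t‖ ^ 2

lemma s_sub (q q' : ℂ) (t : ℝ) : (1 / D.R t) • q - (1 / D.R t) • q' = (1 / D.R t) • (q - q') := by
  rw [smul_sub]

lemma s21 (t : ℝ) : ‖D.s₂ t - D.s₁ t‖ = ‖D.q₂ t - D.q₁ t‖ / D.R t := by
  have hR := D.R_pos t
  unfold s₂ s₁
  rw [s_sub, norm_smul, Real.norm_eq_abs, abs_of_pos (by positivity)]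
  ring

lemma s31 (t : ℝ) : ‖D.s₃ t - D.s₁ t‖ = ‖D.q₃ t - D.q₁ t‖ / D.R t := by
  have hR := D.R_pos t
  unfold s₃ s₁
  rw [s_sub, norm_smul, Real.norm_eq_abs, abs_of_pos (by positivity)]
  ring

lemma s32 (t : ℝ) : ‖D.s₃ t - D.s₂ t‖ = ‖D.q₃ t - D.q₂ t‖ / D.R t := by
  have hR := D.R_pos t
  unfold s₃ s₂
  rw [s_sub, norm_smul, Real.norm_eq_abs, abs_of_pos (by positivity)]
  ring

lemma Ar_eq (t : ℝ) : D.Ar t = cr (D.q₂ t - D.q₁ t) (D.q₃ t - D.q₁ t) / D.R t ^ 2 := by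
  have hR := D.R_pos t
  unfold Ar s₂ s₁ s₃
  rw [s_sub, s_sub, cr_smul_left, cr_smul_right]
  field_simp

variable {m₁ m₂ m₃ : ℝ}

lemma mu_pos (h1 : 0 < m₁) (h2 : 0 < m₂) (h3 : 0 < m₃) : 0 < mu m₁ m₂ m₃ := by
  unfold mu
  have a := Real.sqrt_pos.2 h1
  have b := Real.sqrt_pos.2 h2
  have c := Real.sqrt_pos.2 h3
  positivity

lemma inv_le_mu (h1 : 0 < m₁) (h2 : 0 < m₂) (h3 : 0 < m₃) :
    1 / √m₁ ≤ mu m₁ m₂ m₃ ∧ 1 / √m₂ ≤ mu m₁ m₂ m₃ ∧ 1 / √m₃ ≤ mu m₁ m₂ m₃ := by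
  unfold mu
  have a := Real.sqrt_pos.2 h1
  have b := Real.sqrt_pos.2 h2
  have c := Real.sqrt_pos.2 h3
  have a' : 0 < 1 / √m₁ := by positivity
  have b' : 0 < 1 / √m₂ := by positivity
  have c' : 0 < 1 / √m₃ := by positivity
  refine ⟨by linarith, by linarith, by linarith⟩

lemma s_le (hm : HasMass D m₁ m₂ m₃) (t : ℝ) :
    ‖D.s₁ t‖ ≤ mu m₁ m₂ m₃ ∧ ‖D.s₂ t‖ ≤ mu m₁ m₂ m₃ ∧ ‖D.s₃ t‖ ≤ mu m₁ m₂ m₃ := by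
  obtain ⟨e1, e2, e3⟩ := hm
  subst e1 e2 e3
  have h1 := D.h1
  have h2 := D.h2
  have h3 := D.h3
  have hR := D.R_pos t
  obtain ⟨i1, i2, i3⟩ := inv_le_mu h1 h2 h3
  have key : ∀ (m : ℝ) (q : ℂ), 0 < m → m * ‖q‖ ^ 2 ≤ D.R t ^ 2 → ‖(1 / D.R t) • q‖ ≤ 1 / √m := by
    intro m q hm hq
    have hs := Real.sqrt_pos.2 hm
    rw [norm_smul, Real.norm_eq_abs, abs_of_pos (by positivity), one_div, inv_mul_eq_div,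
      div_le_div_iff₀ hR hs, one_mul]
    apply le_of_sq_le_sq _ hR.le
    rw [mul_pow, Real.sq_sqrt hm.le]
    linarith
  have a1 : 0 ≤ D.m₁ * ‖D.q₁ t‖ ^ 2 := by positivity
  have a2 : 0 ≤ D.m₂ * ‖D.q₂ t‖ ^ 2 := by positivity
  have a3 : 0 ≤ D.m₃ * ‖D.q₃ t‖ ^ 2 := by positivity
  have hI : D.R t ^ 2 = D.m₁ * ‖D.q₁ t‖ ^ 2 + D.m₂ * ‖D.q₂ t‖ ^ 2 + D.m₃ * ‖D.q₃ t‖ ^ 2 := by
    rw [D.R_sq]
    rfl
  exact ⟨(key _ _ h1 (by linarith)).trans i1, (key _ _ h2 (by linarith)).trans i2,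
    (key _ _ h3 (by linarith)).trans i3⟩

lemma Near.le (hm : HasMass D m₁ m₂ m₃) {η a t : ℝ} (h : D.Near η a t) :
    ‖D.s₁ t - D.s₁ a‖ ≤ mu m₁ m₂ m₃ * η ∧ ‖D.s₂ t - D.s₂ a‖ ≤ mu m₁ m₂ m₃ * η ∧
      ‖D.s₃ t - D.s₃ a‖ ≤ mu m₁ m₂ m₃ * η := by
  obtain ⟨e1, e2, e3⟩ := hm
  subst e1 e2 e3
  have h1 := D.h1
  have h2 := D.h2
  have h3 := D.h3
  obtain ⟨i1, i2, i3⟩ := inv_le_mu h1 h2 h3
  obtain ⟨n1, n2, n3⟩ := h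
  have hη : 0 ≤ η := le_trans (by positivity) n1
  have key : ∀ (m : ℝ) (z : ℂ), 0 < m → √m * ‖z‖ ≤ η → ‖z‖ ≤ 1 / √m * η := by
    intro m z hm hz
    have hs := Real.sqrt_pos.2 hm
    rw [one_div, inv_mul_eq_div, le_div_iff₀ hs]
    linarith
  exact ⟨(key _ _ h1 n1).trans (by gcongr), (key _ _ h2 n2).trans (by gcongr),
    (key _ _ h3 n3).trans (by gcongr)⟩

lemma Near.Ar_lip (hm : HasMass D m₁ m₂ m₃) {η a t : ℝ} (h : D.Near η a t) :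
    |D.Ar t - D.Ar a| ≤ 8 * mu m₁ m₂ m₃ ^ 2 * η := by
  obtain ⟨n1, n2, n3⟩ := Near.le D hm h
  obtain ⟨b1, b2, b3⟩ := D.s_le hm t
  obtain ⟨b1', b2', b3'⟩ := D.s_le hm a
  set μ := mu m₁ m₂ m₃
  have hμ0 : 0 ≤ μ := (norm_nonneg _).trans b1
  have hμη : 0 ≤ μ * η := (norm_nonneg _).trans n1
  have e : D.Ar t - D.Ar a = cr ((D.s₂ t - D.s₂ a) - (D.s₁ t - D.s₁ a)) (D.s₃ t - D.s₁ t) +
      cr (D.s₂ a - D.s₁ a) ((D.s₃ t - D.s₃ a) - (D.s₁ t - D.s₁ a)) := by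
    unfold Ar
    simp only [cr_sub_left, cr_sub_right]
    ring
  rw [e]
  have k1 : ‖(D.s₂ t - D.s₂ a) - (D.s₁ t - D.s₁ a)‖ ≤ 2 * (μ * η) :=
    (norm_sub_le _ _).trans (by linarith)
  have k2 : ‖(D.s₃ t - D.s₃ a) - (D.s₁ t - D.s₁ a)‖ ≤ 2 * (μ * η) :=
    (norm_sub_le _ _).trans (by linarith)
  have k3 : ‖D.s₃ t - D.s₁ t‖ ≤ 2 * μ := (norm_sub_le _ _).trans (by linarith)
  have k4 : ‖D.s₂ a - D.s₁ a‖ ≤ 2 * μ := (norm_sub_le _ _).trans (by linarith)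
  refine (abs_add_le _ _).trans ?_
  calc _ ≤ (2 * (μ * η)) * (2 * μ) + (2 * μ) * (2 * (μ * η)) := by
        apply add_le_add
        · refine (abs_cr_le _ _).trans ?_
          gcongr
        · refine (abs_cr_le _ _).trans ?_
          gcongr
    _ = _ := by ring

lemma sq_lip {x y : ℂ} {d b : ℝ} (h : ‖x - y‖ ≤ d) (hx : ‖x‖ ≤ b) (hy : ‖y‖ ≤ b) :
    |‖x‖ ^ 2 - ‖y‖ ^ 2| ≤ 2 * b * d := by
  have h1 := abs_norm_sub_norm_le x y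
  have e : ‖x‖ ^ 2 - ‖y‖ ^ 2 = (‖x‖ + ‖y‖) * (‖x‖ - ‖y‖) := by ring
  rw [e, abs_mul, abs_of_nonneg (by positivity)]
  have hb : 0 ≤ b := (norm_nonneg _).trans hx
  have hd : 0 ≤ d := (norm_nonneg _).trans h
  calc (‖x‖ + ‖y‖) * |‖x‖ - ‖y‖| ≤ (b + b) * d := by
        gcongr
        exact h1.trans h
    _ = _ := by ring

lemma Near.Br_lip (hm : HasMass D m₁ m₂ m₃) {η a t : ℝ} (h : D.Near η a t) :
    |D.Br t - D.Br a| ≤ 16 * mu m₁ m₂ m₃ ^ 2 * η := by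
  obtain ⟨n1, n2, n3⟩ := Near.le D hm h
  obtain ⟨b1, b2, b3⟩ := D.s_le hm t
  obtain ⟨b1', b2', b3'⟩ := D.s_le hm a
  set μ := mu m₁ m₂ m₃
  have k1 : ‖(D.s₂ t - D.s₁ t) - (D.s₂ a - D.s₁ a)‖ ≤ 2 * (μ * η) := by
    have e : (D.s₂ t - D.s₁ t) - (D.s₂ a - D.s₁ a) = (D.s₂ t - D.s₂ a) - (D.s₁ t - D.s₁ a) := by ring
    rw [e]
    exact (norm_sub_le _ _).trans (by linarith)
  have k2 : ‖(D.s₃ t - D.s₂ t) - (D.s₃ a - D.s₂ a)‖ ≤ 2 * (μ * η) := by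
    have e : (D.s₃ t - D.s₂ t) - (D.s₃ a - D.s₂ a) = (D.s₃ t - D.s₃ a) - (D.s₂ t - D.s₂ a) := by ring
    rw [e]
    exact (norm_sub_le _ _).trans (by linarith)
  have k3 : ‖D.s₃ t - D.s₂ t‖ ≤ 2 * μ := (norm_sub_le _ _).trans (by linarith)
  have k4 : ‖D.s₂ t - D.s₁ t‖ ≤ 2 * μ := (norm_sub_le _ _).trans (by linarith)
  have k5 : ‖D.s₃ a - D.s₂ a‖ ≤ 2 * μ := (norm_sub_le _ _).trans (by linarith)
  have k6 : ‖D.s₂ a - D.s₁ a‖ ≤ 2 * μ := (norm_sub_le _ _).trans (by linarith)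
  have l1 := sq_lip k1 k4 k6
  have l2 := sq_lip k2 k3 k5
  unfold Br
  have e : ‖D.s₃ t - D.s₂ t‖ ^ 2 - ‖D.s₂ t - D.s₁ t‖ ^ 2 - (‖D.s₃ a - D.s₂ a‖ ^ 2 - ‖D.s₂ a - D.s₁ a‖ ^ 2) =
      (‖D.s₃ t - D.s₂ t‖ ^ 2 - ‖D.s₃ a - D.s₂ a‖ ^ 2) - (‖D.s₂ t - D.s₁ t‖ ^ 2 - ‖D.s₂ a - D.s₁ a‖ ^ 2) := by
    ring
  rw [e]
  refine (abs_sub _ _).trans ?_
  linarith

/-- facts at a time where the angle at the first body is 120 degrees -/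
lemma obtuse {a δ : ℝ} (hδ : 0 < δ) (h1 : δ / 2 * D.R a ≤ ‖D.q₂ a - D.q₁ a‖)
    (h2 : δ / 2 * D.R a ≤ ‖D.q₃ a - D.q₁ a‖)
    (h3 : 2 * ⟪D.q₂ a - D.q₁ a, D.q₃ a - D.q₁ a⟫_ℝ = -(‖D.q₂ a - D.q₁ a‖ * ‖D.q₃ a - D.q₁ a‖)) :
    δ ^ 2 / 8 ≤ |D.Ar a| ∧ δ ^ 2 / 8 ≤ D.Br a := by
  have hR := D.R_pos a
  constructor
  · rw [D.Ar_eq, abs_div, abs_of_pos (by positivity : 0 < D.R a ^ 2), le_div_iff₀ (by positivity)]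
    have hl := lagrange (D.q₂ a - D.q₁ a) (D.q₃ a - D.q₁ a)
    have h4 : (1 / 2 * (‖D.q₂ a - D.q₁ a‖ * ‖D.q₃ a - D.q₁ a‖)) ^ 2 ≤
        cr (D.q₂ a - D.q₁ a) (D.q₃ a - D.q₁ a) ^ 2 := by
      have h5 : ⟪D.q₂ a - D.q₁ a, D.q₃ a - D.q₁ a⟫_ℝ =
        -(1 / 2 * (‖D.q₂ a - D.q₁ a‖ * ‖D.q₃ a - D.q₁ a‖)) := by linarith
      rw [h5] at hl
      nlinarith [sq_nonneg (‖D.q₂ a - D.q₁ a‖ * ‖D.q₃ a - D.q₁ a‖)]
    have h6 := sq_le_sq.1 h4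
    rw [abs_of_nonneg (by positivity)] at h6
    calc δ ^ 2 / 8 * D.R a ^ 2 = 1 / 2 * ((δ / 2 * D.R a) * (δ / 2 * D.R a)) := by ring
      _ ≤ 1 / 2 * (‖D.q₂ a - D.q₁ a‖ * ‖D.q₃ a - D.q₁ a‖) := by gcongr
      _ ≤ _ := h6
  · unfold Br
    rw [D.s32, D.s21]
    have e : D.q₃ a - D.q₂ a = (D.q₃ a - D.q₁ a) - (D.q₂ a - D.q₁ a) := by ring
    have e2 : ‖D.q₃ a - D.q₂ a‖ ^ 2 = ‖D.q₃ a - D.q₁ a‖ ^ 2 +
        ‖D.q₂ a - D.q₁ a‖ * ‖D.q₃ a - D.q₁ a‖ + ‖D.q₂ a - D.q₁ a‖ ^ 2 := by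
      rw [e, norm_sub_sq_real, real_inner_comm]
      linarith
    rw [div_pow, div_pow, e2, ← sub_div, le_div_iff₀ (by positivity)]
    have h4 : (δ / 2 * D.R a) ^ 2 ≤ ‖D.q₃ a - D.q₁ a‖ ^ 2 := by gcongr
    have h5 : 0 ≤ ‖D.q₂ a - D.q₁ a‖ * ‖D.q₃ a - D.q₁ a‖ := by positivity
    nlinarith [sq_nonneg (δ * D.R a)]

/-- angular momentum of the second body -/
noncomputable def c₂ (t : ℝ) : ℝ := cr (D.q₂ t) (D.p₂ t)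

/-- its derivative -/
noncomputable def c₂' (t : ℝ) : ℝ := -(D.m₁ * D.m₃ / D.M *
  cr (D.q₂ t - D.q₁ t) (D.q₃ t - D.q₁ t) * (1 / ‖D.q₂ t - D.q₁ t‖ ^ 3 - 1 / ‖D.q₃ t - D.q₂ t‖ ^ 3))

lemma hasDerivAt_c₂ (t : ℝ) : HasDerivAt D.c₂ (D.c₂' t) t := by
  have h := hasDerivAt_cr (D.d2 t) (D.a2 t)
  refine h.congr_deriv ?_
  rw [cr_self, zero_add]
  have hM := D.M_pos
  have h1 := D.h1
  have cm := D.cm t
  have k1 : D.m₁ * cr (D.q₂ t) (D.q₁ t) + D.m₃ * cr (D.q₂ t) (D.q₃ t) = 0 := by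
    have : cr (D.q₂ t) (D.m₁ • D.q₁ t + D.m₂ • D.q₂ t + D.m₃ • D.q₃ t) = 0 := by
      rw [cm]; simp [cr]
    simp only [cr_add_right, cr_smul_right, cr_self] at this
    linarith
  have k2 : D.m₁ * cr (D.q₃ t) (D.q₁ t) + D.m₂ * cr (D.q₃ t) (D.q₂ t) = 0 := by
    have : cr (D.q₃ t) (D.m₁ • D.q₁ t + D.m₂ • D.q₂ t + D.m₃ • D.q₃ t) = 0 := by
      rw [cm]; simp [cr]
    simp only [cr_add_right, cr_smul_right, cr_self] at this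
    linarith
  have k3 : D.m₁ * cr (D.q₂ t - D.q₁ t) (D.q₃ t - D.q₁ t) = D.M * cr (D.q₂ t) (D.q₃ t) := by
    simp only [cr_sub_left, cr_sub_right, cr_self]
    rw [cr_swap (D.q₁ t) (D.q₃ t)]
    rw [cr_swap (D.q₃ t) (D.q₂ t)] at k2
    unfold M
    linarith
  unfold c₂'
  have k4 : D.m₁ * D.m₃ / D.M * cr (D.q₂ t - D.q₁ t) (D.q₃ t - D.q₁ t) =
      D.m₃ * cr (D.q₂ t) (D.q₃ t) := by
    calc D.m₁ * D.m₃ / D.M * cr (D.q₂ t - D.q₁ t) (D.q₃ t - D.q₁ t) =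
          D.m₃ / D.M * (D.m₁ * cr (D.q₂ t - D.q₁ t) (D.q₃ t - D.q₁ t)) := by ring
      _ = _ := by rw [k3]; field_simp
  rw [k4]
  simp only [cr_add_right, cr_smul_right, cr_sub_right, cr_self]
  have k5 : D.m₁ / ‖D.q₂ t - D.q₁ t‖ ^ 3 * (cr (D.q₂ t) (D.q₁ t) - 0) =
      -(D.m₃ * cr (D.q₂ t) (D.q₃ t)) / ‖D.q₂ t - D.q₁ t‖ ^ 3 := by
    have : D.m₁ * cr (D.q₂ t) (D.q₁ t) = -(D.m₃ * cr (D.q₂ t) (D.q₃ t)) := by linarith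
    rw [← this]
    ring
  rw [k5]
  ring

lemma c₂_sq_le (t : ℝ) : D.m₂ ^ 2 * D.c₂ t ^ 2 ≤ D.J2 t := by
  have hR := D.R_pos t
  have hI := D.I_pos t
  have h2 := D.h2
  have hs := Real.sqrt_pos.2 h2
  have hs2 : √D.m₂ ^ 2 = D.m₂ := Real.sq_sqrt h2.le
  have e : D.c₂ t = D.R t * cr (D.q₂ t) (sd (D.R t) (D.G t) (D.q₂ t) (D.p₂ t)) := by
    unfold sd c₂
    rw [cr_sub_right, cr_smul_right, cr_smul_right, cr_self]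
    field_simp
    ring
  have h3 : √D.m₂ * ‖D.q₂ t‖ ≤ D.R t := by
    apply le_of_sq_le_sq _ hR.le
    rw [mul_pow, hs2, D.R_sq]
    unfold I
    have h1 := D.h1
    have h3 := D.h3
    have a : 0 ≤ D.m₁ * ‖D.q₁ t‖ ^ 2 := by positivity
    have b : 0 ≤ D.m₃ * ‖D.q₃ t‖ ^ 2 := by positivity
    linarith
  have h4 := D.sd₂_le t
  have h5 : D.m₂ * |D.c₂ t| ≤ √(D.J2 t) := by
    rw [e, abs_mul, abs_of_pos hR]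
    have h6 := abs_cr_le (D.q₂ t) (sd (D.R t) (D.G t) (D.q₂ t) (D.p₂ t))
    calc D.m₂ * (D.R t * |cr (D.q₂ t) (sd (D.R t) (D.G t) (D.q₂ t) (D.p₂ t))|) ≤
          D.m₂ * (D.R t * (‖D.q₂ t‖ * ‖sd (D.R t) (D.G t) (D.q₂ t) (D.p₂ t)‖)) := by gcongr
      _ = D.R t * ((√D.m₂ * ‖D.q₂ t‖) * (√D.m₂ * ‖sd (D.R t) (D.G t) (D.q₂ t) (D.p₂ t)‖)) := by
        nth_rewrite 1 [← hs2]
        ring
      _ ≤ D.R t * (D.R t * D.sp t) := by gcongr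
      _ = √(D.J2 t) := by
        unfold sp
        rw [← D.R_sq]
        field_simp
  have h7 : (D.m₂ * |D.c₂ t|) ^ 2 ≤ √(D.J2 t) ^ 2 := by gcongr
  rw [Real.sq_sqrt (D.J2_nonneg t), mul_pow, sq_abs] at h7
  exact h7

end Data

lemma inv_cube_gap {p q b Q : ℝ} (hp : 0 < p) (hq : 0 < q) (hb : 0 < b) (h : b ≤ q ^ 2 - p ^ 2)
    (hQ : q ≤ Q) : b / (2 * Q ^ 5) ≤ 1 / p ^ 3 - 1 / q ^ 3 := by
  have hpq : p < q := by nlinarith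
  have hQ0 : 0 < Q := by linarith
  have e : 1 / p ^ 3 - 1 / q ^ 3 = (q ^ 3 - p ^ 3) / (p ^ 3 * q ^ 3) := by
    field_simp
  rw [e, div_le_div_iff₀ (by positivity) (by positivity)]
  have h1 : b * q / 2 ≤ q ^ 3 - p ^ 3 := by
    have h2 : (q ^ 2 - p ^ 2) * q / 2 ≤ q ^ 3 - p ^ 3 := by
      have : q ^ 3 - p ^ 3 - (q ^ 2 - p ^ 2) * q / 2 = (q - p) * (q ^ 2 / 2 + p * q / 2 + p ^ 2) := by ring
      have h3 : 0 ≤ (q - p) * (q ^ 2 / 2 + p * q / 2 + p ^ 2) :=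
        mul_nonneg (by linarith) (by positivity)
      linarith
    have : b * q ≤ (q ^ 2 - p ^ 2) * q := by gcongr
    linarith
  have h4 : p ^ 3 * q ^ 2 ≤ Q ^ 5 := by
    calc p ^ 3 * q ^ 2 ≤ Q ^ 3 * Q ^ 2 := by
          gcongr
          linarith
      _ = Q ^ 5 := by ring
  calc b * (p ^ 3 * q ^ 3) = b * q * (p ^ 3 * q ^ 2) := by ring
    _ ≤ b * q * Q ^ 5 := by gcongr
    _ = (b * q / 2) * (2 * Q ^ 5) := by ring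
    _ ≤ (q ^ 3 - p ^ 3) * (2 * Q ^ 5) := by gcongr

end Pool.Agent.H310.Three
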