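import Pool.Agent.H310.Three.Defs
import Pool.Agent.H310.Three.Global

/-!
From hyperbolic solutions to systems, and from words to chains.
-/

open Filter Topology Set
open scoped InnerProductSpace

namespace Pool.Agent.H310.ThreeBody

open Pool.Agent.H310.Three

variable {m : Fin 3 → ℝ} {q : ℝ → Fin 3 → ℂ}

lemma IsHyperbolic.hq (h : IsHyperbolic m q) (a : Fin 3) (t : ℝ) :
    HasDerivAt (fun s => q s a) (vel q t a) t := (h.diff a t).hasDerivAt

lemma IsHyperbolic.hv (h : IsHyperbolic m q) (a : Fin 3) (t : ℝ) :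
    HasDerivAt (fun s => vel q s a) (acc q t a) t := (h.diff_vel a t).hasDerivAt

lemma erase_eq {a b c : Fin 3} (hab : a ≠ b) (hac : a ≠ c) (hbc : b ≠ c) :
    (Finset.univ : Finset (Fin 3)).erase a = {b, c} := by
  revert a b c
  decide

lemma IsHyperbolic.acc_eq (h : IsHyperbolic m q) (hm : ∀ i, 0 < m i) {a b c : Fin 3} (hab : a ≠ b)
    (hac : a ≠ c) (hbc : b ≠ c) (t : ℝ) :
    acc q t a = (m b / ‖q t b - q t a‖ ^ 3) • (q t b - q t a) +
      (m c / ‖q t c - q t a‖ ^ 3) • (q t c - q t a) := by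
  have h1 := h.newton t a
  rw [erase_eq hab hac hbc, Finset.sum_pair hbc] at h1
  have h2 : (m a)⁻¹ • (m a • acc q t a) = (m a)⁻¹ • ((m a * m b / ‖q t b - q t a‖ ^ 3) • (q t b - q t a) +
      (m a * m c / ‖q t c - q t a‖ ^ 3) • (q t c - q t a)) := by rw [h1]
  rw [smul_smul, inv_mul_cancel₀ (hm a).ne', one_smul, smul_add, smul_smul, smul_smul] at h2
  rw [h2]
  have := (hm a).ne'
  congr 2 <;> field_simp

lemma IsHyperbolic.pos (h : IsHyperbolic m q) {a b : Fin 3} (hab : a ≠ b) (t : ℝ) :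
    0 < ‖q t b - q t a‖ :=
  norm_pos_iff.2 (sub_ne_zero.2 fun e => hab (h.collision_free t e.symm))

lemma IsHyperbolic.momentum (h : IsHyperbolic m q) (t : ℝ) : ∑ a, m a • vel q t a = 0 := by
  have h1 : HasDerivAt (fun s => ∑ a, m a • q s a) (∑ a, m a • vel q t a) t := by
    have := HasDerivAt.sum (u := Finset.univ) (fun a _ => (h.hq a t).const_smul (m a))
    refine this.congr_of_eventuallyEq ?_
    filter_upwards with s
    simp
  have h2 : (fun s => ∑ a, m a • q s a) = fun _ => 0 := by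
    funext s
    exact h.centre s
  rw [h2] at h1
  exact h1.unique (hasDerivAt_const t 0)

lemma hasDerivAt_pot {f g : ℝ → ℂ} {f' g' : ℂ} {t c : ℝ} (hf : HasDerivAt f f' t)
    (hg : HasDerivAt g g' t) (h : f t - g t ≠ 0) :
    HasDerivAt (fun s => c / ‖f s - g s‖) (-(c / ‖f t - g t‖ ^ 3 * ⟪f t - g t, f' - g'⟫_ℝ)) t := by
  have h1 := hasDerivAt_norm (hf.sub hg) h
  have hn : 0 < ‖f t - g t‖ := norm_pos_iff.2 h
  have h2 := (h1.inv hn.ne').const_mul c
  have e : (fun s => c / ‖f s - g s‖) = fun s => c * (fun s => ‖f s - g s‖)⁻¹ s := by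
    funext s
    simp [div_eq_mul_inv]
  rw [e]
  refine h2.congr_deriv ?_
  have : ‖(f - g) t‖ = ‖f t - g t‖ := rfl
  simp only [Pi.sub_apply]
  field_simp

lemma IsHyperbolic.energy_const (h : IsHyperbolic m q) (hm : ∀ i, 0 < m i) (t : ℝ) :
    energy m q t = energy m q 0 := by
  have hd : ∀ t, HasDerivAt (energy m q) 0 t := by
    intro t
    have k : ∀ a, HasDerivAt (fun s => m a * ‖vel q s a‖ ^ 2) (m a * (2 * ⟪vel q t a, acc q t a⟫_ℝ)) t :=
      fun a => ((h.hv a t).norm_sq).const_mul (m a)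
    have p10 := hasDerivAt_pot (c := m 0 * m 1) (h.hq 1 t) (h.hq 0 t)
      (norm_pos_iff.1 (h.pos (by decide : (0 : Fin 3) ≠ 1) t))
    have p20 := hasDerivAt_pot (c := m 0 * m 2) (h.hq 2 t) (h.hq 0 t)
      (norm_pos_iff.1 (h.pos (by decide : (0 : Fin 3) ≠ 2) t))
    have p21 := hasDerivAt_pot (c := m 1 * m 2) (h.hq 2 t) (h.hq 1 t)
      (norm_pos_iff.1 (h.pos (by decide : (1 : Fin 3) ≠ 2) t))
    have e : energy m q = fun t => (m 0 * ‖vel q t 0‖ ^ 2 + m 1 * ‖vel q t 1‖ ^ 2 +
        m 2 * ‖vel q t 2‖ ^ 2) / 2 - (m 0 * m 1 / ‖q t 1 - q t 0‖ + m 0 * m 2 / ‖q t 2 - q t 0‖ +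
        m 1 * m 2 / ‖q t 2 - q t 1‖) := by
      funext s
      unfold energy
      rw [Fin.sum_univ_three]
    rw [e]
    refine (((((k 0).add (k 1)).add (k 2)).div_const 2).sub ((p10.add p20).add p21)).congr_deriv ?_
    rw [h.acc_eq hm (by decide : (0 : Fin 3) ≠ 1) (by decide : (0 : Fin 3) ≠ 2) (by decide) t,
      h.acc_eq hm (by decide : (1 : Fin 3) ≠ 0) (by decide : (1 : Fin 3) ≠ 2) (by decide) t,
      h.acc_eq hm (by decide : (2 : Fin 3) ≠ 0) (by decide : (2 : Fin 3) ≠ 1) (by decide) t]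
    rw [norm_sub_rev (q t 0) (q t 1), norm_sub_rev (q t 0) (q t 2), norm_sub_rev (q t 1) (q t 2)]
    simp only [inner_add_right, inner_smul_right, inner_sub_left, inner_sub_right]
    simp only [real_inner_comm (q t 0) (vel q t 0), real_inner_comm (q t 0) (vel q t 1),
      real_inner_comm (q t 0) (vel q t 2), real_inner_comm (q t 1) (vel q t 0),
      real_inner_comm (q t 1) (vel q t 1), real_inner_comm (q t 1) (vel q t 2),
      real_inner_comm (q t 2) (vel q t 0), real_inner_comm (q t 2) (vel q t 1),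
      real_inner_comm (q t 2) (vel q t 2)]
    ring
  have hdiff : Differentiable ℝ (energy m q) := fun t => (hd t).differentiableAt
  exact is_const_of_deriv_eq_zero hdiff (fun t => (hd t).deriv) t 0

lemma IsHyperbolic.not_collapse {F : Filter ℝ} [F.NeBot] {s : Fin 3 → ℂ} (hs : Function.Injective s)
    (hF : Tendsto (fun t => (massNorm m (q t))⁻¹ • q t) F (𝓝 s)) {a b : Fin 3} (hab : a ≠ b) :
    ¬ Tendsto (fun t => ‖q t b - q t a‖ / √(∑ i, m i * ‖q t i‖ ^ 2)) F (𝓝 0) := by
  intro hc
  have h1 := tendsto_pi_nhds.1 hF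
  have h2 := ((h1 b).sub (h1 a)).norm
  have h3 : (fun t => ‖((massNorm m (q t))⁻¹ • q t) b - ((massNorm m (q t))⁻¹ • q t) a‖) =
      fun t => ‖q t b - q t a‖ / √(∑ i, m i * ‖q t i‖ ^ 2) := by
    funext t
    have h0 : 0 ≤ massNorm m (q t) := Real.sqrt_nonneg _
    rw [Pi.smul_apply, Pi.smul_apply, ← smul_sub, norm_smul, norm_inv, Real.norm_eq_abs,
      abs_of_nonneg h0, inv_mul_eq_div]
    rfl
  rw [h3] at h2
  have h4 := tendsto_nhds_unique hc h2
  have h5 : s b - s a = 0 := norm_eq_zero.1 h4.symm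
  exact hab (hs (sub_eq_zero.1 h5).symm)

/-- the system attached to a hyperbolic solution -/
noncomputable def IsHyperbolic.sys (h : IsHyperbolic m q) (hm : ∀ i, 0 < m i) : Sys m where
  E := energy m q 0
  q := fun i t => q t i
  p := fun i t => vel q t i
  hm := hm
  hE := h.energy_pos 0
  dq := h.hq
  dp := fun a b c hab hac hbc t => (h.hv a t).congr_deriv (h.acc_eq hm hab hac hbc t)
  nq := fun a b hab t e => hab (h.collision_free t e)
  cm := h.centre
  mo := h.momentum
  en := fun t => h.energy_const hm t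
  nc := fun a b hab => by
    obtain ⟨s, hs, hF⟩ := h.future
    exact IsHyperbolic.not_collapse hs hF hab
  nc' := fun a b hab => by
    obtain ⟨s, hs, hF⟩ := h.past
    exact IsHyperbolic.not_collapse hs hF hab

lemma same_pair {a b c b' c' : Fin 3} (h1 : b ≠ a) (h2 : c ≠ a) (h3 : b ≠ c) (h1' : a ≠ b')
    (h2' : a ≠ c') (h3' : b' ≠ c') : (b' = b ∧ c' = c) ∨ (b' = c ∧ c' = b) := by
  revert a b c b' c'
  decide

lemma IsEclipse.ecl (h : IsHyperbolic m q) (hm : ∀ i, 0 < m i) {a : Fin 3} {t : ℝ}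
    (he : IsEclipse q t a) : (h.sys hm).Ecl a t := by
  obtain ⟨b, c, h1, h2, h3, h4⟩ := he
  intro b' c' h1' h2' h3'
  rcases same_pair h1 h2 h3 h1' h2' h3' with ⟨e1, e2⟩ | ⟨e1, e2⟩
  · rw [e1, e2]
    exact h4
  · rw [e1, e2, openSegment_symm]
    exact h4

lemma DeleteStutter.sublist {w w' : List (Fin 3)} (h : DeleteStutter w w') : w'.Sublist w := by
  obtain ⟨u, v, a, rfl, rfl⟩ := h
  exact List.Sublist.append_left (List.Sublist.cons _ (List.Sublist.cons _ (List.Sublist.refl v))) u

lemma reduce_sublist {w r : List (Fin 3)} (h : Relation.ReflTransGen DeleteStutter w r) :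
    r.Sublist w := by
  induction h with
  | refl => exact List.Sublist.refl _
  | tail _ h2 ih => exact h2.sublist.trans ih

lemma forall₂_sublist {α β : Type*} {R : α → β → Prop} {w r : List β} (h : r.Sublist w) :
    ∀ {ts : List α}, List.Forall₂ R ts w → ∃ ts' : List α, ts'.Sublist ts ∧ List.Forall₂ R ts' r := by
  induction h with
  | slnil =>
    intro ts _
    exact ⟨[], List.nil_sublist _, List.Forall₂.nil⟩
  | cons b h ih =>
    intro ts hts
    cases hts with
    | cons h1 h2 =>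
      obtain ⟨ts', k1, k2⟩ := ih h2
      exact ⟨ts', k1.cons _, k2⟩
  | cons_cons b h ih =>
    intro ts hts
    cases hts with
    | cons h1 h2 =>
      obtain ⟨ts', k1, k2⟩ := ih h2
      exact ⟨_ :: ts', k1.cons_cons _, List.Forall₂.cons h1 k2⟩

lemma Reduced.ne {r : List (Fin 3)} (h : Reduced r) {j : ℕ} (hj : j + 1 < r.length) :
    r[j]'(by omega) ≠ r[j + 1] := by
  intro e
  refine h (r.take j ++ r.drop (j + 2)) ⟨r.take j, r.drop (j + 2), r[j]'(by omega), ?_, rfl⟩
  have h1 : r.drop j = r[j]'(by omega) :: r.drop (j + 1) := List.drop_eq_getElem_cons (by omega)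
  have h2 : r.drop (j + 1) = r[j + 1] :: r.drop (j + 1 + 1) := List.drop_eq_getElem_cons (by omega)
  conv_lhs => rw [← List.take_append_drop j r, h1, h2, ← e]

/-- bound for the length of reduced eclipse sequences -/
theorem length_bound (hm : ∀ i, 0 < m i) : ∃ N : ℕ, ∀ q, IsHyperbolic m q →
    ∀ r, IsReducedEclipseSequence q r → r.length ≤ N := by
  obtain ⟨N, hN⟩ := chain_all hm
  refine ⟨N + 1, ?_⟩
  rintro q hq r ⟨w, ⟨ts, hts, _, hw⟩, hwr, hr⟩
  obtain ⟨ts', hsub, hf⟩ := forall₂_sublist (reduce_sublist hwr) hw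
  have hsorted : ts'.Pairwise (· < ·) := hts.sublist hsub
  have hlen : ts'.length = r.length := hf.length_eq
  have hget : ∀ j (h1 : j < ts'.length) (h2 : j < r.length), IsEclipse q ts'[j] r[j] := by
    intro j h1 h2
    have := (List.forall₂_iff_get.1 hf).2 j h1 h2
    simpa using this
  by_contra hcon
  push Not at hcon
  have := hN (hq.sys hm) (N + 1) (fun j => if h : j < ts'.length then ts'[j] else 0)
    (fun j => if h : j < r.length then r[j] else 0) ?_ ?_ ?_ ?_
  · omega
  · intro j hj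
    have h1 : j < ts'.length := by omega
    have h2 : j + 1 < ts'.length := by omega
    simp only [h1, h2, dite_true]
    exact List.pairwise_iff_getElem.1 hsorted j (j + 1) h1 h2 (by omega)
  · intro j _
    exact mem_univ _
  · intro j hj
    have h1 : j < ts'.length := by omega
    have h2 : j < r.length := by omega
    simp only [h1, h2, dite_true]
    exact IsEclipse.ecl hq hm (hget j h1 h2)
  · intro j hj
    have h1 : j < r.length := by omega
    have h2 : j + 1 < r.length := by omega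
    simp only [h1, h2, dite_true]
    exact hr.ne h2

/-- an alternating word -/
def alt (n : ℕ) : List (Fin 3) := (List.range n).map fun i => if i % 2 = 0 then 0 else 1

lemma length_alt (n : ℕ) : (alt n).length = n := by simp [alt]

lemma reduced_alt (n : ℕ) : Reduced (alt n) := by
  rintro w' ⟨u, v, a, h, -⟩
  have h1 : (alt n)[u.length]? = some a := by
    rw [h, List.getElem?_append_right le_rfl]
    simp
  have h2 : (alt n)[u.length + 1]? = some a := by
    rw [h, List.getElem?_append_right (by omega)]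
    simp
  unfold alt at h1 h2
  rw [List.getElem?_map] at h1 h2
  rw [Option.map_eq_some_iff] at h1 h2
  obtain ⟨i, hi, hia⟩ := h1
  obtain ⟨j, hj, hja⟩ := h2
  obtain ⟨h3, h4⟩ := List.getElem?_eq_some_iff.1 hi
  obtain ⟨h5, h6⟩ := List.getElem?_eq_some_iff.1 hj
  rw [List.getElem_range] at h4 h6
  rw [← h4] at hia
  rw [← h6] at hja
  rcases Nat.mod_two_eq_zero_or_one u.length with h7 | h7
  · have h8 : (u.length + 1) % 2 = 1 := by omega
    rw [h7] at hia
    rw [h8] at hja
    simp only [if_true, one_ne_zero, if_false] at hia hja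
    rw [← hia] at hja
    exact absurd hja (by decide)
  · have h8 : (u.length + 1) % 2 = 0 := by omega
    rw [h7] at hia
    rw [h8] at hja
    simp only [if_true, one_ne_zero, if_false] at hia hja
    rw [← hia] at hja
    exact absurd hja (by decide)

end Pool.Agent.H310.ThreeBody
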